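import Mathlib

set_option autoImplicit false

/-!
The painter step: extending a colouring of a small set to a larger set, keeping a
well-structured colouring on all small subsets.
-/

namespace Pool.Agent.Lib.MP_b6048d_co

open Finset

variable {V : Type*}

/-- `x` and `y` are joined by a walk of length at most `n`. -/
def Wd (G : SimpleGraph V) (n : ℕ) (x y : V) : Prop := ∃ p : G.Walk x y, p.length ≤ n

lemma Wd.refl {G : SimpleGraph V} (n : ℕ) (x : V) : Wd G n x x := ⟨.nil, by simp⟩

lemma Wd.symm {G : SimpleGraph V} {n : ℕ} {x y : V} (h : Wd G n x y) : Wd G n y x := by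
  obtain ⟨p, hp⟩ := h
  exact ⟨p.reverse, by simpa using hp⟩

lemma Wd.trans {G : SimpleGraph V} {n m : ℕ} {x y z : V} (h : Wd G n x y) (h' : Wd G m y z) :
    Wd G (n + m) x z := by
  obtain ⟨p, hp⟩ := h
  obtain ⟨q, hq⟩ := h'
  exact ⟨p.append q, by rw [SimpleGraph.Walk.length_append]; omega⟩

lemma Wd.mono {G : SimpleGraph V} {n m : ℕ} {x y : V} (h : Wd G n x y) (hnm : n ≤ m) :
    Wd G m x y := by
  obtain ⟨p, hp⟩ := h
  exact ⟨p, hp.trans hnm⟩

lemma Wd.adj {G : SimpleGraph V} {x y : V} (h : G.Adj x y) : Wd G 1 x y :=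
  ⟨.cons h .nil, by simp⟩

lemma Wd.step {G : SimpleGraph V} {n : ℕ} {x y z : V} (h : Wd G n x y) (h' : G.Adj y z) :
    Wd G (n + 1) x z := h.trans (Wd.adj h')

/-- A 1-Lipschitz function changes by at most `n` along a walk of length `n`. -/
lemma lip_of_wd {G : SimpleGraph V} {f : V → ℕ} (hf : ∀ u v, G.Adj u v → f u ≤ f v + 1) {n : ℕ}
    {x y : V} (h : Wd G n x y) : f y ≤ f x + n := by
  obtain ⟨p, hp⟩ := h
  induction p generalizing n with
  | nil => omega
  | @cons u v w hadj p ih =>
    rw [SimpleGraph.Walk.length_cons] at hp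
    have h1 := @ih p.length le_rfl
    have h2 := hf v u hadj.symm
    omega

/-- Compression of a finite set of heights. -/
lemma compress (U : Finset ℕ) : ∃ κ : ℕ → ℕ, (∀ u ∈ U, κ u < 2 * U.card) ∧
    (∀ u ∈ U, (κ u).bodd = u.bodd) ∧
    (∀ u ∈ U, ∀ u' ∈ U, u < u' → κ u < κ u' ∧ κ u' + u ≤ κ u + u') := by
  induction U using Finset.induction_on_max with
  | empty => exact ⟨id, by simp, by simp, by simp⟩
  | insert a U ha ih =>
    obtain ⟨κ, h1, h2, h3⟩ := ih
    have hcard : (insert a U).card = U.card + 1 :=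
      Finset.card_insert_of_notMem (fun h => lt_irrefl _ (ha a h))
    rcases U.eq_empty_or_nonempty with hU | hU
    · subst hU
      refine ⟨fun _ => if a.bodd then 1 else 0, ?_, ?_, ?_⟩
      · intro u hu
        simp only [insert_empty_eq, card_singleton, mul_one]
        split_ifs <;> omega
      · intro u hu
        simp only [insert_empty_eq, mem_singleton] at hu
        subst hu
        cases hb : u.bodd <;> simp
      · intro u hu u' hu' huu
        simp only [insert_empty_eq, mem_singleton] at hu hu'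
        omega
    · set M := U.max' hU with hM
      have hMU : M ∈ U := U.max'_mem hU
      have hMa : M < a := ha M hMU
      have hle : ∀ u ∈ U, u ≤ M := fun u hu => U.le_max' u hu
      set e : ℕ := if a.bodd = M.bodd then 2 else 1 with he
      have he1 : 1 ≤ e := by rw [he]; split_ifs <;> omega
      have he2 : e ≤ 2 := by rw [he]; split_ifs <;> omega
      have hpar : ∀ n : ℕ, n.bodd = (n % 2 == 1) := by
        intro n
        rw [Nat.mod_two_of_bodd]
        cases n.bodd <;> simp
      have hea : e + M ≤ a := by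
        rw [he]
        split_ifs with hb
        · rw [hpar, hpar] at hb
          have h5 : a % 2 = M % 2 := by
            rcases Nat.mod_two_eq_zero_or_one a with h6 | h6 <;>
            rcases Nat.mod_two_eq_zero_or_one M with h7 | h7 <;> simp [h6, h7] at hb ⊢
          omega
        · omega
      have heb : (κ M + e).bodd = a.bodd := by
        rw [Nat.bodd_add, h2 M hMU, he]
        split_ifs with hb
        · rw [hb]; simp
        · cases h8 : a.bodd <;> cases h9 : M.bodd <;> simp_all
      refine ⟨fun u => if u = a then κ M + e else κ u, ?_, ?_, ?_⟩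
      · intro u hu
        rw [hcard]
        have h10 := h1 M hMU
        by_cases hua : u = a
        · simp only [hua, if_true]; omega
        · simp only [hua, if_false]
          have h11 := h1 u (by simpa [hua] using hu)
          omega
      · intro u hu
        by_cases hua : u = a
        · simp only [hua, if_true]; exact heb
        · simp only [hua, if_false]
          exact h2 u (by simpa [hua] using hu)
      · intro u hu u' hu' huu
        by_cases hua : u = a
        · exfalso
          rcases Finset.mem_insert.1 hu' with h12 | h12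
          · omega
          · have := ha u' h12; omega
        · have huU : u ∈ U := by simpa [hua] using hu
          by_cases hua' : u' = a
          · simp only [hua, hua', if_true, if_false]
            rcases (hle u huU).lt_or_eq with h13 | h13
            · have h14 := h3 u huU M hMU h13
              omega
            · subst h13
              omega
          · have huU' : u' ∈ U := by simpa [hua'] using hu'
            simp only [hua, hua', if_false]
            exact h3 u huU u' huU' huu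

/-- A well-structured colouring of a (small) set `X`: palette `Bool × Fin c` of special colours,
`β` of ordinary colours. -/
def Good (G : SimpleGraph V) (w c : ℕ) {β : Type*} (X : Finset V)
    (col : V → (Bool × Fin c) ⊕ β) : Prop :=
  ∃ (f : V → ℕ) (φ : ℕ → V → Fin c),
    (∀ v, f v ≤ 2 * w) ∧
    (∀ u v, G.Adj u v → f u ≤ f v + 1) ∧
    (∀ h < 2 * w, ∀ u v, G.Adj u v → f u ≤ h → f v ≤ h → φ h u ≠ φ h v) ∧
    (∀ x ∈ X, ∀ s, col x = Sum.inl s → f x < 2 * w ∧ s = ((f x).bodd, φ (f x) x)) ∧
    (∀ x ∈ X, ∀ y ∈ X, G.Adj x y → ∀ s t, col x = Sum.inr s → col y = Sum.inr t → s ≠ t)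

lemma bodd_eq_of_le {a b : ℕ} (h : a.bodd = b.bodd) (h1 : a ≤ b + 1) (h2 : b ≤ a + 1) : a = b := by
  rcases Nat.lt_trichotomy a b with h3 | h3 | h3
  · have : b = a + 1 := by omega
    subst this
    rw [Nat.bodd_succ] at h
    cases h4 : a.bodd <;> simp [h4] at h
  · exact h3
  · have : a = b + 1 := by omega
    subst this
    rw [Nat.bodd_succ] at h
    cases h4 : b.bodd <;> simp [h4] at h

lemma Good.proper {G : SimpleGraph V} {w c : ℕ} {β : Type*} {X : Finset V}
    {col : V → (Bool × Fin c) ⊕ β} (h : Good G w c X col) {x y : V} (hx : x ∈ X) (hy : y ∈ X)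
    (hxy : G.Adj x y) : col x ≠ col y := by
  obtain ⟨f, φ, h1, h2, h3, h4, h5⟩ := h
  intro hc
  cases hcx : col x with
  | inl s =>
    have hcy : col y = Sum.inl s := by rw [← hc, hcx]
    obtain ⟨h6, h7⟩ := h4 x hx s hcx
    obtain ⟨h8, h9⟩ := h4 y hy s hcy
    rw [h7] at h9
    have h10 : (f x).bodd = (f y).bodd := (Prod.mk.inj h9).1
    have h11 : φ (f x) x = φ (f y) y := (Prod.mk.inj h9).2
    have h12 : f x = f y := bodd_eq_of_le h10 (h2 x y hxy) (h2 y x hxy.symm)
    rw [← h12] at h11
    exact h3 (f x) h6 x y hxy le_rfl h12.ge h11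
  | inr s =>
    have hcy : col y = Sum.inr s := by rw [← hc, hcx]
    exact h5 x hx y hy hxy s s hcx hcy rfl

lemma good_empty {G : SimpleGraph V} {w c : ℕ} {β : Type*} (col : V → (Bool × Fin c) ⊕ β)
    (hc : 0 < c) : Good G w c ∅ col := by
  refine ⟨fun _ => 2 * w, fun _ _ => ⟨0, hc⟩, by simp, by simp, ?_, by simp, by simp⟩
  intro h hh u v _ hu
  exact absurd hu (by simp only; omega)

/-- The painter step. -/
theorem painter {G : SimpleGraph V} {w c : ℕ} {β : Type*} {X T : Finset V}
    {col : V → (Bool × Fin c) ⊕ β} (hX : Good G w c X col)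
    (ψ : V → β) (hψ : ∀ u ∈ T, u ∉ X → ∀ v ∈ T, v ∉ X → G.Adj u v → ψ u ≠ ψ v)
    (Φ : V → Fin c)
    (hΦ : ∀ u v, G.Adj u v → (∃ x ∈ X, Wd G (2 * w) x u) → (∃ x ∈ X, Wd G (2 * w) x v) →
      Φ u ≠ Φ v) :
    ∃ col' : V → (Bool × Fin c) ⊕ β, (∀ x ∈ X, col' x = col x) ∧
      ∀ S ⊆ T, S.card ≤ w → Good G w c S col' := by
  classical
  obtain ⟨f, φ, h1, h2, h3, h4, h5⟩ := hX
  set φ' : ℕ → V → Fin c := fun h => if h < 2 * w then φ h else Φ with hφ'
  have hφlt : ∀ h, h < 2 * w → φ' h = φ h := fun h hh => by simp [hφ', hh]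
  have hφge : ∀ h, ¬ h < 2 * w → φ' h = Φ := fun h hh => by simp only [hφ', hh, if_false]
  set col' : V → (Bool × Fin c) ⊕ β := fun v =>
    if v ∈ X then col v else if ∃ x ∈ X, G.Adj x v then Sum.inl ((f v).bodd, φ' (f v) v)
      else Sum.inr (ψ v) with hcol'
  have hcX : ∀ v ∈ X, col' v = col v := fun v hv => by simp [hcol', hv]
  have hcN : ∀ v, v ∉ X → (∃ x ∈ X, G.Adj x v) →
      col' v = Sum.inl ((f v).bodd, φ' (f v) v) := fun v hv hx => by
    simp only [hcol', hv, if_false]; rw [if_pos hx]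
  have hcO : ∀ v, v ∉ X → (¬ ∃ x ∈ X, G.Adj x v) → col' v = Sum.inr (ψ v) := fun v hv hx => by
    simp only [hcol', hv, if_false]; rw [if_neg hx]
  -- the special vertices
  have hsp : ∀ v s, col' v = Sum.inl s →
      s = ((f v).bodd, φ' (f v) v) ∧ ∃ x ∈ X, Wd G 1 x v := by
    intro v s hs
    by_cases hv : v ∈ X
    · rw [hcX v hv] at hs
      obtain ⟨h6, h7⟩ := h4 v hv s hs
      rw [hφlt _ h6]
      exact ⟨h7, v, hv, Wd.refl 1 v⟩
    · by_cases hx : ∃ x ∈ X, G.Adj x v
      · rw [hcN v hv hx] at hs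
        obtain ⟨x, hxX, hxv⟩ := hx
        exact ⟨(Sum.inl.inj hs).symm, x, hxX, Wd.adj hxv⟩
      · rw [hcO v hv hx] at hs
        exact absurd hs (by simp)
  refine ⟨col', hcX, ?_⟩
  intro S hST hSw
  -- ordinary condition
  have hord : ∀ x ∈ S, ∀ y ∈ S, G.Adj x y → ∀ s t, col' x = Sum.inr s → col' y = Sum.inr t →
      s ≠ t := by
    intro x hx y hy hxy s t hs ht
    by_cases hxX : x ∈ X
    · by_cases hyX : y ∈ X
      · rw [hcX x hxX] at hs
        rw [hcX y hyX] at ht
        exact h5 x hxX y hyX hxy s t hs ht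
      · rw [hcN y hyX ⟨x, hxX, hxy⟩] at ht
        exact absurd ht (by simp)
    · by_cases hyX : y ∈ X
      · rw [hcN x hxX ⟨y, hyX, hxy.symm⟩] at hs
        exact absurd hs (by simp)
      · by_cases hx' : ∃ z ∈ X, G.Adj z x
        · rw [hcN x hxX hx'] at hs
          exact absurd hs (by simp)
        · by_cases hy' : ∃ z ∈ X, G.Adj z y
          · rw [hcN y hyX hy'] at ht
            exact absurd ht (by simp)
          · rw [hcO x hxX hx'] at hs
            rw [hcO y hyX hy'] at ht
            rw [← Sum.inr.inj hs, ← Sum.inr.inj ht]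
            exact hψ x (hST hx) hxX y (hST hy) hyX hxy
  -- the special part of S
  set S' := S.filter (fun v => (col' v).isLeft) with hS'
  have hS'mem : ∀ v, v ∈ S' ↔ v ∈ S ∧ ∃ s, col' v = Sum.inl s := by
    intro v
    simp only [hS', Finset.mem_filter, Sum.isLeft_iff]
  set U := S'.image f with hU
  have hUcard : U.card ≤ w := (Finset.card_image_le.trans (Finset.card_filter_le _ _)).trans hSw
  obtain ⟨κ, k1, k2, k3⟩ := compress U
  have hfU : ∀ s ∈ S', f s ∈ U := fun s hs => Finset.mem_image_of_mem f hs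
  have hk1 : ∀ s ∈ S', κ (f s) < 2 * w := fun s hs => by
    have := k1 _ (hfU s hs); omega
  -- compression is 1-Lipschitz
  have hkle : ∀ u ∈ U, ∀ u' ∈ U, u ≤ u' → κ u' + u ≤ κ u + u' := by
    intro u hu u' hu' huu
    rcases huu.lt_or_eq with h | h
    · exact (k3 u hu u' hu' h).2
    · rw [h]
  have hkmono : ∀ u ∈ U, ∀ u' ∈ U, u ≤ u' → κ u ≤ κ u' := by
    intro u hu u' hu' huu
    rcases huu.lt_or_eq with h | h
    · exact (k3 u hu u' hu' h).1.le
    · rw [h]
  have hklip : ∀ s ∈ S', ∀ t ∈ S', ∀ n, Wd G n s t → κ (f t) ≤ κ (f s) + n := by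
    intro s hs t ht n hn
    have h6 := lip_of_wd h2 hn
    rcases le_total (f t) (f s) with h7 | h7
    · exact (hkmono _ (hfU t ht) _ (hfU s hs) h7).trans (by omega)
    · have h8 := hkle _ (hfU s hs) _ (hfU t ht) h7
      omega
  -- new height function
  set A : ℕ → V → Prop := fun h v => ∃ s ∈ S', κ (f s) ≤ h ∧ Wd G (h - κ (f s)) s v with hA
  have hAstep : ∀ h u v, G.Adj u v → A h v → A (h + 1) u := by
    rintro h u v huv ⟨s, hs, h6, h7⟩
    refine ⟨s, hs, by omega, ?_⟩
    exact (h7.step huv.symm).mono (by omega)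
  have hAmono : ∀ h h' v, h ≤ h' → A h v → A h' v := by
    rintro h h' v hhh ⟨s, hs, h6, h7⟩
    exact ⟨s, hs, by omega, h7.mono (by omega)⟩
  set g : V → ℕ := fun v => sInf {h | h = 2 * w ∨ A h v} with hg
  have hgle : ∀ v, g v ≤ 2 * w := fun v => Nat.sInf_le (Or.inl rfl)
  have hgle' : ∀ v h, A h v → g v ≤ h := fun v h hh => Nat.sInf_le (Or.inr hh)
  have hgmem : ∀ v, g v = 2 * w ∨ A (g v) v := fun v =>
    Nat.sInf_mem (s := {h | h = 2 * w ∨ A h v}) ⟨2 * w, Or.inl rfl⟩
  have hglip : ∀ u v, G.Adj u v → g u ≤ g v + 1 := by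
    intro u v huv
    rcases hgmem v with h6 | h6
    · rw [h6]; exact (hgle u).trans (by omega)
    · exact hgle' u _ (hAstep _ u v huv h6)
  have hgA : ∀ h < 2 * w, ∀ v, g v ≤ h → A h v := by
    intro h hh v hv
    rcases hgmem v with h6 | h6
    · omega
    · exact hAmono _ _ _ hv h6
  have hgS : ∀ s ∈ S', g s = κ (f s) := by
    intro s hs
    apply le_antisymm
    · exact hgle' s _ ⟨s, hs, le_rfl, by rw [Nat.sub_self]; exact Wd.refl 0 s⟩
    · rcases hgmem s with h6 | ⟨t, ht, h6, h7⟩
      · rw [h6]; exact (hk1 s hs).le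
      · have := hklip t ht s hs _ h7
        omega
  -- new local colourings
  have hnew : ∀ h, ∃ θ : V → Fin c, h < 2 * w →
      (∀ u v, G.Adj u v → g u ≤ h → g v ≤ h → θ u ≠ θ v) ∧
      (∀ s ∈ S', κ (f s) = h → θ s = φ' (f s) s) := by
    intro h
    by_cases hh : h < 2 * w
    swap
    · exact ⟨Φ, fun h' => absurd h' hh⟩
    by_cases hex : ∃ u ∈ U, κ u ≤ h
    swap
    · refine ⟨Φ, fun _ => ⟨?_, ?_⟩⟩
      · intro u v _ hu _
        obtain ⟨s, hs, h6, -⟩ := hgA h hh u hu
        exact absurd ⟨f s, hfU s hs, h6⟩ hex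
      · intro s hs h6
        exact absurd ⟨f s, hfU s hs, h6.le⟩ hex
    · -- the largest such u
      have hne : (U.filter (fun u => κ u ≤ h)).Nonempty := by
        obtain ⟨u, hu, hu'⟩ := hex
        exact ⟨u, Finset.mem_filter.2 ⟨hu, hu'⟩⟩
      obtain ⟨u₁, hu₁, hmax⟩ := Finset.exists_max_image _ id hne
      simp only [Finset.mem_filter, id] at hu₁ hmax
      obtain ⟨hu₁U, hu₁h⟩ := hu₁
      set h₁ := u₁ + (h - κ u₁) with hh₁
      -- every vertex of new height at most h has old height at most h₁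
      have hfle : ∀ v, g v ≤ h → f v ≤ h₁ ∧ ∃ x ∈ X, Wd G (2 * w) x v := by
        intro v hv
        obtain ⟨s, hs, h6, h7⟩ := hgA h hh v hv
        have h8 := lip_of_wd h2 h7
        have h9 := hmax (f s) ⟨hfU s hs, h6⟩
        have h10 := hkle _ (hfU s hs) _ hu₁U h9
        refine ⟨by omega, ?_⟩
        obtain ⟨-, x, hxX, hxs⟩ := hsp s _ ((hS'mem s).1 hs).2.choose_spec
        exact ⟨x, hxX, (hxs.trans h7).mono (by omega)⟩
      by_cases hh₁w : h₁ < 2 * w
      · refine ⟨φ h₁, fun _ => ⟨?_, ?_⟩⟩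
        · intro u v huv hu hv
          exact h3 h₁ hh₁w u v huv (hfle u hu).1 (hfle v hv).1
        · intro s hs h6
          have h7 : f s = u₁ := by
            rcases (hmax (f s) ⟨hfU s hs, h6.le⟩).lt_or_eq with h8 | h8
            · have := (k3 _ (hfU s hs) _ hu₁U h8).1
              omega
            · exact h8
          have h8 : h₁ = f s := by rw [h7, hh₁, ← h7]; omega
          rw [h8, hφlt (f s) (by omega)]
      · refine ⟨Φ, fun _ => ⟨?_, ?_⟩⟩
        · intro u v huv hu hv
          exact hΦ u v huv (hfle u hu).2 (hfle v hv).2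
        · intro s hs h6
          have h7 : f s = u₁ := by
            rcases (hmax (f s) ⟨hfU s hs, h6.le⟩).lt_or_eq with h8 | h8
            · have := (k3 _ (hfU s hs) _ hu₁U h8).1
              omega
            · exact h8
          have h8 : h₁ = f s := by rw [h7, hh₁, ← h7]; omega
          rw [hφge (f s) (by omega)]
  choose θ hθ using hnew
  refine ⟨g, θ, hgle, hglip, ?_, ?_, hord⟩
  · intro h hh
    exact (hθ h hh).1
  · intro x hx s hs
    have hxS' : x ∈ S' := (hS'mem x).2 ⟨hx, s, hs⟩
    have h6 := hgS x hxS'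
    have h7 := hk1 x hxS'
    refine ⟨by omega, ?_⟩
    rw [h6, k2 _ (hfU x hxS'), (hθ _ h7).2 x hxS' rfl]
    exact (hsp x s hs).1

end Pool.Agent.Lib.MP_b6048d_co
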