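import Mathlib
import Pool.Agent.Lib.MP_b6048d_co.Painter

set_option autoImplicit false

/-!
Local colourability: neighbourhoods of small sets, and the carving theorem of
Kierstead, Szemeredi and Trotter.
-/

namespace Pool.Agent.Lib.MP_b6048d_co

open Finset

variable {V : Type*}

/-- Every ball of radius `ρ` can be properly coloured with `c` colours. -/
def Loc (G : SimpleGraph V) (ρ c : ℕ) : Prop :=
  ∀ v, ∃ θ : V → Fin c, ∀ x y, G.Adj x y → Wd G ρ v x → Wd G ρ v y → θ x ≠ θ y

/-- A colouring is proper on a set of vertices. -/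
def PropOn (G : SimpleGraph V) {α : Type*} (Y : Finset V) (θ : V → α) : Prop :=
  ∀ x ∈ Y, ∀ y ∈ Y, G.Adj x y → θ x ≠ θ y

/-- Neighbourhoods of small sets are `c`-colourable. -/
lemma loc_nbhd {G : SimpleGraph V} {ρ c j n : ℕ} (h : Loc G ρ c) (hc : 0 < c) (X : Finset V)
    (hX : X.card ≤ n) (hρ : n * (2 * j + 1) ≤ ρ) :
    ∃ θ : V → Fin c, ∀ u v, G.Adj u v → (∃ x ∈ X, Wd G j x u) → (∃ x ∈ X, Wd G j x v) →
      θ u ≠ θ v := by
  classical
  -- the closeness graph on X
  let Γ : SimpleGraph X := {
    Adj := fun x y => x ≠ y ∧ Wd G (2 * j + 1) x.1 y.1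
    symm := ⟨fun x y hxy => ⟨hxy.1.symm, hxy.2.symm⟩⟩
    loopless := ⟨fun x hx => hx.1 rfl⟩ }
  have hwalk : ∀ (x y : X) (p : Γ.Walk x y), Wd G (p.length * (2 * j + 1)) x.1 y.1 := by
    intro x y p
    induction p with
    | nil => simpa using Wd.refl (G := G) 0 _
    | @cons a b d hab p ih =>
      rw [SimpleGraph.Walk.length_cons]
      exact (hab.2.trans ih).mono (by ring_nf; rfl)
  have hreach : ∀ x y : X, Γ.Reachable x y → Wd G ((X.card - 1) * (2 * j + 1)) x.1 y.1 := by
    rintro x y ⟨p⟩
    have h1 := hwalk x y p.toPath.1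
    have h2 := p.toPath.2.length_lt
    rw [Fintype.card_coe] at h2
    exact h1.mono (Nat.mul_le_mul_right _ (by omega))
  let rep : Γ.ConnectedComponent → X := fun C => Quot.out C
  have hrep : ∀ x : X, Γ.Reachable (rep (Γ.connectedComponentMk x)) x := by
    intro x
    apply SimpleGraph.ConnectedComponent.exact
    exact Quot.out_eq _
  choose θ hθ using h
  have hpick : ∀ u : V, ∃ x : Option X, (∀ y, x = some y → Wd G j y.1 u) ∧
      ((∃ y ∈ X, Wd G j y u) → ∃ y, x = some y) := by
    intro u
    by_cases hu : ∃ y ∈ X, Wd G j y u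
    · obtain ⟨y, hy, hyu⟩ := hu
      exact ⟨some ⟨y, hy⟩, fun z hz => by rw [← Option.some.inj hz]; exact hyu, fun _ => ⟨_, rfl⟩⟩
    · exact ⟨none, by simp, fun h => absurd h hu⟩
  choose pick hpick1 hpick2 using hpick
  refine ⟨fun u => match pick u with
    | some x => θ (rep (Γ.connectedComponentMk x)).1 u
    | none => ⟨0, hc⟩, ?_⟩
  intro u v huv hu hv
  obtain ⟨x, hx⟩ := hpick2 u hu
  obtain ⟨y, hy⟩ := hpick2 v hv
  have hxu := hpick1 u x hx
  have hyv := hpick1 v y hy
  simp only [hx, hy]
  have hxy : Γ.connectedComponentMk x = Γ.connectedComponentMk y := by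
    by_cases hxy : x = y
    · rw [hxy]
    · apply SimpleGraph.ConnectedComponent.sound
      refine SimpleGraph.Adj.reachable (G := Γ) ⟨hxy, ?_⟩
      exact ((hxu.step huv).trans hyv.symm).mono (by omega)
  have hcard : 0 < X.card := Finset.card_pos.2 ⟨x.1, x.2⟩
  have hbound : (X.card - 1) * (2 * j + 1) + j ≤ ρ := by
    have h1 : X.card * (2 * j + 1) ≤ n * (2 * j + 1) := Nat.mul_le_mul_right _ hX
    obtain ⟨k, hk⟩ : ∃ k, X.card = k + 1 := ⟨X.card - 1, by omega⟩
    rw [hk] at h1 ⊢
    simp only [Nat.add_sub_cancel]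
    rw [Nat.succ_mul] at h1
    omega
  rw [← hxy]
  apply hθ
  · exact huv
  · exact ((hreach _ _ (hrep x)).trans hxu).mono hbound
  · have h2 := hreach _ _ (hrep y)
    rw [← hxy] at h2
    exact (h2.trans hyv).mono hbound

/-- `Y` can be properly coloured with `k` colours. -/
def ColOn (G : SimpleGraph V) (Y : Finset V) (k : ℕ) : Prop := ∃ θ : V → Fin k, PropOn G Y θ

lemma ColOn.of_fintype {G : SimpleGraph V} {Y : Finset V} {α : Type*} [Fintype α] {θ : V → α}
    (h : PropOn G Y θ) : ColOn G Y (Fintype.card α) := by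
  refine ⟨fun x => Fintype.equivFin α (θ x), ?_⟩
  intro x hx y hy hxy he
  exact h x hx y hy hxy ((Fintype.equivFin α).injective he)

lemma ColOn.mono {G : SimpleGraph V} {Y Y' : Finset V} {k k' : ℕ} (h : ColOn G Y k)
    (hY : Y' ⊆ Y) (hk : k ≤ k') : ColOn G Y' k' := by
  obtain ⟨θ, hθ⟩ := h
  refine ⟨fun x => Fin.castLE hk (θ x), ?_⟩
  intro x hx y hy hxy he
  exact hθ x (hY hx) y (hY hy) hxy (Fin.castLE_injective hk he)

/-- Union of two coloured sets, with disjoint palettes. -/
lemma ColOn.union {G : SimpleGraph V} [DecidableEq V] {Y Y' : Finset V} {k k' : ℕ}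
    (h : ColOn G Y k) (h' : ColOn G Y' k') : ColOn G (Y ∪ Y') (k + k') := by
  obtain ⟨θ, hθ⟩ := h
  obtain ⟨θ', hθ'⟩ := h'
  have : PropOn G (Y ∪ Y') (fun x => if x ∈ Y then (Sum.inl (θ x) : Fin k ⊕ Fin k')
      else Sum.inr (θ' x)) := by
    intro x hx y hy hxy
    by_cases hxY : x ∈ Y <;> by_cases hyY : y ∈ Y
    · simp only [hxY, hyY, if_true]
      intro he
      exact hθ x hxY y hyY hxy (Sum.inl.inj he)
    · simp [hxY, hyY]
    · simp [hxY, hyY]
    · simp only [hxY, hyY, if_false]
      intro he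
      exact hθ' x ((Finset.mem_union.1 hx).resolve_left hxY) y
        ((Finset.mem_union.1 hy).resolve_left hyY) hxy (Sum.inr.inj he)
  have h1 := ColOn.of_fintype this
  simpa using h1

/-- Carving: most of a finite set is `c`-colourable. -/
lemma carve [DecidableEq V] {G : SimpleGraph V} {ρ c q s : ℕ} (h : Loc G ρ c) (hc : 0 < c) (hρ : q * s ≤ ρ)
    (hq : 1 ≤ q) : ∀ (n : ℕ) (Y : Finset V), Y.card = n → Y.card < 2 ^ s →
    ∃ A ⊆ Y, q * (Y \ A).card ≤ A.card ∧ ∃ θ : V → Fin c, PropOn G A θ := by
  classical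
  intro n
  induction n using Nat.strong_induction_on with
  | _ n ih =>
  intro Y hYn hYs
  rcases Y.eq_empty_or_nonempty with rfl | ⟨v, hv⟩
  · exact ⟨∅, by simp, by simp, fun _ => ⟨0, hc⟩, by intro x hx; simp at hx⟩
  · set B : ℕ → Finset V := fun i => Y.filter (fun x => Wd G i v x) with hB
    have hBmono : ∀ i, B i ⊆ B (i + 1) := by
      intro i x hx
      simp only [hB, Finset.mem_filter] at hx ⊢
      exact ⟨hx.1, hx.2.mono (by omega)⟩
    have hvB : ∀ i, v ∈ B i := fun i => by
      simp only [hB, Finset.mem_filter]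
      exact ⟨hv, Wd.refl i v⟩
    have hex : ∃ i < q * s, q * (B (i + 1)).card ≤ (q + 1) * (B i).card := by
      by_contra hcon
      push Not at hcon
      have hgrow : ∀ i ≤ q * s, (q + 1) ^ i ≤ (B i).card * q ^ i := by
        intro i
        induction i with
        | zero =>
          intro _
          have : 0 < (B 0).card := Finset.card_pos.2 ⟨v, hvB 0⟩
          simpa using this
        | succ i ihi =>
          intro hi
          have h1 := ihi (by omega)
          have h2 := hcon i (by omega)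
          calc (q + 1) ^ (i + 1) = (q + 1) ^ i * (q + 1) := pow_succ _ _
            _ ≤ (B i).card * q ^ i * (q + 1) := Nat.mul_le_mul_right _ h1
            _ = ((q + 1) * (B i).card) * q ^ i := by ring
            _ ≤ (q * (B (i + 1)).card) * q ^ i := Nat.mul_le_mul_right _ h2.le
            _ = (B (i + 1)).card * q ^ (i + 1) := by ring
      have h3 := hgrow (q * s) le_rfl
      have h4 : 2 * q ^ q ≤ (q + 1) ^ q := by
        have h5 : ((q : ℝ) ) ^ q * 2 ≤ ((q : ℝ) + 1) ^ q := by
          have hq0 : (0 : ℝ) < q := by exact_mod_cast hq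
          have h6 := one_add_mul_le_pow (a := (1 : ℝ) / q) (by
            have : (0 : ℝ) ≤ 1 / q := by positivity
            linarith) q
          have h7 : (1 : ℝ) + q * (1 / q) = 2 := by field_simp; norm_num
          rw [h7] at h6
          have h8 : ((q : ℝ) + 1) ^ q = (q : ℝ) ^ q * (1 + 1 / q) ^ q := by
            rw [← mul_pow]; congr 1; field_simp
          rw [h8]
          exact mul_le_mul_of_nonneg_left h6 (by positivity)
        have h9 : ((q ^ q * 2 : ℕ) : ℝ) ≤ (((q + 1) ^ q : ℕ) : ℝ) := by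
          push_cast; exact h5
        have := Nat.cast_le.1 h9
        linarith
      have h5 : 2 ^ s * q ^ (q * s) ≤ (B (q * s)).card * q ^ (q * s) := by
        calc 2 ^ s * q ^ (q * s) = (2 * q ^ q) ^ s := by rw [mul_pow, pow_mul]
          _ ≤ ((q + 1) ^ q) ^ s := Nat.pow_le_pow_left h4 s
          _ = (q + 1) ^ (q * s) := by rw [pow_mul]
          _ ≤ _ := h3
      have h6 : 2 ^ s ≤ (B (q * s)).card := Nat.le_of_mul_le_mul_right h5 (by positivity)
      have h7 : (B (q * s)).card ≤ Y.card := Finset.card_le_card (Finset.filter_subset _ _)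
      omega
    obtain ⟨i, hi, hi2⟩ := hex
    set Y' := Y \ B (i + 1) with hY'
    have hY'card : Y'.card < n := by
      rw [← hYn]
      exact Finset.card_lt_card ⟨Finset.sdiff_subset, fun hh =>
        (Finset.mem_sdiff.1 (hh hv)).2 (hvB (i + 1))⟩
    obtain ⟨A', hA'Y, hA'q, θ', hθ'⟩ := ih Y'.card hY'card Y' rfl
      (lt_of_le_of_lt (Finset.card_le_card Finset.sdiff_subset) hYs)
    obtain ⟨θ, hθ⟩ := h v
    have hBY : B i ⊆ Y := Finset.filter_subset _ _
    have hdisj : Disjoint (B i) A' := by
      rw [Finset.disjoint_left]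
      intro x hx hx'
      exact (Finset.mem_sdiff.1 (hA'Y hx')).2 (hBmono i hx)
    refine ⟨B i ∪ A', Finset.union_subset hBY (hA'Y.trans Finset.sdiff_subset), ?_,
      fun x => if x ∈ B i then θ x else θ' x, ?_⟩
    · rw [Finset.card_union_of_disjoint hdisj]
      have h1 : Y \ (B i ∪ A') ⊆ (B (i + 1) \ B i) ∪ (Y' \ A') := by
        intro x hx
        simp only [Finset.mem_sdiff, Finset.mem_union, not_or, hY'] at hx ⊢
        tauto
      have h2 : (Y \ (B i ∪ A')).card ≤ (B (i + 1) \ B i).card + (Y' \ A').card :=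
        (Finset.card_le_card h1).trans (Finset.card_union_le _ _)
      have h3 : (B (i + 1) \ B i).card + (B i).card = (B (i + 1)).card :=
        Finset.card_sdiff_add_card_eq_card (hBmono i)
      have h4 : q * (Y \ (B i ∪ A')).card ≤
          q * (B (i + 1) \ B i).card + q * (Y' \ A').card := by
        rw [← mul_add]; exact Nat.mul_le_mul_left q h2
      have h5 : q * (B (i + 1)).card = q * (B (i + 1) \ B i).card + q * (B i).card := by
        rw [← h3]; ring
      have h6 : (q + 1) * (B i).card = q * (B i).card + (B i).card := by ring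
      omega
    · intro x hx y hy hxy
      have hfar : ∀ x ∈ B i, ∀ y ∈ A', ¬ G.Adj x y := by
        intro x hx y hy hxy
        have h1 := hA'Y hy
        simp only [hY', hB, Finset.mem_sdiff, Finset.mem_filter, not_and] at h1 hx
        exact h1.2 h1.1 (hx.2.step hxy)
      by_cases hxB : x ∈ B i
      · by_cases hyB : y ∈ B i
        · simp only [hxB, hyB, if_true]
          apply hθ x y hxy
          · exact ((Finset.mem_filter.1 hxB).2).mono (by omega)
          · exact ((Finset.mem_filter.1 hyB).2).mono (by omega)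
        · have hyA : y ∈ A' := (Finset.mem_union.1 hy).resolve_left hyB
          exact absurd hxy (hfar x hxB y hyA)
      · have hxA : x ∈ A' := (Finset.mem_union.1 hx).resolve_left hxB
        by_cases hyB : y ∈ B i
        · exact absurd hxy.symm (hfar y hyB x hxA)
        · have hyA : y ∈ A' := (Finset.mem_union.1 hy).resolve_left hyB
          simp only [hxB, hyB, if_false]
          exact hθ' x hxA y hyA hxy

/-- The Kierstead-Szemeredi-Trotter bound. -/
lemma kst [DecidableEq V] {G : SimpleGraph V} {ρ c q s : ℕ} (h : Loc G ρ c) (hc : 0 < c)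
    (hρ : q * s ≤ ρ) (hq : 1 ≤ q) : ∀ (t : ℕ) (Y : Finset V), Y.card < q ^ t → Y.card < 2 ^ s →
    ColOn G Y ((t + 1) * c) := by
  intro t
  induction t with
  | zero =>
    intro Y hY _
    have : Y = ∅ := by
      rw [← Finset.card_eq_zero]
      simpa using hY
    subst this
    exact ⟨fun _ => ⟨0, by simpa using hc⟩, by intro x hx; simp at hx⟩
  | succ t ih =>
    intro Y hY hYs
    obtain ⟨A, hAY, hAq, hA⟩ := carve h hc hρ hq Y.card Y rfl hYs
    have h1 : q * (Y \ A).card < q * q ^ t := by
      calc q * (Y \ A).card ≤ A.card := hAq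
        _ ≤ Y.card := Finset.card_le_card hAY
        _ < q ^ (t + 1) := hY
        _ = q * q ^ t := by ring
    have h2 : (Y \ A).card < q ^ t := lt_of_mul_lt_mul_left h1 (Nat.zero_le _)
    have h3 := ih (Y \ A) h2 (lt_of_le_of_lt (Finset.card_le_card Finset.sdiff_subset) hYs)
    have h4 : ColOn G A c := hA
    have h5 := h4.union h3
    exact h5.mono (by
      intro x hx
      by_cases hxA : x ∈ A
      · exact Finset.mem_union_left _ hxA
      · exact Finset.mem_union_right _ (Finset.mem_sdiff.2 ⟨hx, hxA⟩)) (by ring_nf; rfl)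

end Pool.Agent.Lib.MP_b6048d_co
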