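import Mathlib
import Pool.Agent.Lib.MP_b6048d_co.Local

set_option autoImplicit false

/-!
Cycles as lists of vertices; graphs without cycles longer than `n0` are `2 c`-colourable.
-/

namespace Pool.Agent.Lib.MP_b6048d_co

open Finset

variable {V : Type*}

/-- A cycle of a graph, as the list of its vertices in cyclic order. -/
structure IsCyc (G : SimpleGraph V) (l : List V) : Prop where
  len : 3 ≤ l.length
  nodup : l.Nodup
  chain : l.IsChain G.Adj
  closed : ∀ a ∈ l.head?, ∀ b ∈ l.getLast?, G.Adj b a

lemma IsCyc.toWalk {G : SimpleGraph V} {l : List V} (h : IsCyc G l) :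
    ∃ (v : V) (p : G.Walk v v), p.IsCycle ∧ p.length = l.length := by
  have hne : l ≠ [] := by
    rintro rfl
    simpa using h.len
  have hadj : G.Adj (l.getLast hne) (l.head hne) :=
    h.closed _ (List.head_mem_head? hne) _ (List.getLast_mem_getLast? hne)
  refine ⟨l.getLast hne, .cons hadj (SimpleGraph.Walk.ofSupport l hne h.chain), ?_, ?_⟩
  · rw [SimpleGraph.Walk.isCycle_iff_isPath_tail_and_le_length]
    constructor
    · rw [SimpleGraph.Walk.isPath_def, SimpleGraph.Walk.support_tail_of_not_nil]
      · rw [SimpleGraph.Walk.support_cons, List.tail_cons, SimpleGraph.Walk.support_ofSupport]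
        exact h.nodup
      · simp
    · rw [SimpleGraph.Walk.length_cons, SimpleGraph.Walk.length_ofSupport]
      have := h.len
      omega
  · rw [SimpleGraph.Walk.length_cons, SimpleGraph.Walk.length_ofSupport]
    have := h.len
    omega

lemma IsCyc.rotate {G : SimpleGraph V} {l l' : List V} (h : IsCyc G (l ++ l')) :
    IsCyc G (l' ++ l) := by
  rcases l.eq_nil_or_concat with rfl | ⟨l₀, a, rfl⟩
  · simpa using h
  · cases l' with
    | nil => simpa using h
    | cons b l' =>
      obtain ⟨h1, h2, h3, h4⟩ := h
      refine ⟨by simp only [List.length_append, List.length_cons] at h1 ⊢; omega, ?_, ?_, ?_⟩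
      · rw [List.nodup_append_comm]; exact h2
      · rw [List.isChain_append] at h3 ⊢
        refine ⟨h3.2.1, h3.1, ?_⟩
        intro x hx y hy
        apply h4
        · rw [List.head?_append]
          rw [Option.mem_def] at hy ⊢
          rw [hy]; rfl
        · rw [List.getLast?_append]
          rw [Option.mem_def] at hx ⊢
          rw [hx]; rfl
      · rw [List.isChain_append] at h3
        intro x hx y hy
        apply h3.2.2
        · rw [List.getLast?_append] at hy
          simpa using hy
        · simpa using hx

lemma IsCyc.reverse {G : SimpleGraph V} {l : List V} (h : IsCyc G l) : IsCyc G l.reverse := by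
  obtain ⟨h1, h2, h3, h4⟩ := h
  refine ⟨by simpa using h1, List.nodup_reverse.2 h2, ?_, ?_⟩
  · rw [List.isChain_reverse]
    exact h3.imp fun a b hab => hab.symm
  · intro a ha b hb
    rw [List.head?_reverse] at ha
    rw [List.getLast?_reverse] at hb
    exact (h4 b hb a ha).symm

/-- No cycle inside `W` is longer than `n`. -/
def NoLong (G : SimpleGraph V) (W : Finset V) (n : ℕ) : Prop :=
  ∀ l, IsCyc G l → (∀ v ∈ l, v ∈ W) → l.length ≤ n

lemma NoLong.mono {G : SimpleGraph V} {W W' : Finset V} {n n' : ℕ} (h : NoLong G W n)
    (hW : W' ⊆ W) (hn : n ≤ n') : NoLong G W' n' := fun l hl hlW =>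
  (h l hl fun v hv => hW (hlW v hv)).trans hn

lemma wd_of_chain {G : SimpleGraph V} : ∀ (l : List V) (a : V), (a :: l).IsChain G.Adj →
    ∀ i (hi : i < (a :: l).length), Wd G i a ((a :: l)[i]) := by
  intro l
  induction l with
  | nil =>
    intro a _ i hi
    have : i = 0 := by simpa using hi
    subst this
    exact Wd.refl 0 a
  | cons b l ih =>
    intro a h i hi
    rw [List.isChain_cons_cons] at h
    cases i with
    | zero => exact Wd.refl 0 a
    | succ i =>
      have h1 := ih b h.2 i (by simpa using hi)
      simp only [List.getElem_cons_succ]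
      exact ((Wd.adj h.1).trans h1).mono (by omega)

/-- A back edge of a depth first search stack closes a cycle. -/
lemma back_edge {G : SimpleGraph V} {n0 : ℕ} (hn0 : 2 ≤ n0) {r p : V} {α β : List V}
    (hchain : (r :: (α ++ p :: β)).IsChain G.Adj) (hnodup : (r :: (α ++ p :: β)).Nodup)
    (hlong : ∀ l, IsCyc G l → (∀ v ∈ l, v ∈ r :: (α ++ p :: β)) → l.length ≤ n0)
    (hadj : G.Adj p r) : α.length + 2 ≤ n0 := by
  by_cases hα0 : α = []
  · subst hα0; simpa using hn0
  · have hpos : 0 < α.length := List.length_pos_iff.2 hα0
    have h1 : IsCyc G (r :: (α ++ [p])) := by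
      refine ⟨by simp; omega, ?_, ?_, ?_⟩
      · refine hnodup.sublist ?_
        refine List.Sublist.cons_cons r ?_
        refine List.Sublist.append_left ?_ α
        simp
      · have h2 : r :: (α ++ p :: β) = (r :: α) ++ p :: β := rfl
        rw [h2, List.isChain_split] at hchain
        exact hchain.1
      · intro a ha b hb
        have ha' : r = a := by simpa using ha
        have hb' : p = b := by
          have : r :: (α ++ [p]) = (r :: α) ++ [p] := rfl
          rw [this, List.getLast?_append] at hb
          simpa using hb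
        rw [← ha', ← hb']
        exact hadj
    have h2 := hlong _ h1 (by
      intro v hv
      simp only [List.mem_cons, List.mem_append, List.not_mem_nil, or_false] at hv ⊢
      tauto)
    simp only [List.length_cons, List.length_append, List.length_nil] at h2
    omega

/-- Depth first search colouring, for a colour depending on the stack. -/
lemma dfs_gen [DecidableEq V] {G : SimpleGraph V} {γ : Type*} [Nonempty γ]
    {colf : V → List V → γ} {Y : Finset V}
    (hcol : ∀ (r p : V) (α β : List V), (r :: (α ++ p :: β)).IsChain G.Adj →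
      (r :: (α ++ p :: β)).Nodup → (∀ v ∈ r :: (α ++ p :: β), v ∈ Y) → G.Adj p r →
      colf p β ≠ colf r (α ++ p :: β)) :
    ∀ (μ : ℕ) (W : Finset V) (P : List V), 2 * W.card + P.length ≤ μ → W ⊆ Y →
      (∀ p ∈ P, p ∈ Y ∧ p ∉ W) → P.Nodup → P.IsChain G.Adj →
      ∃ col : V → γ, PropOn G W col ∧
        ∀ v ∈ W, ∀ (α β : List V) (p : V), P = α ++ p :: β → G.Adj p v →
          colf p β ≠ col v := by
  have γ0 : γ := Classical.arbitrary γ
  intro μ
  induction μ with
  | zero =>
    intro W P hμ _ _ _ _
    have hW : W = ∅ := by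
      rw [← Finset.card_eq_zero]; omega
    subst hW
    exact ⟨fun _ => γ0, by intro x hx; simp at hx, by simp⟩
  | succ μ ih =>
    intro W P hμ hWY hP hPn hPc
    rcases W.eq_empty_or_nonempty with rfl | hWne
    · exact ⟨fun _ => γ0, by intro x hx; simp at hx, by simp⟩
    -- push step
    have push : ∀ r ∈ W, (∀ p ∈ P.head?, G.Adj r p) →
        ∃ col : V → γ, PropOn G W col ∧
        ∀ v ∈ W, ∀ (α β : List V) (p : V), P = α ++ p :: β → G.Adj p v →
          colf p β ≠ col v := by
      intro r hr hrp
      have hrP : r ∉ P := fun h => (hP r h).2 hr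
      have hcardW : (W.erase r).card + 1 = W.card := Finset.card_erase_add_one hr
      have hn' : (r :: P).Nodup := List.nodup_cons.2 ⟨hrP, hPn⟩
      have hc' : (r :: P).IsChain G.Adj := List.isChain_cons.2 ⟨hrp, hPc⟩
      obtain ⟨col, h1, h2⟩ := ih (W.erase r) (r :: P) (by simp; omega)
        ((Finset.erase_subset _ _).trans hWY) (by
          intro p hp
          rcases List.mem_cons.1 hp with rfl | hp
          · exact ⟨hWY hr, by simp⟩
          · exact ⟨(hP p hp).1, fun h => (hP p hp).2 (Finset.mem_of_mem_erase h)⟩) hn' hc'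
      refine ⟨fun v => if v = r then colf r P else col v, ?_, ?_⟩
      · intro x hx y hy hxy
        by_cases hxr : x = r
        · subst hxr
          have hyr : y ≠ x := hxy.ne'
          simp only [hyr, if_true, if_false]
          exact h2 y (Finset.mem_erase.2 ⟨hyr, hy⟩) [] P x rfl hxy
        · by_cases hyr : y = r
          · subst hyr
            simp only [hxr, if_true, if_false]
            exact (h2 x (Finset.mem_erase.2 ⟨hxr, hx⟩) [] P y rfl hxy.symm).symm
          · simp only [hxr, hyr, if_false]
            exact h1 x (Finset.mem_erase.2 ⟨hxr, hx⟩) y (Finset.mem_erase.2 ⟨hyr, hy⟩) hxy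
      · intro v hv α β p hPe hadj
        by_cases hvr : v = r
        · subst hvr
          simp only [if_true]
          subst hPe
          apply hcol _ _ _ _ hc' hn' _ hadj
          intro u hu
          rcases List.mem_cons.1 hu with rfl | h3
          · exact hWY hv
          · exact (hP u h3).1
        · simp only [hvr, if_false]
          exact h2 v (Finset.mem_erase.2 ⟨hvr, hv⟩) (r :: α) β p (by rw [hPe]; rfl) hadj
    cases P with
    | nil =>
      obtain ⟨r, hr⟩ := hWne
      exact push r hr (by simp)
    | cons p P =>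
      by_cases hex : ∃ r ∈ W, G.Adj r p
      · obtain ⟨r, hr, hrp⟩ := hex
        exact push r hr (by
          intro q hq
          have : p = q := by simpa using hq
          rw [← this]; exact hrp)
      · obtain ⟨col, h1, h2⟩ := ih W P (by simp at hμ; omega) hWY
          (fun q hq => hP q (List.mem_cons_of_mem _ hq)) (List.nodup_cons.1 hPn).2
          (List.isChain_cons.1 hPc).2
        refine ⟨col, h1, ?_⟩
        intro v hv α β q hPe hadj
        cases α with
        | nil =>
          have : p = q := by simpa using (List.cons.inj hPe).1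
          subst this
          exact absurd ⟨v, hv, hadj.symm⟩ hex
        | cons a α =>
          exact h2 v hv α β q (by simpa using (List.cons.inj hPe).2) hadj

/-- Sets without cycles longer than `n` are `n`-colourable. -/
lemma colOn_of_noLong_self [DecidableEq V] {G : SimpleGraph V} {n : ℕ} (hn : 2 ≤ n)
    {Y : Finset V} (hY : NoLong G Y n) : ColOn G Y n := by
  have hn' : 0 < n := by omega
  have : Nonempty (Fin n) := ⟨⟨0, hn'⟩⟩
  obtain ⟨col, h1, -⟩ := dfs_gen (G := G) (Y := Y)
    (colf := fun _ P => (⟨P.length % n, Nat.mod_lt _ hn'⟩ : Fin n)) (by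
      intro r p α β hc hnd hmem hadj he
      have h1 := back_edge hn hc hnd (fun l hl hlv => hY l hl fun v hv => hmem v (hlv v hv)) hadj
      have h2 : β.length % n = (α ++ p :: β).length % n := Fin.mk.inj_iff.1 he
      have hlen : (α ++ p :: β).length = β.length + (α.length + 1) := by
        simp; omega
      rw [hlen] at h2
      have h3 : (α.length + 1) % n = 0 := by
        have h4 : (β.length + (α.length + 1)) % n = (β.length + 0) % n := by
          rw [← h2, add_zero]
        have h5 := (Nat.ModEq.add_left_cancel' β.length (show β.length + (α.length + 1) ≡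
          β.length + 0 [MOD n] from h4))
        simpa [Nat.ModEq] using h5
      rw [Nat.mod_eq_of_lt (by omega)] at h3
      omega) _ Y [] le_rfl subset_rfl (by simp)
    List.nodup_nil List.isChain_nil
  exact ⟨col, h1⟩

/-- The colour of the top vertex of a depth first search stack. -/
def dcol {c : ℕ} (θ : V → V → Fin c) (n0 : ℕ) (v : V) (P : List V) : Bool × Fin c :=
  ((P.length / n0).bodd, θ ((v :: P).getD (P.length % n0) v) v)

lemma dcol_ne {G : SimpleGraph V} {n0 ρ c : ℕ} {θ : V → V → Fin c}
    (hθ : ∀ v x y, G.Adj x y → Wd G ρ v x → Wd G ρ v y → θ v x ≠ θ v y)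
    (hn : n0 ≤ ρ) (hn0 : 2 ≤ n0) {r p : V} {α β : List V}
    (hchain : (r :: (α ++ p :: β)).IsChain G.Adj) (hnodup : (r :: (α ++ p :: β)).Nodup)
    (hlong : ∀ l, IsCyc G l → (∀ v ∈ l, v ∈ r :: (α ++ p :: β)) → l.length ≤ n0)
    (hadj : G.Adj p r) : dcol θ n0 p β ≠ dcol θ n0 r (α ++ p :: β) := by
  -- the length of α
  have hα : α.length + 2 ≤ n0 := back_edge hn0 hchain hnodup hlong hadj
  intro he
  unfold dcol at he
  have he1 := (Prod.mk.inj he).1
  have he2 := (Prod.mk.inj he).2
  have hlen : (α ++ p :: β).length = β.length + (α.length + 1) := by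
    simp; omega
  have hn0' : 0 < n0 := by omega
  have hdiv : (α ++ p :: β).length / n0 = β.length / n0 := by
    have h1 : β.length / n0 ≤ (α ++ p :: β).length / n0 :=
      Nat.div_le_div_right (by omega)
    have h2 : (α ++ p :: β).length / n0 ≤ β.length / n0 + 1 := by
      rw [← Nat.add_div_right _ hn0']
      exact Nat.div_le_div_right (by omega)
    exact (bodd_eq_of_le he1 (by omega) h2).symm
  have hmod : (α ++ p :: β).length % n0 = β.length % n0 + (α.length + 1) := by
    have h1 := Nat.div_add_mod (α ++ p :: β).length n0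
    have h2 := Nat.div_add_mod β.length n0
    rw [hdiv] at h1
    omega
  have hmodlt : (α ++ p :: β).length % n0 < n0 := Nat.mod_lt _ hn0'
  have hmodle : β.length % n0 ≤ β.length := Nat.mod_le _ _
  have hi1 : β.length % n0 < (p :: β).length := by simp; omega
  have hi2 : (α ++ p :: β).length % n0 < (r :: (α ++ p :: β)).length := by
    rw [hmod, List.length_cons, hlen]; omega
  have hx : (r :: (α ++ p :: β)).getD ((α ++ p :: β).length % n0) r =
      (p :: β).getD (β.length % n0) p := by
    rw [List.getD_eq_getElem _ _ hi2, List.getD_eq_getElem _ _ hi1]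
    have h3 : ∀ (l : List V) (i j : ℕ) (hi : i < l.length) (hj : j < l.length), i = j →
        l[i] = l[j] := by intro l i j hi hj hij; subst hij; rfl
    have h4 : r :: (α ++ p :: β) = (r :: α) ++ p :: β := rfl
    have h5 : (r :: (α ++ p :: β))[(α ++ p :: β).length % n0] =
        ((r :: α) ++ p :: β)[(r :: α).length + β.length % n0]'(by
          rw [← h4]; simp only [List.length_cons] at *; omega) := by
      apply h3
      rw [hmod, List.length_cons]; omega
    rw [h5, List.getElem_append_right (by omega)]
    apply h3
    omega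
  rw [hx] at he2
  set x0 := (p :: β).getD (β.length % n0) p with hx0
  have hw1 : Wd G ρ x0 p := by
    have h1 := wd_of_chain β p (by
      have h4 : r :: (α ++ p :: β) = (r :: α) ++ p :: β := rfl
      rw [h4, List.isChain_append] at hchain
      exact hchain.2.1) (β.length % n0) hi1
    rw [hx0, List.getD_eq_getElem _ _ hi1]
    exact h1.symm.mono (by omega)
  have hw2 : Wd G ρ x0 r := by
    have h1 := wd_of_chain (α ++ p :: β) r hchain ((α ++ p :: β).length % n0) hi2
    rw [← List.getD_eq_getElem _ r hi2, hx] at h1
    exact h1.symm.mono (by omega)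
  exact hθ x0 p r hadj hw1 hw2 he2

/-- Sets without cycles longer than `n0 ≤ ρ` are `2 c`-colourable. -/
lemma colOn_of_noLong [DecidableEq V] {G : SimpleGraph V} {n0 ρ c : ℕ} (h : Loc G ρ c)
    (hn : n0 ≤ ρ) (hn0 : 2 ≤ n0) (hc : 0 < c) {Y : Finset V} (hY : NoLong G Y n0) :
    ColOn G Y (2 * c) := by
  choose θ hθ using h
  have : Nonempty (Bool × Fin c) := ⟨(true, ⟨0, hc⟩)⟩
  obtain ⟨col, h1, -⟩ := dfs_gen (G := G) (Y := Y) (colf := dcol θ n0) (by
      intro r p α β hch hnd hmem hadj
      exact dcol_ne hθ hn hn0 hch hnd
        (fun l hl hlv => hY l hl fun v hv => hmem v (hlv v hv)) hadj) _ Y [] le_rfl subset_rfl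
    (by simp) List.nodup_nil List.isChain_nil
  have h2 := ColOn.of_fintype h1
  simpa using h2

end Pool.Agent.Lib.MP_b6048d_co
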