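import Mathlib
import Pool.Agent.Lib.MP_2ce0dd_pr.Menger
import Pool.Agent.Lib.MP_b6048d_co.Cyc

set_option autoImplicit false

/-!
Separations of a finite vertex set, and Menger's theorem.
-/

namespace Pool.Agent.Lib.MP_b6048d_co

open Finset Pool.Agent.Lib.MP_2ce0dd_pr

variable {V : Type*} [DecidableEq V]

open Classical in
/-- The (directed) edges inside `W`. -/
noncomputable def edg (G : SimpleGraph V) (W : Finset V) : Finset (V × V) :=
  (W ×ˢ W).filter (fun p => G.Adj p.1 p.2)

lemma mem_edg {G : SimpleGraph V} {W : Finset V} {a b : V} :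
    (a, b) ∈ edg G W ↔ (a ∈ W ∧ b ∈ W) ∧ G.Adj a b := by
  unfold edg
  simp

/-- `k` disjoint paths between `A` and `B` inside `W`. -/
def Linked (G : SimpleGraph V) (W A B : Finset V) (k : ℕ) : Prop :=
  ∃ P : Fin k → List V, (∀ i, IsABPath (edg G W) A B (P i)) ∧
    ∀ i j, i ≠ j → List.Disjoint (P i) (P j)

lemma Linked.mono {G : SimpleGraph V} {W A B : Finset V} {k k' : ℕ} (h : Linked G W A B k)
    (hk : k' ≤ k) : Linked G W A B k' := by
  obtain ⟨P, h1, h2⟩ := h
  exact ⟨fun i => P (Fin.castLE hk i), fun i => h1 _, fun i j hij =>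
    h2 _ _ (fun hh => hij (Fin.castLE_injective hk hh))⟩

/-- A separation of `W`. -/
structure IsSep (G : SimpleGraph V) (W A B : Finset V) : Prop where
  union : A ∪ B = W
  far : ∀ a ∈ A, a ∉ B → ∀ b ∈ B, b ∉ A → ¬ G.Adj a b

lemma IsSep.symm {G : SimpleGraph V} {W A B : Finset V} (h : IsSep G W A B) : IsSep G W B A :=
  ⟨by rw [Finset.union_comm]; exact h.union, fun a ha haB b hb hbA hab =>
    h.far b hb hbA a ha haB hab.symm⟩

/-- A list walk from `A` to `B` meets `A ∩ B`. -/
lemma IsSep.meet {G : SimpleGraph V} {W A B : Finset V} (h : IsSep G W A B) :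
    ∀ (p : List V), p.IsChain (fun a b => (a, b) ∈ edg G W) → (∀ a ∈ p.head?, a ∈ A) →
      (∀ b ∈ p.getLast?, b ∈ B) → p ≠ [] → ∃ v ∈ p, v ∈ A ∧ v ∈ B := by
  intro p
  induction p with
  | nil => intro _ _ _ h; exact absurd rfl h
  | cons a p ih =>
    intro hc hh hl _
    have haA : a ∈ A := hh a rfl
    by_cases haB : a ∈ B
    · exact ⟨a, by simp, haA, haB⟩
    · cases p with
      | nil => exact absurd (hl a rfl) haB
      | cons b p =>
        rw [List.isChain_cons_cons] at hc
        have hab := mem_edg.1 hc.1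
        have hbA : b ∈ A := by
          by_contra hbA
          have hbB : b ∈ B := by
            have : b ∈ A ∪ B := by rw [h.union]; exact hab.1.2
            exact (Finset.mem_union.1 this).resolve_left hbA
          exact h.far a haA haB b hbB hbA hab.2
        obtain ⟨v, hv, hv2⟩ := ih hc.2 (by intro x hx; simp at hx; rw [← hx]; exact hbA)
          (by intro x hx; apply hl; simpa using hx) (by simp)
        exact ⟨v, List.mem_cons_of_mem _ hv, hv2⟩

/-- Menger's theorem in terms of separations. -/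
lemma linked_of_sep {G : SimpleGraph V} {W A B : Finset V} (hA : A ⊆ W) (hB : B ⊆ W) (k : ℕ)
    (h : ∀ A' B' : Finset V, IsSep G W A' B' → A ⊆ A' → B ⊆ B' → k ≤ (A' ∩ B').card) :
    Linked G W A B k := by
  classical
  apply menger k _ (edg G W) rfl A B
  intro S hS
  -- vertices reachable from `A` avoiding `S`
  set R : Finset V := W.filter (fun v => ∃ p : List V, p.IsChain (fun a b => (a, b) ∈ edg G W) ∧
    (∃ a ∈ A, p.head? = some a) ∧ p.getLast? = some v ∧ ∀ u ∈ p, u ∉ S) with hR
  have hsep : IsSep G W (R ∪ (S ∩ W)) (W \ R) := by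
    refine ⟨?_, ?_⟩
    · ext v
      simp only [Finset.mem_union, Finset.mem_inter, Finset.mem_sdiff]
      constructor
      · rintro ((h1 | h1) | h1)
        · exact (Finset.mem_filter.1 h1).1
        · exact h1.2
        · exact h1.1
      · intro hv
        by_cases h1 : v ∈ R
        · exact Or.inl (Or.inl h1)
        · exact Or.inr ⟨hv, h1⟩
    · intro a ha haB b hb hbA hab
      have haW : a ∈ W := by
        rcases Finset.mem_union.1 ha with h1 | h1
        · exact (Finset.mem_filter.1 h1).1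
        · exact (Finset.mem_inter.1 h1).2
      have haR : a ∈ R := by
        by_contra h1
        exact haB (Finset.mem_sdiff.2 ⟨haW, h1⟩)
      obtain ⟨-, p, hp1, hp2, hp3, hp4⟩ := Finset.mem_filter.1 haR
      obtain ⟨hbW, hbR⟩ := Finset.mem_sdiff.1 hb
      have hbS : b ∉ S := by
        intro h1
        exact hbA (Finset.mem_union_right _ (Finset.mem_inter.2 ⟨h1, hbW⟩))
      apply hbR
      refine Finset.mem_filter.2 ⟨hbW, p ++ [b], ?_, ?_, by simp, ?_⟩
      · rw [List.isChain_append]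
        refine ⟨hp1, by simp, ?_⟩
        intro x hx y hy
        rw [hp3] at hx
        have h1 : a = x := by simpa using hx
        have h2 : b = y := by simpa using hy
        rw [← h1, ← h2]
        exact mem_edg.2 ⟨⟨haW, hbW⟩, hab⟩
      · obtain ⟨a', ha', hh⟩ := hp2
        exact ⟨a', ha', by rw [List.head?_append, hh]; rfl⟩
      · intro u hu
        rcases List.mem_append.1 hu with h1 | h1
        · exact hp4 u h1
        · have : u = b := by simpa using h1
          rw [this]; exact hbS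
  have h1 := h _ _ hsep (by
    intro a ha
    by_cases haS : a ∈ S
    · exact Finset.mem_union_right _ (Finset.mem_inter.2 ⟨haS, hA ha⟩)
    · refine Finset.mem_union_left _ (Finset.mem_filter.2 ⟨hA ha, [a], by simp, ⟨a, ha, rfl⟩,
        rfl, ?_⟩)
      intro u hu
      have : u = a := by simpa using hu
      rw [this]; exact haS) (by
    intro b hb
    refine Finset.mem_sdiff.2 ⟨hB hb, ?_⟩
    intro hbR
    obtain ⟨-, p, hp1, hp2, hp3, hp4⟩ := Finset.mem_filter.1 hbR
    obtain ⟨v, hv, hvS⟩ := hS p ⟨hp1, hp2, b, hb, hp3⟩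
    exact hp4 v hv hvS)
  refine h1.trans (Finset.card_le_card ?_)
  intro v hv
  obtain ⟨h2, h3⟩ := Finset.mem_inter.1 hv
  rcases Finset.mem_union.1 h2 with h4 | h4
  · exact absurd h4 (Finset.mem_sdiff.1 h3).2
  · exact (Finset.mem_inter.1 h4).1

/-- A minimal-order separation between two sets. -/
lemma exists_min_sep (G : SimpleGraph V) {W A B : Finset V} (hA : A ⊆ W) (hB : B ⊆ W) :
    ∃ A' B' : Finset V, IsSep G W A' B' ∧ A ⊆ A' ∧ B ⊆ B' ∧
      ∀ A₁ B₁ : Finset V, IsSep G W A₁ B₁ → A ⊆ A₁ → B ⊆ B₁ → (A' ∩ B').card ≤ (A₁ ∩ B₁).card := by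
  classical
  have hex : ∃ k, ∃ A' B' : Finset V, IsSep G W A' B' ∧ A ⊆ A' ∧ B ⊆ B' ∧
      (A' ∩ B').card = k := ⟨_, W, W, ⟨by simp, by
        intro a ha haB; exact absurd ha haB⟩, hA, hB, rfl⟩
  obtain ⟨A', B', h1, h2, h3, h4⟩ := Nat.find_spec hex
  refine ⟨A', B', h1, h2, h3, ?_⟩
  intro A₁ B₁ h5 h6 h7
  rw [h4]
  exact Nat.find_min' hex ⟨A₁, B₁, h5, h6, h7, rfl⟩

open Classical in
/-- The neighbourhood of `Z` inside `W`. -/
noncomputable def nb (G : SimpleGraph V) (W Z : Finset V) : Finset V :=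
  W.filter (fun v => v ∉ Z ∧ ∃ z ∈ Z, G.Adj z v)

lemma mem_nb {G : SimpleGraph V} {W Z : Finset V} {v : V} :
    v ∈ nb G W Z ↔ v ∈ W ∧ v ∉ Z ∧ ∃ z ∈ Z, G.Adj z v := by
  unfold nb; simp

/-- Submodularity: cutting a set `Z` by a minimal separation does not increase its
neighbourhood. -/
lemma nb_sdiff_le {G : SimpleGraph V} {W A B P Q Z : Finset V} (h : IsSep G W A B)
    (hP : P ⊆ A) (hQ : Q ⊆ B)
    (hmin : ∀ A₁ B₁ : Finset V, IsSep G W A₁ B₁ → P ⊆ A₁ → Q ⊆ B₁ →
      (A ∩ B).card ≤ (A₁ ∩ B₁).card) (hZ : Z ⊆ W) (hZQ : Disjoint Z Q) :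
    (nb G W (Z \ B)).card ≤ (nb G W Z).card := by
  classical
  have hAW : A ⊆ W := by rw [← h.union]; exact Finset.subset_union_left
  have hBW : B ⊆ W := by rw [← h.union]; exact Finset.subset_union_right
  set A₁ := Z ∪ nb G W Z with hA₁
  set B₁ := W \ Z with hB₁
  have hnbW : nb G W Z ⊆ W := fun v hv => (mem_nb.1 hv).1
  have hA₁W : A₁ ⊆ W := Finset.union_subset hZ hnbW
  have hinter : A₁ ∩ B₁ = nb G W Z := by
    ext v
    simp only [hA₁, hB₁, Finset.mem_inter, Finset.mem_union, Finset.mem_sdiff]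
    constructor
    · rintro ⟨h1 | h1, h2⟩
      · exact absurd h1 h2.2
      · exact h1
    · intro h1
      exact ⟨Or.inr h1, hnbW h1, (mem_nb.1 h1).2.1⟩
  have hsep : IsSep G W (A ∪ A₁) (B ∩ B₁) := by
    refine ⟨?_, ?_⟩
    · apply Finset.Subset.antisymm
      · exact Finset.union_subset (Finset.union_subset hAW hA₁W)
          (Finset.inter_subset_left.trans hBW)
      · intro v hv
        by_cases h1 : v ∈ A ∪ A₁
        · exact Finset.mem_union_left _ h1
        · apply Finset.mem_union_right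
          rw [Finset.mem_union, not_or] at h1
          refine Finset.mem_inter.2 ⟨?_, ?_⟩
          · have : v ∈ A ∪ B := by rw [h.union]; exact hv
            exact (Finset.mem_union.1 this).resolve_left h1.1
          · exact Finset.mem_sdiff.2 ⟨hv, fun h2 => h1.2 (Finset.mem_union_left _ h2)⟩
    · intro a ha haB b hb hbA hab
      rw [Finset.mem_union, not_or] at hbA
      obtain ⟨hbB, hbB₁⟩ := Finset.mem_inter.1 hb
      have haW : a ∈ W := (Finset.union_subset hAW hA₁W) ha
      by_cases haB' : a ∈ B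
      · have haZ : a ∈ Z := by
          by_contra h2
          exact haB (Finset.mem_inter.2 ⟨haB', Finset.mem_sdiff.2 ⟨haW, h2⟩⟩)
        have hbZ := (Finset.mem_sdiff.1 hbB₁).2
        exact hbA.2 (Finset.mem_union_right _ (mem_nb.2 ⟨hBW hbB, hbZ, a, haZ, hab⟩))
      · have haA : a ∈ A := by
          have : a ∈ A ∪ B := by rw [h.union]; exact haW
          exact (Finset.mem_union.1 this).resolve_right haB'
        exact h.far a haA haB' b hbB hbA.1 hab
  have h1 := hmin _ _ hsep (hP.trans Finset.subset_union_left) (by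
    intro v hv
    exact Finset.mem_inter.2 ⟨hQ hv, Finset.mem_sdiff.2 ⟨hBW (hQ hv), fun h2 =>
      (Finset.disjoint_left.1 hZQ h2) hv⟩⟩)
  -- submodularity
  have h2 : ((A ∪ A₁) ∩ (B ∩ B₁)).card + ((A ∩ A₁) ∩ (B ∪ B₁)).card ≤
      (A ∩ B).card + (A₁ ∩ B₁).card := by
    rw [← Finset.card_union_add_card_inter, ← Finset.card_union_add_card_inter (A ∩ B)]
    apply Nat.add_le_add
    · apply Finset.card_le_card
      intro v hv
      simp only [Finset.mem_union, Finset.mem_inter] at hv ⊢
      tauto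
    · apply Finset.card_le_card
      intro v hv
      simp only [Finset.mem_union, Finset.mem_inter] at hv ⊢
      tauto
  have h3 : nb G W (Z \ B) ⊆ (A ∩ A₁) ∩ (B ∪ B₁) := by
    intro v hv
    obtain ⟨hvW, hvZ, z, hz, hzv⟩ := mem_nb.1 hv
    obtain ⟨hzZ, hzB⟩ := Finset.mem_sdiff.1 hz
    have hzA : z ∈ A := by
      have : z ∈ A ∪ B := by rw [h.union]; exact hZ hzZ
      exact (Finset.mem_union.1 this).resolve_right hzB
    have hvA : v ∈ A := by
      by_contra hvA
      have hvB : v ∈ B := by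
        have : v ∈ A ∪ B := by rw [h.union]; exact hvW
        exact (Finset.mem_union.1 this).resolve_left hvA
      exact h.far z hzA hzB v hvB hvA hzv
    refine Finset.mem_inter.2 ⟨Finset.mem_inter.2 ⟨hvA, ?_⟩, ?_⟩
    · by_cases hvZ' : v ∈ Z
      · exact Finset.mem_union_left _ hvZ'
      · exact Finset.mem_union_right _ (mem_nb.2 ⟨hvW, hvZ', z, hzZ, hzv⟩)
    · by_cases hvZ' : v ∈ Z
      · apply Finset.mem_union_left
        by_contra hvB
        exact hvZ (Finset.mem_sdiff.2 ⟨hvZ', hvB⟩)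
      · exact Finset.mem_union_right _ (Finset.mem_sdiff.2 ⟨hvW, hvZ'⟩)
  have h4 := Finset.card_le_card h3
  rw [hinter] at h2
  omega

end Pool.Agent.Lib.MP_b6048d_co
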