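import Mathlib
import Pool.Agent.Lib.MP_b6048d_co.Sep

set_option autoImplicit false

/-!
Rerouting a cycle through a long disjoint cycle.
-/

namespace Pool.Agent.Lib.MP_b6048d_co

open Finset Pool.Agent.Lib.MP_2ce0dd_pr

variable {V : Type*}

lemma exists_dup : ∀ l : List V, ¬ l.Nodup → ∃ a x b c, l = a ++ x :: (b ++ x :: c) := by
  intro l
  induction l with
  | nil => intro h; simp at h
  | cons y t ih =>
    intro h
    by_cases hy : y ∈ t
    · obtain ⟨b, c, hbc⟩ := List.append_of_mem hy
      exact ⟨[], y, b, c, by rw [hbc]; rfl⟩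
    · have ht : ¬ t.Nodup := fun h' => h (List.nodup_cons.2 ⟨hy, h'⟩)
      obtain ⟨a, x, b, c, habc⟩ := ih ht
      exact ⟨y :: a, x, b, c, by rw [habc]; rfl⟩

/-- A shortest path inside a path: simple, and meeting the ends only in its end vertices. -/
lemma clean_path {E : Finset (V × V)} {A B : Finset V} {p : List V} (h : IsABPath E A B p) :
    ∃ p', IsABPath E A B p' ∧ (∀ v ∈ p', v ∈ p) ∧ p'.Nodup ∧
      (∀ l c r, p' = l ++ c :: r → c ∈ A → l = []) ∧
      (∀ l c r, p' = l ++ c :: r → c ∈ B → r = []) := by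
  classical
  have hex : ∃ n, ∃ p', IsABPath E A B p' ∧ (∀ v ∈ p', v ∈ p) ∧ p'.length = n :=
    ⟨_, p, h, fun v hv => hv, rfl⟩
  obtain ⟨p', h1, h2, h3⟩ := Nat.find_spec hex
  have hmin : ∀ p'', IsABPath E A B p'' → (∀ v ∈ p'', v ∈ p') → p'.length ≤ p''.length := by
    intro p'' h4 h5
    rw [h3]
    exact Nat.find_min' hex ⟨p'', h4, fun v hv => h2 v (h5 v hv), rfl⟩
  refine ⟨p', h1, h2, ?_, ?_, ?_⟩
  · by_contra hnd
    obtain ⟨a, x, b, c, rfl⟩ := exists_dup p' hnd
    have h4 : IsABPath E A B (a ++ x :: c) := by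
      have hch := h1.chain
      refine ⟨?_, ?_, ?_⟩
      · rw [List.isChain_split] at hch ⊢
        refine ⟨hch.1, ?_⟩
        have h5 := hch.2
        have h6 : x :: (b ++ x :: c) = (x :: b) ++ x :: c := rfl
        rw [h6, List.isChain_split] at h5
        exact h5.2
      · obtain ⟨a', ha', hh⟩ := h1.head
        refine ⟨a', ha', ?_⟩
        cases a with
        | nil => simpa using hh
        | cons y a => simpa using hh
      · obtain ⟨b', hb', hh⟩ := h1.last
        refine ⟨b', hb', ?_⟩
        have h6 : a ++ x :: (b ++ x :: c) = (a ++ x :: b) ++ x :: c := by simp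
        rw [h6, List.getLast?_append] at hh
        rw [List.getLast?_append]
        cases hr : (x :: c).getLast? with
        | none => simp at hr
        | some w => rw [hr] at hh; simpa using hh
    have h5 := hmin _ h4 (by
      intro v hv
      simp only [List.mem_append, List.mem_cons] at hv ⊢
      tauto)
    simp only [List.length_append, List.length_cons] at h5
    omega
  · intro l c r hl hc
    subst hl
    by_contra hne
    have h4 := hmin _ (suffix_path h1 hc) (by
      intro v hv
      exact List.mem_append_right _ hv)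
    have h5 : 0 < l.length := List.length_pos_iff.2 hne
    simp only [List.length_append] at h4
    omega
  · intro l c r hl hc
    subst hl
    by_contra hne
    have h4 := hmin _ (prefix_path h1 hc) (by
      intro v hv
      simp only [List.mem_append, List.mem_cons, List.not_mem_nil, or_false] at hv ⊢
      tauto)
    have h5 : 0 < r.length := List.length_pos_iff.2 hne
    simp only [List.length_append, List.length_cons, List.length_nil] at h4
    omega

/-- The longer arc of a cycle between two of its vertices. -/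
lemma long_arc {G : SimpleGraph V} {C : List V} (h : IsCyc G C) {c c' : V} (hc : c ∈ C)
    (hc' : c' ∈ C) (hcc : c ≠ c') :
    ∃ s : List V, (c :: (s ++ [c'])).IsChain G.Adj ∧ (c :: (s ++ [c'])).Nodup ∧
      (∀ v ∈ s, v ∈ C) ∧ C.length ≤ 2 * s.length + 2 := by
  obtain ⟨l₁, l₂, rfl⟩ := List.append_of_mem hc
  have h1 : IsCyc G ((c :: l₂) ++ l₁) := h.rotate
  have h2 : c' ∈ l₂ ++ l₁ := by
    simp only [List.mem_append, List.mem_cons] at hc' ⊢
    rcases hc' with h3 | h3 | h3
    · exact Or.inr h3
    · exact absurd h3.symm hcc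
    · exact Or.inl h3
  obtain ⟨s₁, s₂, hs⟩ := List.append_of_mem h2
  have h3 : (c :: l₂) ++ l₁ = c :: (s₁ ++ c' :: s₂) := by
    rw [← hs]; rfl
  rw [h3] at h1
  have hmem : ∀ v, v ∈ s₁ ∨ v ∈ s₂ → v ∈ l₁ ++ c :: l₂ := by
    intro v hv
    have h4 : v ∈ l₂ ++ l₁ := by
      rw [hs]
      simp only [List.mem_append, List.mem_cons]
      tauto
    simp only [List.mem_append, List.mem_cons] at h4 ⊢
    tauto
  have hlen : (l₁ ++ c :: l₂).length = s₁.length + s₂.length + 2 := by
    have h4 := congrArg List.length hs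
    simp only [List.length_append, List.length_cons] at h4 ⊢
    omega
  have key : ∀ t₁ t₂ : List V, IsCyc G (c :: (t₁ ++ c' :: t₂)) →
      (c :: (t₁ ++ [c'])).IsChain G.Adj ∧ (c :: (t₁ ++ [c'])).Nodup := by
    intro t₁ t₂ ht
    constructor
    · have h4 : c :: (t₁ ++ c' :: t₂) = (c :: t₁) ++ c' :: t₂ := rfl
      have h5 := ht.chain
      rw [h4, List.isChain_split] at h5
      exact h5.1
    · refine ht.nodup.sublist ?_
      refine List.Sublist.cons_cons c (List.Sublist.append_left ?_ t₁)
      simp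
  rcases le_total s₂.length s₁.length with h4 | h4
  · refine ⟨s₁, (key _ _ h1).1, (key _ _ h1).2, fun v hv => hmem v (Or.inl hv), ?_⟩
    omega
  · have h5 : IsCyc G (c :: (s₂.reverse ++ c' :: s₁.reverse)) := by
      have h6 := h1.reverse
      have h7 : (c :: (s₁ ++ c' :: s₂)).reverse = (s₂.reverse ++ c' :: s₁.reverse) ++ [c] := by
        simp
      rw [h7] at h6
      exact h6.rotate
    refine ⟨s₂.reverse, (key _ _ h5).1, (key _ _ h5).2, fun v hv =>
      hmem v (Or.inr (List.mem_reverse.1 hv)), ?_⟩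
    rw [List.length_reverse]
    omega

/-- Averaging. -/
lemma avg (L : ℕ) (hL : 0 < L) (s : ℕ → ℕ) : ∃ j < L, L * s (j + 1) ≤ s L + L * s j := by
  by_contra hcon
  push Not at hcon
  have h : ∀ i ≤ L, i * (s L + 1) ≤ L * s i := by
    intro i
    induction i with
    | zero => intro _; simp
    | succ i ih =>
      intro hi
      have h1 := ih (by omega)
      have h2 := hcon i (by omega)
      rw [Nat.succ_mul]
      omega
  have h1 := h L le_rfl
  have h2 : L * (s L + 1) = L * s L + L := by ring
  omega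

/-- A cyclic list remains a cycle when an inner segment is replaced by a new path. -/
lemma IsCyc.replace {G : SimpleGraph V} {α β γ : List V} {q q' : V} {mid : List V}
    (h : IsCyc G (α ++ q :: (β ++ q' :: γ)))
    (hch : (q :: (mid ++ [q'])).IsChain G.Adj) (hnd : mid.Nodup)
    (hdisj : ∀ v ∈ mid, v ∉ α ++ q :: (β ++ q' :: γ)) (hmid : mid ≠ []) :
    IsCyc G (α ++ q :: (mid ++ q' :: γ)) := by
  have hsub : List.Sublist (α ++ q :: q' :: γ) (α ++ q :: (β ++ q' :: γ)) := by
    refine List.Sublist.append_left ?_ α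
    refine List.Sublist.cons_cons q ?_
    exact List.sublist_append_right _ _
  have hnd2 : (α ++ q :: q' :: γ).Nodup := h.nodup.sublist hsub
  have hmidpos : 0 < mid.length := List.length_pos_iff.2 hmid
  refine ⟨?_, ?_, ?_, ?_⟩
  · simp only [List.length_append, List.length_cons]
    omega
  · have hperm : List.Perm (mid ++ (α ++ q :: q' :: γ)) (α ++ q :: (mid ++ q' :: γ)) := by
      have h1 : List.Perm (α ++ q :: (mid ++ q' :: γ)) ((α ++ [q]) ++ (mid ++ q' :: γ)) := by
        simp
      have h2 : List.Perm ((α ++ [q]) ++ (mid ++ q' :: γ)) (mid ++ ((α ++ [q]) ++ q' :: γ)) := by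
        rw [← List.append_assoc, ← List.append_assoc]
        exact List.Perm.append_right _ List.perm_append_comm
      have h3 : mid ++ ((α ++ [q]) ++ q' :: γ) = mid ++ (α ++ q :: q' :: γ) := by simp
      rw [h3] at h2
      exact (h1.trans h2).symm
    rw [← hperm.nodup_iff]
    rw [List.nodup_append']
    refine ⟨hnd, hnd2, ?_⟩
    intro v hv hv'
    exact hdisj v hv (hsub.subset hv')
  · have hc := h.chain
    rw [List.isChain_split] at hc ⊢
    refine ⟨hc.1, ?_⟩
    have h1 : q :: (mid ++ q' :: γ) = (q :: mid) ++ q' :: γ := rfl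
    rw [h1, List.isChain_split]
    refine ⟨hch, ?_⟩
    have h2 : q :: (β ++ q' :: γ) = (q :: β) ++ q' :: γ := rfl
    have h3 := hc.2
    rw [h2, List.isChain_split] at h3
    exact h3.2
  · have hcl := h.closed
    intro a ha b hb
    apply hcl
    · rw [List.head?_append] at ha ⊢
      simpa using ha
    · rw [List.getLast?_append, Option.mem_def] at hb ⊢
      have h1 : (q :: (mid ++ q' :: γ)).getLast? = (q' :: γ).getLast? := by
        have : q :: (mid ++ q' :: γ) = (q :: mid) ++ q' :: γ := rfl
        rw [this, List.getLast?_append]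
        cases hr : (q' :: γ).getLast? with
        | none => simp at hr
        | some w => rfl
      have h2 : (q :: (β ++ q' :: γ)).getLast? = (q' :: γ).getLast? := by
        have : q :: (β ++ q' :: γ) = (q :: β) ++ q' :: γ := rfl
        rw [this, List.getLast?_append]
        cases hr : (q' :: γ).getLast? with
        | none => simp at hr
        | some w => rfl
      rw [h1] at hb
      rw [h2]
      exact hb

/-- From a family of disjoint `Q`-`X` paths, those meeting `C` give disjoint `C`-`X` paths. -/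
lemma linked_of_meet [DecidableEq V] {G : SimpleGraph V} {W C X : Finset V} {A : Finset V} {k : ℕ}
    {P : Fin k → List V} (hP : ∀ i, IsABPath (edg G W) A X (P i))
    (hPd : ∀ i j, i ≠ j → List.Disjoint (P i) (P j)) (I : Finset (Fin k))
    (hI : ∀ i ∈ I, ∃ v ∈ P i, v ∈ C) : Linked G W C X I.card := by
  classical
  have hex : ∀ i : Fin k, ∃ p : List V, i ∈ I → IsABPath (edg G W) C X p ∧ ∀ v ∈ p, v ∈ P i := by
    intro i
    by_cases hi : i ∈ I
    · obtain ⟨v, hv, hvC⟩ := hI i hi
      obtain ⟨l, r, hlr⟩ := List.append_of_mem hv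
      refine ⟨v :: r, fun _ => ⟨?_, ?_⟩⟩
      · have := hP i
        rw [hlr] at this
        exact suffix_path this hvC
      · intro u hu
        rw [hlr]
        exact List.mem_append_right _ hu
    · exact ⟨[], fun h => absurd h hi⟩
  choose p hp using hex
  let e := I.equivFin.symm
  refine ⟨fun j => p (e j).1, fun j => (hp _ (e j).2).1, ?_⟩
  intro i j hij v hv hv'
  have h1 : (e i).1 ≠ (e j).1 := fun h => hij (e.injective (Subtype.ext h))
  exact hPd _ _ h1 ((hp _ (e i).2).2 v hv) ((hp _ (e j).2).2 v hv')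

lemma chain_mem_W [DecidableEq V] {G : SimpleGraph V} {W : Finset V} : ∀ (l : List V) (a : V),
    (a :: l).IsChain (fun a b => (a, b) ∈ edg G W) → ∀ v ∈ l, v ∈ W := by
  intro l
  induction l with
  | nil => intro a _ v hv; simp at hv
  | cons b l ih =>
    intro a h v hv
    rw [List.isChain_cons_cons] at h
    rcases List.mem_cons.1 hv with rfl | hv
    · exact (mem_edg.1 h.1).1.2
    · exact ih b h.2 v hv

lemma chain_adj [DecidableEq V] {G : SimpleGraph V} {W : Finset V} {l : List V}
    (h : l.IsChain (fun a b => (a, b) ∈ edg G W)) : l.IsChain G.Adj :=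
  h.imp fun _ _ hab => (mem_edg.1 hab).2

/-- Data of a clean path between two disjoint sets. -/
lemma clean_data [DecidableEq V] {G : SimpleGraph V} {W A B : Finset V} {p : List V}
    (h : IsABPath (edg G W) A B p) (hAB : ∀ v ∈ A, v ∉ B) :
    ∃ (q c : V) (S : List V), q ∈ A ∧ c ∈ B ∧ (q :: (S ++ [c])).IsChain G.Adj ∧
      (q :: (S ++ [c])).Nodup ∧ (∀ v ∈ S, v ∈ W ∧ v ∉ A ∧ v ∉ B) ∧
      (∀ v ∈ q :: (S ++ [c]), v ∈ p) := by
  obtain ⟨p', h1, h2, h3, h4, h5⟩ := clean_path h
  obtain ⟨q, hq, hqh⟩ := h1.head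
  obtain ⟨c, hc, hcl⟩ := h1.last
  cases p' with
  | nil => simp at hqh
  | cons q' t =>
    have hq' : q' = q := by simpa using hqh
    subst hq'
    rcases t.eq_nil_or_concat with rfl | ⟨S, c', rfl⟩
    · exfalso
      have : q' = c := by simpa using hcl
      subst this
      exact hAB q' hq hc
    · rw [List.concat_eq_append] at *
      have hc' : c' = c := by
        have h6 : q' :: (S ++ [c']) = (q' :: S) ++ [c'] := rfl
        rw [h6, List.getLast?_append] at hcl
        simpa using hcl
      subst hc'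
      refine ⟨q', c', S, hq, hc, chain_adj h1.chain, h3, ?_, h2⟩
      intro v hv
      refine ⟨chain_mem_W _ _ h1.chain v (List.mem_append_left _ hv), ?_, ?_⟩
      · intro hvA
        obtain ⟨l, r, hlr⟩ := List.append_of_mem hv
        have h6 := h4 (q' :: l) v (r ++ [c']) (by rw [hlr]; simp) hvA
        simp at h6
      · intro hvB
        obtain ⟨l, r, hlr⟩ := List.append_of_mem hv
        have h6 := h5 (q' :: l) v (r ++ [c']) (by rw [hlr]; simp) hvB
        simp at h6

lemma split2 (Q : List V) (a a' : ℕ) (h : a < a') (h' : a' < Q.length) :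
    ∃ α β γ, Q = α ++ Q[a] :: (β ++ Q[a'] :: γ) ∧ α.length = a ∧ β.length + a + 1 = a' := by
  have h1 : Q = Q.take a' ++ Q[a'] :: Q.drop (a' + 1) := by
    rw [← List.drop_eq_getElem_cons h', List.take_append_drop]
  have hlen : (Q.take a').length = a' := by
    rw [List.length_take]; omega
  have h2 : Q.take a' = (Q.take a').take a ++ (Q.take a')[a] :: (Q.take a').drop (a + 1) := by
    rw [← List.drop_eq_getElem_cons (by omega), List.take_append_drop]
  have h3 : (Q.take a')[a] = Q[a] := by
    rw [List.getElem_take]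
  refine ⟨(Q.take a').take a, (Q.take a').drop (a + 1), Q.drop (a' + 1), ?_, ?_, ?_⟩
  · rw [h3] at h2
    calc Q = Q.take a' ++ Q[a'] :: Q.drop (a' + 1) := h1
      _ = ((Q.take a').take a ++ Q[a] :: (Q.take a').drop (a + 1)) ++
          Q[a'] :: Q.drop (a' + 1) := by rw [← h2]
      _ = _ := by simp
  · rw [List.length_take, hlen]; omega
  · rw [List.length_drop, hlen]; omega

/-- The exchange argument: a cycle disjoint from a potential-maximal cycle and longer than `n`
is not joined to it by `4 b + 1` disjoint paths. -/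
theorem exchange [DecidableEq V] {G : SimpleGraph V} {W X : Finset V} {m n b N : ℕ}
    (hb : 0 < b) (hm : 0 < m) (hN : N = n * b) {Q : List V} {k0 : ℕ} (hQ : IsCyc G Q)
    (hQW : ∀ v ∈ Q, v ∈ W) (hQN : Q.length ≤ N)
    (hlink : Linked G W Q.toFinset X k0) (hk0 : k0 ≤ m)
    (hmax : ∀ C k, IsCyc G C → (∀ v ∈ C, v ∈ W) → Linked G W C.toFinset X k → k ≤ m →
      m * C.length + N * k ≤ m * Q.length + N * k0)
    {C : List V} (hC : IsCyc G C) (hCW : ∀ v ∈ C, v ∈ W) (hdisj : ∀ v ∈ C, v ∉ Q)
    (hlen : n < C.length) : ¬ Linked G W Q.toFinset C.toFinset (4 * b + 1) := by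
  classical
  rintro ⟨R, hR1, hR2⟩
  have hclean := fun i => clean_data (hR1 i) (by
    intro v hv hv'
    exact hdisj v (List.mem_toFinset.1 hv') (List.mem_toFinset.1 hv))
  choose q c S hq hc hch hnd hS hRmem using hclean
  have hqQ : ∀ i, q i ∈ Q := fun i => List.mem_toFinset.1 (hq i)
  have hcC : ∀ i, c i ∈ C := fun i => List.mem_toFinset.1 (hc i)
  have hSQ : ∀ i, ∀ v ∈ S i, v ∉ Q := fun i v hv h => (hS i v hv).2.1 (List.mem_toFinset.2 h)
  have hSC : ∀ i, ∀ v ∈ S i, v ∉ C := fun i v hv h => (hS i v hv).2.2 (List.mem_toFinset.2 h)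
  have hqR : ∀ i, q i ∈ R i := fun i => hRmem i _ (by simp)
  have hcR : ∀ i, c i ∈ R i := fun i => hRmem i _ (by simp)
  have hSR : ∀ i, ∀ v ∈ S i, v ∈ R i := fun i v hv => hRmem i _ (by simp [hv])
  obtain ⟨P, hP1, hP2⟩ := hlink
  have hhead : ∀ i, ∃ a, a ∈ Q ∧ a ∈ P i := by
    intro i
    obtain ⟨a, ha, hah⟩ := (hP1 i).head
    exact ⟨a, List.mem_toFinset.1 ha, List.mem_of_mem_head? hah⟩
  choose hd hdQ hdP using hhead
  set pos : V → ℕ := fun v => Q.idxOf v with hpos
  have hposlt : ∀ v ∈ Q, pos v < Q.length := fun v hv => List.idxOf_lt_length_of_mem hv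
  have hposget : ∀ v (hv : v ∈ Q), Q[pos v]'(hposlt v hv) = v := fun v hv => List.getElem_idxOf _
  have hqinj : Function.Injective (fun i => pos (q i)) := by
    intro i j hij
    by_contra hne
    have h1 : q i = q j := by
      rw [← hposget _ (hqQ i), ← hposget _ (hqQ j)]
      simp only at hij
      congr 1
    exact hR2 i j hne (hqR i) (h1 ▸ hqR j)
  set I : Finset ℕ := Finset.univ.image (fun i => pos (q i)) with hI
  have hIcard : I.card = 4 * b + 1 := by
    rw [hI, Finset.card_image_of_injective _ hqinj, Finset.card_univ, Fintype.card_fin]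
  let e := I.orderEmbOfFin hIcard
  set aa : ℕ → ℕ := fun j => if h : j < 4 * b + 1 then e ⟨j, h⟩ else 0 with haa
  set cnt : ℕ → ℕ := fun x => (Finset.univ.filter (fun i => pos (hd i) < x)).card with hcnt
  have hcntle : ∀ x, cnt x ≤ k0 := by
    intro x
    refine (Finset.card_filter_le _ _).trans ?_
    rw [Finset.card_univ, Fintype.card_fin]
  obtain ⟨j, hj, havg⟩ := avg (4 * b) (by omega) (fun j => m * aa j + N * cnt (aa j))
  have hI1 : ∀ j (h : j < 4 * b + 1), aa j ∈ I := by
    intro j h
    simp only [haa, h, dif_pos]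
    exact Finset.orderEmbOfFin_mem I hIcard _
  have hI2 : ∀ x ∈ I, x < Q.length := by
    intro x hx
    obtain ⟨i, -, rfl⟩ := Finset.mem_image.1 hx
    exact hposlt _ (hqQ i)
  have haalt : aa j < aa (j + 1) := by
    simp only [haa, show j < 4 * b + 1 by omega, show j + 1 < 4 * b + 1 by omega, dif_pos]
    exact e.strictMono (by simp)
  obtain ⟨i₁, -, hi₁⟩ := Finset.mem_image.1 (hI1 j (by omega))
  obtain ⟨i₂, -, hi₂⟩ := Finset.mem_image.1 (hI1 (j + 1) (by omega))
  have hlast := hI2 _ (hI1 (4 * b) (by omega))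
  set a := aa j with ha
  set a' := aa (j + 1) with ha'
  have ha'Q : a' < Q.length := hI2 _ (hI1 (j + 1) (by omega))
  obtain ⟨α, β, γ, hQe, hαl, hβl⟩ := split2 Q a a' haalt ha'Q
  have hq₁ : Q[a] = q i₁ := by
    have h1 := hposget _ (hqQ i₁)
    rw [← h1]
    congr 1
    exact hi₁.symm
  have hq₂ : Q[a'] = q i₂ := by
    have h1 := hposget _ (hqQ i₂)
    rw [← h1]
    congr 1
    exact hi₂.symm
  rw [hq₁, hq₂] at hQe
  have hi12 : i₁ ≠ i₂ := by
    intro h
    rw [h] at hi₁
    omega
  have hc12 : c i₁ ≠ c i₂ := by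
    intro h
    exact hR2 _ _ hi12 (hcR i₁) (h ▸ hcR i₂)
  obtain ⟨s, hs1, hs2, hs3, hs4⟩ := long_arc hC (hcC i₁) (hcC i₂) hc12
  set mid : List V := S i₁ ++ c i₁ :: (s ++ c i₂ :: (S i₂).reverse) with hmid
  have hmidmem : ∀ v ∈ mid, v ∈ S i₁ ∨ v ∈ S i₂ ∨ v ∈ C := by
    intro v hv
    simp only [hmid, List.mem_append, List.mem_cons, List.mem_reverse] at hv
    rcases hv with h | h | h | h | h
    · exact Or.inl h
    · exact Or.inr (Or.inr (h ▸ hcC i₁))
    · exact Or.inr (Or.inr (hs3 v h))
    · exact Or.inr (Or.inr (h ▸ hcC i₂))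
    · exact Or.inr (Or.inl h)
  have hmidQ : ∀ v ∈ mid, v ∉ Q := by
    intro v hv
    rcases hmidmem v hv with h | h | h
    · exact hSQ _ v h
    · exact hSQ _ v h
    · exact hdisj v h
  have hmidW : ∀ v ∈ mid, v ∈ W := by
    intro v hv
    rcases hmidmem v hv with h | h | h
    · exact (hS _ v h).1
    · exact (hS _ v h).1
    · exact hCW v h
  have hmidch : (q i₁ :: (mid ++ [q i₂])).IsChain G.Adj := by
    have h1 : q i₁ :: (mid ++ [q i₂]) =
        (q i₁ :: S i₁) ++ c i₁ :: (s ++ c i₂ :: ((S i₂).reverse ++ [q i₂])) := by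
      simp [hmid]
    rw [h1, List.isChain_split]
    refine ⟨hch i₁, ?_⟩
    have h2 : c i₁ :: (s ++ c i₂ :: ((S i₂).reverse ++ [q i₂])) =
      (c i₁ :: s) ++ c i₂ :: ((S i₂).reverse ++ [q i₂]) := rfl
    rw [h2, List.isChain_split]
    refine ⟨hs1, ?_⟩
    have h3 : c i₂ :: ((S i₂).reverse ++ [q i₂]) = (q i₂ :: (S i₂ ++ [c i₂])).reverse := by
      simp
    rw [h3, List.isChain_reverse]
    exact (hch i₂).imp fun _ _ hab => hab.symm
  have hSnd : ∀ i, (S i).Nodup := by
    intro i
    refine (hnd i).sublist ?_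
    exact (List.sublist_append_left _ _).trans (List.sublist_cons_self _ _)
  have hmidnd : mid.Nodup := by
    have h1 : mid = S i₁ ++ ((c i₁ :: (s ++ [c i₂])) ++ (S i₂).reverse) := by
      simp [hmid]
    rw [h1, List.nodup_append', List.nodup_append']
    have hsC : ∀ v ∈ c i₁ :: (s ++ [c i₂]), v ∈ C := by
      intro v hv
      simp only [List.mem_cons, List.mem_append, List.not_mem_nil, or_false] at hv
      rcases hv with h | h | h
      · exact h ▸ hcC i₁
      · exact hs3 v h
      · exact h ▸ hcC i₂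
    refine ⟨hSnd i₁, ⟨hs2, List.nodup_reverse.2 (hSnd i₂), ?_⟩, ?_⟩
    · intro v hv hv'
      exact hSC _ v (List.mem_reverse.1 hv') (hsC v hv)
    · intro v hv hv'
      rcases List.mem_append.1 hv' with h | h
      · exact hSC _ v hv (hsC v h)
      · exact hR2 _ _ hi12 (hSR _ v hv) (hSR _ v (List.mem_reverse.1 h))
  have hcyc : IsCyc G (α ++ q i₁ :: (mid ++ q i₂ :: γ)) := by
    apply IsCyc.replace (β := β)
    · rw [← hQe]; exact hQ
    · exact hmidch
    · exact hmidnd
    · intro v hv
      rw [← hQe]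
      exact hmidQ v hv
    · simp [hmid]
  set D : List V := α ++ q i₁ :: (mid ++ q i₂ :: γ) with hD
  have hDW : ∀ v ∈ D, v ∈ W := by
    intro v hv
    by_cases hvm : v ∈ mid
    · exact hmidW v hvm
    · apply hQW
      rw [hQe]
      simp only [hD, List.mem_append, List.mem_cons] at hv ⊢
      tauto
  -- the surviving paths
  set Ig : Finset (Fin k0) := Finset.univ.filter (fun i => ∃ v ∈ P i, v ∈ D.toFinset) with hIg
  have hlinkD : Linked G W D.toFinset X Ig.card := linked_of_meet hP1 hP2 Ig (by
    intro i hi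
    exact (Finset.mem_filter.1 hi).2)
  have hIgle : Ig.card ≤ k0 := by
    refine (Finset.card_filter_le _ _).trans ?_
    rw [Finset.card_univ, Fintype.card_fin]
  have hpot := hmax D Ig.card hcyc hDW hlinkD (hIgle.trans hk0)
  have hcount : k0 + cnt a ≤ Ig.card + cnt a' := by
    have h1 : (Finset.univ.filter (fun i => ¬ ∃ v ∈ P i, v ∈ D.toFinset)) ∪
        (Finset.univ.filter (fun i => pos (hd i) < a)) ⊆
        Finset.univ.filter (fun i => pos (hd i) < a') := by
      intro i hi
      rcases Finset.mem_union.1 hi with h | h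
      · have h2 := (Finset.mem_filter.1 h).2
        refine Finset.mem_filter.2 ⟨Finset.mem_univ _, ?_⟩
        have h3 : hd i ∉ D := fun h3 => h2 ⟨hd i, hdP i, List.mem_toFinset.2 h3⟩
        have h4 := hdQ i
        have h5 : hd i ∉ α ∧ hd i ≠ q i₁ ∧ hd i ∉ mid ∧ hd i ≠ q i₂ ∧ hd i ∉ γ := by
          simp only [hD, List.mem_append, List.mem_cons, not_or] at h3
          tauto
        have h6 : hd i ∈ β := by
          rw [hQe] at h4
          simp only [List.mem_append, List.mem_cons] at h4
          tauto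
        simp only [hpos]
        rw [hQe, List.idxOf_append_of_notMem h5.1, List.idxOf_cons_ne _ h5.2.1.symm,
          List.idxOf_append_of_mem h6]
        have h7 := List.idxOf_lt_length_of_mem h6
        omega
      · have h2 := (Finset.mem_filter.1 h).2
        exact Finset.mem_filter.2 ⟨Finset.mem_univ _, by omega⟩
    have h2 : Disjoint (Finset.univ.filter (fun i => ¬ ∃ v ∈ P i, v ∈ D.toFinset))
        (Finset.univ.filter (fun i => pos (hd i) < a)) := by
      rw [Finset.disjoint_left]
      intro i hi hi'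
      have h2 := (Finset.mem_filter.1 hi).2
      have h8 := (Finset.mem_filter.1 hi').2
      have h3 : hd i ∉ D := fun h3 => h2 ⟨hd i, hdP i, List.mem_toFinset.2 h3⟩
      have h5 : hd i ∉ α ∧ hd i ≠ q i₁ := by
        simp only [hD, List.mem_append, List.mem_cons, not_or] at h3
        tauto
      simp only [hpos] at h8
      rw [hQe, List.idxOf_append_of_notMem h5.1] at h8
      omega
    have h3 := Finset.card_le_card h1
    rw [Finset.card_union_of_disjoint h2] at h3
    have h4 : Ig.card + (Finset.univ.filter (fun i => ¬ ∃ v ∈ P i, v ∈ D.toFinset)).card = k0 := by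
      rw [hIg, Finset.card_filter_add_card_filter_not, Finset.card_univ, Fintype.card_fin]
    simp only [hcnt]
    omega
  -- lengths
  have hDl : D.length + β.length = Q.length + mid.length := by
    rw [hQe, hD]
    simp only [List.length_append, List.length_cons]
    omega
  have hmidl : n + 3 ≤ 2 * mid.length := by
    simp only [hmid, List.length_append, List.length_cons, List.length_reverse]
    omega
  -- arithmetic
  have e1 : m * D.length + m * β.length = m * Q.length + m * mid.length := by
    rw [← mul_add, ← mul_add, hDl]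
  have e2 : N * k0 + N * cnt a ≤ N * Ig.card + N * cnt a' := by
    rw [← mul_add, ← mul_add]; exact Nat.mul_le_mul_left N hcount
  have e3 : m * β.length + m * a + m = m * a' := by
    rw [← hβl]; ring
  have e4 : m * mid.length + m + (m * a + N * cnt a) ≤ m * a' + N * cnt a' := by omega
  have e5 : m * aa (4 * b) + N * cnt (aa (4 * b)) ≤ 2 * (m * N) := by
    have h1 : m * aa (4 * b) ≤ m * N := Nat.mul_le_mul_left m (hlast.le.trans hQN)
    have h2 : N * cnt (aa (4 * b)) ≤ N * m := Nat.mul_le_mul_left N ((hcntle _).trans hk0)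
    rw [mul_comm N m] at h2
    omega
  have e6 : 2 * (m * a' + N * cnt a') ≤ m * n + 2 * (m * a + N * cnt a) := by
    have h1 : (2 * b) * (2 * (m * a' + N * cnt a')) ≤
        (2 * b) * (m * n + 2 * (m * a + N * cnt a)) := by
      calc (2 * b) * (2 * (m * a' + N * cnt a')) = 4 * b * (m * a' + N * cnt a') := by ring
        _ ≤ (m * aa (4 * b) + N * cnt (aa (4 * b))) + 4 * b * (m * a + N * cnt a) := havg
        _ ≤ 2 * (m * N) + 4 * b * (m * a + N * cnt a) := by omega
        _ = _ := by rw [hN]; ring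
    exact Nat.le_of_mul_le_mul_left h1 (by omega)
  have e7 : m * (n + 3) ≤ m * (2 * mid.length) := Nat.mul_le_mul_left m hmidl
  have e8 : m * (2 * mid.length) = 2 * (m * mid.length) := by ring
  have e9 : m * (n + 3) = m * n + 3 * m := by ring
  omega

end Pool.Agent.Lib.MP_b6048d_co
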