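import Mathlib
import Pool.Agent.Lib.MP_b6048d_co.Exch

set_option autoImplicit false

/-!
The star decomposition: a potential-maximal cycle, a set `X`, and a maximal family of pieces
with small neighbourhoods leave no long cycle.
-/

namespace Pool.Agent.Lib.MP_b6048d_co

open Finset Pool.Agent.Lib.MP_2ce0dd_pr

variable {V : Type*} [DecidableEq V]

/-- A family of pairwise non-adjacent pieces, avoiding `D`, with neighbourhoods of size
at most `m`. -/
structure IsFam (G : SimpleGraph V) (W D : Finset V) (m : ℕ) (Zs : Finset (Finset V)) : Prop where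
  sub : ∀ Z ∈ Zs, Z ⊆ W
  disj : ∀ Z ∈ Zs, Disjoint Z D
  far : ∀ Z ∈ Zs, ∀ Z' ∈ Zs, Z ≠ Z' → ∀ z ∈ Z, ∀ z' ∈ Z', z ≠ z' ∧ ¬ G.Adj z z'
  nbs : ∀ Z ∈ Zs, (nb G W Z).card ≤ m

lemma exists_max_fam (G : SimpleGraph V) (W D : Finset V) (m : ℕ) :
    ∃ Zs, IsFam G W D m Zs ∧ ∀ Zs', IsFam G W D m Zs' →
      (Zs'.biUnion id).card ≤ (Zs.biUnion id).card := by
  classical
  have hle : ∀ Zs, IsFam G W D m Zs → (Zs.biUnion id).card ≤ W.card := by
    intro Zs h
    apply Finset.card_le_card
    intro v hv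
    obtain ⟨Z, hZ, hvZ⟩ := Finset.mem_biUnion.1 hv
    exact h.sub Z hZ hvZ
  have hex : ∃ k, ∃ Zs, IsFam G W D m Zs ∧ W.card - (Zs.biUnion id).card = k :=
    ⟨_, ∅, ⟨by simp, by simp, by simp, by simp⟩, rfl⟩
  obtain ⟨Zs, h1, h2⟩ := Nat.find_spec hex
  refine ⟨Zs, h1, ?_⟩
  intro Zs' h'
  have h3 := Nat.find_min' hex ⟨Zs', h', rfl⟩
  have h4 := hle Zs h1
  have h5 := hle Zs' h'
  omega

lemma star_step {G : SimpleGraph V} {W D X P C A B : Finset V} {m : ℕ} {Zs : Finset (Finset V)}
    (hF : IsFam G W D m Zs) (hmax : ∀ Zs', IsFam G W D m Zs' →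
      (Zs'.biUnion id).card ≤ (Zs.biUnion id).card)
    (hsep : IsSep G W A B) (hPA : P ⊆ A) (hCB : C ⊆ B)
    (hmin : ∀ A₁ B₁ : Finset V, IsSep G W A₁ B₁ → P ⊆ A₁ → C ⊆ B₁ →
      (A ∩ B).card ≤ (A₁ ∩ B₁).card)
    (hDX : ∀ v ∈ D, v ∈ A ∨ v ∈ X) (hXD : X ⊆ D) (hCX : Disjoint C X)
    (hCU : ∀ Z ∈ Zs, Disjoint Z C) (hk : (X \ A).card + (A ∩ B).card ≤ m) :
    C.card ≤ 2 * (A ∩ B).card := by
  classical
  have hAW : A ⊆ W := by rw [← hsep.union]; exact Finset.subset_union_left
  have hBW : B ⊆ W := by rw [← hsep.union]; exact Finset.subset_union_right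
  set M := (B \ A) \ X with hM
  set U := Zs.biUnion id with hU
  have hMmem : ∀ v ∈ M, v ∈ B ∧ v ∉ A ∧ v ∉ X := by
    intro v hv
    simp only [hM, Finset.mem_sdiff] at hv
    tauto
  have hZmem : ∀ Z ∈ Zs, ∀ v ∈ Z \ B, v ∈ A ∧ v ∉ B := by
    intro Z hZ v hv
    obtain ⟨h1, h2⟩ := Finset.mem_sdiff.1 hv
    have h3 : v ∈ A ∪ B := by rw [hsep.union]; exact hF.sub Z hZ h1
    exact ⟨(Finset.mem_union.1 h3).resolve_right h2, h2⟩
  have hMZ : ∀ Z ∈ Zs, ∀ z ∈ M, ∀ z' ∈ Z \ B, z ≠ z' ∧ ¬ G.Adj z z' := by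
    intro Z hZ z hz z' hz'
    obtain ⟨h1, h2, -⟩ := hMmem z hz
    obtain ⟨h3, h4⟩ := hZmem Z hZ z' hz'
    refine ⟨fun h => h2 (h ▸ h3), fun h => ?_⟩
    exact hsep.far z' h3 h4 z h1 h2 h.symm
  have hfam : IsFam G W D m (insert M (Zs.image (fun Z => Z \ B))) := by
    refine ⟨?_, ?_, ?_, ?_⟩
    · intro Z hZ
      rcases Finset.mem_insert.1 hZ with rfl | hZ
      · intro v hv
        exact hBW (hMmem v hv).1
      · obtain ⟨Z', hZ', rfl⟩ := Finset.mem_image.1 hZ
        exact Finset.sdiff_subset.trans (hF.sub Z' hZ')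
    · intro Z hZ
      rcases Finset.mem_insert.1 hZ with rfl | hZ
      · rw [Finset.disjoint_left]
        intro v hv hvD
        obtain ⟨h1, h2, h3⟩ := hMmem v hv
        rcases hDX v hvD with h | h
        · exact h2 h
        · exact h3 h
      · obtain ⟨Z', hZ', rfl⟩ := Finset.mem_image.1 hZ
        exact Finset.disjoint_of_subset_left Finset.sdiff_subset (hF.disj Z' hZ')
    · intro Z hZ Z' hZ' hne z hz z' hz'
      rcases Finset.mem_insert.1 hZ with rfl | hZ
      · rcases Finset.mem_insert.1 hZ' with rfl | hZ'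
        · exact absurd rfl hne
        · obtain ⟨Z₁, hZ₁, rfl⟩ := Finset.mem_image.1 hZ'
          exact hMZ Z₁ hZ₁ z hz z' hz'
      · obtain ⟨Z₁, hZ₁, rfl⟩ := Finset.mem_image.1 hZ
        rcases Finset.mem_insert.1 hZ' with rfl | hZ'
        · obtain ⟨h1, h2⟩ := hMZ Z₁ hZ₁ z' hz' z hz
          exact ⟨h1.symm, fun h => h2 h.symm⟩
        · obtain ⟨Z₂, hZ₂, rfl⟩ := Finset.mem_image.1 hZ'
          exact hF.far Z₁ hZ₁ Z₂ hZ₂ (fun h => hne (by rw [h])) z (Finset.mem_sdiff.1 hz).1 z'
            (Finset.mem_sdiff.1 hz').1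
    · intro Z hZ
      rcases Finset.mem_insert.1 hZ with rfl | hZ
      · have h1 : nb G W M ⊆ (X \ A) ∪ (A ∩ B) := by
          intro v hv
          obtain ⟨hvW, hvM, u, hu, huv⟩ := mem_nb.1 hv
          obtain ⟨h1, h2, h3⟩ := hMmem u hu
          have hvB : v ∈ B := by
            by_contra hvB
            have h4 : v ∈ A ∪ B := by rw [hsep.union]; exact hvW
            have h5 := (Finset.mem_union.1 h4).resolve_right hvB
            exact hsep.far v h5 hvB u h1 h2 huv.symm
          by_cases hvA : v ∈ A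
          · exact Finset.mem_union_right _ (Finset.mem_inter.2 ⟨hvA, hvB⟩)
          · apply Finset.mem_union_left
            refine Finset.mem_sdiff.2 ⟨?_, hvA⟩
            by_contra hvX
            exact hvM (Finset.mem_sdiff.2 ⟨Finset.mem_sdiff.2 ⟨hvB, hvA⟩, hvX⟩)
        exact ((Finset.card_le_card h1).trans (Finset.card_union_le _ _)).trans hk
      · obtain ⟨Z', hZ', rfl⟩ := Finset.mem_image.1 hZ
        exact (nb_sdiff_le hsep hPA hCB hmin (hF.sub Z' hZ') (hCU Z' hZ')).trans (hF.nbs Z' hZ')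
  have h1 := hmax _ hfam
  have h2 : M ∪ (U \ B) ⊆ (insert M (Zs.image (fun Z => Z \ B))).biUnion id := by
    intro v hv
    rcases Finset.mem_union.1 hv with h | h
    · exact Finset.mem_biUnion.2 ⟨M, Finset.mem_insert_self _ _, h⟩
    · obtain ⟨h3, h4⟩ := Finset.mem_sdiff.1 h
      obtain ⟨Z, hZ, hvZ⟩ := Finset.mem_biUnion.1 h3
      exact Finset.mem_biUnion.2 ⟨Z \ B, Finset.mem_insert_of_mem
        (Finset.mem_image_of_mem (fun Z => Z \ B) hZ), Finset.mem_sdiff.2 ⟨hvZ, h4⟩⟩
  have h3 : Disjoint M (U \ B) := by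
    rw [Finset.disjoint_left]
    intro v hv hv'
    exact (Finset.mem_sdiff.1 hv').2 (hMmem v hv).1
  have h4 := (Finset.card_le_card h2).trans h1
  rw [Finset.card_union_of_disjoint h3] at h4
  have h5 : (U \ B).card + (U ∩ B).card = U.card := Finset.card_sdiff_add_card_inter U B
  -- lower bound for M
  have hUX : ∀ v ∈ U, v ∉ X ∧ v ∉ C := by
    intro v hv
    obtain ⟨Z, hZ, hvZ⟩ := Finset.mem_biUnion.1 hv
    exact ⟨fun h => Finset.disjoint_left.1 (hF.disj Z hZ) hvZ (hXD h),
      fun h => Finset.disjoint_left.1 (hCU Z hZ) hvZ h⟩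
  have h6 : (U ∩ (B \ A)) ∪ (C \ A) ⊆ M := by
    intro v hv
    rcases Finset.mem_union.1 hv with h | h
    · obtain ⟨h7, h8⟩ := Finset.mem_inter.1 h
      exact Finset.mem_sdiff.2 ⟨h8, (hUX v h7).1⟩
    · obtain ⟨h7, h8⟩ := Finset.mem_sdiff.1 h
      exact Finset.mem_sdiff.2 ⟨Finset.mem_sdiff.2 ⟨hCB h7, h8⟩, fun h9 =>
        Finset.disjoint_left.1 hCX h7 h9⟩
  have h7 : Disjoint (U ∩ (B \ A)) (C \ A) := by
    rw [Finset.disjoint_left]
    intro v hv hv'
    exact (hUX v (Finset.mem_inter.1 hv).1).2 (Finset.mem_sdiff.1 hv').1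
  have h8 := Finset.card_le_card h6
  rw [Finset.card_union_of_disjoint h7] at h8
  have h9 : U ∩ B ⊆ (U ∩ (B \ A)) ∪ (A ∩ B) := by
    intro v hv
    obtain ⟨h10, h11⟩ := Finset.mem_inter.1 hv
    by_cases hvA : v ∈ A
    · exact Finset.mem_union_right _ (Finset.mem_inter.2 ⟨hvA, h11⟩)
    · exact Finset.mem_union_left _ (Finset.mem_inter.2 ⟨h10, Finset.mem_sdiff.2 ⟨h11, hvA⟩⟩)
  have h10 := (Finset.card_le_card h9).trans (Finset.card_union_le _ _)
  have h11 : C ⊆ (C \ A) ∪ (A ∩ B) := by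
    intro v hv
    by_cases hvA : v ∈ A
    · exact Finset.mem_union_right _ (Finset.mem_inter.2 ⟨hvA, hCB hv⟩)
    · exact Finset.mem_union_left _ (Finset.mem_sdiff.2 ⟨hv, hvA⟩)
  have h12 := (Finset.card_le_card h11).trans (Finset.card_union_le _ _)
  omega

lemma link_le {G : SimpleGraph V} {W A B P X : Finset V} {k : ℕ} (hsep : IsSep G W A B)
    (hPA : P ⊆ A) (h : Linked G W P X k) : k ≤ (A ∩ B).card + (X \ B).card := by
  classical
  obtain ⟨R, hR1, hR2⟩ := h
  have hex : ∀ i, ∃ v, v ∈ R i ∧ v ∈ (A ∩ B) ∪ (X \ B) := by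
    intro i
    obtain ⟨b, hb, hbl⟩ := (hR1 i).last
    by_cases hbB : b ∈ B
    · obtain ⟨a, ha, hah⟩ := (hR1 i).head
      have hne : R i ≠ [] := by
        intro h0
        rw [h0] at hbl
        simp at hbl
      obtain ⟨v, hv, hvA, hvB⟩ := hsep.meet (R i) (hR1 i).chain (by
        intro x hx
        rw [hah] at hx
        have : a = x := by simpa using hx
        rw [← this]; exact hPA ha) (by
        intro x hx
        rw [hbl] at hx
        have : b = x := by simpa using hx
        rw [← this]; exact hbB) hne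
      exact ⟨v, hv, Finset.mem_union_left _ (Finset.mem_inter.2 ⟨hvA, hvB⟩)⟩
    · exact ⟨b, List.mem_of_getLast? hbl, Finset.mem_union_right _
        (Finset.mem_sdiff.2 ⟨hb, hbB⟩)⟩
  choose g hg1 hg2 using hex
  have hinj : Function.Injective g := by
    intro i j hij
    by_contra hne
    exact hR2 i j hne (hg1 i) (hij ▸ hg1 j)
  have h1 : (Finset.univ.image g).card = k := by
    rw [Finset.card_image_of_injective _ hinj, Finset.card_univ, Fintype.card_fin]
  have h2 : Finset.univ.image g ⊆ (A ∩ B) ∪ (X \ B) := by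
    intro v hv
    obtain ⟨i, -, rfl⟩ := Finset.mem_image.1 hv
    exact hg2 i
  have h3 := (Finset.card_le_card h2).trans (Finset.card_union_le _ _)
  omega

/-- The structure theorem. -/
theorem structure_thm {G : SimpleGraph V} {W X : Finset V} {m n b N : ℕ} (hb : 0 < b)
    (hm : m = 2 * (4 * b + 1) * b) (hN : N = n * b) (hn : 2 * m ≤ n) (hXW : X ⊆ W)
    (hW : NoLong G W N)
    (hsep : ∀ A B, IsSep G W A B → A ≠ W → B ≠ W →
      (X \ A).card < (A ∩ B).card ∨ (X \ B).card < (A ∩ B).card) :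
    ∃ (Q : Finset V) (Zs : Finset (Finset V)), Q ⊆ W ∧ Q.card ≤ N ∧
      IsFam G W (X ∪ Q) m Zs ∧ NoLong G (((W \ Zs.biUnion id) \ X) \ Q) n := by
  classical
  have hm0 : 2 * (4 * b + 1) ≤ m := by
    rw [hm]; exact Nat.le_mul_of_pos_right _ hb
  have hmpos : 0 < m := by omega
  by_cases hno : NoLong G W n
  · exact ⟨∅, ∅, by simp, by simp, ⟨by simp, by simp, by simp, by simp⟩,
      hno.mono (by intro v hv; simp at hv; exact hv.1) le_rfl⟩
  have hC0 : ∃ l, IsCyc G l ∧ (∀ v ∈ l, v ∈ W) ∧ n < l.length := by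
    unfold NoLong at hno
    push Not at hno
    obtain ⟨l, h1, h2, h3⟩ := hno
    exact ⟨l, h1, h2, h3⟩
  obtain ⟨C0, hC0c, hC0W, -⟩ := hC0
  -- the maximiser
  have hlin0 : ∀ A B : Finset V, Linked G W A B 0 := fun A B =>
    ⟨fun i => i.elim0, fun i => i.elim0, fun i => i.elim0⟩
  have hpotle : ∀ C k, IsCyc G C → (∀ v ∈ C, v ∈ W) → k ≤ m →
      m * C.length + N * k ≤ 2 * (m * N) := by
    intro C k h1 h2 h3
    have h4 : m * C.length ≤ m * N := Nat.mul_le_mul_left m (hW C h1 h2)
    have h5 : N * k ≤ N * m := Nat.mul_le_mul_left N h3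
    rw [mul_comm N m] at h5
    omega
  have hex : ∃ d, ∃ C k, IsCyc G C ∧ (∀ v ∈ C, v ∈ W) ∧ Linked G W C.toFinset X k ∧ k ≤ m ∧
      2 * (m * N) - (m * C.length + N * k) = d :=
    ⟨_, C0, 0, hC0c, hC0W, hlin0 _ _, Nat.zero_le _, rfl⟩
  obtain ⟨Q, k0, hQ, hQW, hlink, hk0, hd⟩ := Nat.find_spec hex
  have hmax : ∀ C k, IsCyc G C → (∀ v ∈ C, v ∈ W) → Linked G W C.toFinset X k → k ≤ m →
      m * C.length + N * k ≤ m * Q.length + N * k0 := by
    intro C k h1 h2 h3 h4
    have h5 := Nat.find_min' hex ⟨C, k, h1, h2, h3, h4, rfl⟩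
    have h6 := hpotle C k h1 h2 h4
    have h7 := hpotle Q k0 hQ hQW hk0
    omega
  have hQN : Q.length ≤ N := hW Q hQ hQW
  have hQWf : Q.toFinset ⊆ W := fun v hv => hQW v (List.mem_toFinset.1 hv)
  have hcardC : ∀ C, IsCyc G C → C.toFinset.card = C.length := fun C hC =>
    List.toFinset_card_of_nodup hC.nodup
  by_cases hcase : 2 * (4 * b + 1) ≤ k0
  · -- linked case
    obtain ⟨Zs, hF, hFmax⟩ := exists_max_fam G W (X ∪ Q.toFinset) m
    refine ⟨Q.toFinset, Zs, hQWf, by rw [hcardC Q hQ]; exact hQN, hF, ?_⟩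
    intro C hC hCmem
    by_contra hlen
    push Not at hlen
    have hCW : ∀ v ∈ C, v ∈ W := fun v hv => by
      have := hCmem v hv
      simp only [Finset.mem_sdiff] at this
      exact this.1.1.1
    have hCX : ∀ v ∈ C, v ∉ X := fun v hv => by
      have := hCmem v hv
      simp only [Finset.mem_sdiff] at this
      exact this.1.2
    have hCQ : ∀ v ∈ C, v ∉ Q := fun v hv => by
      have := hCmem v hv
      simp only [Finset.mem_sdiff, List.mem_toFinset] at this
      exact this.2
    have hCU : ∀ v ∈ C, v ∉ Zs.biUnion id := fun v hv => by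
      have := hCmem v hv
      simp only [Finset.mem_sdiff] at this
      exact this.1.1.2
    have hCWf : C.toFinset ⊆ W := fun v hv => hCW v (List.mem_toFinset.1 hv)
    have hnl := exchange hb hmpos hN hQ hQW hQN hlink hk0 hmax hC hCW hCQ hlen
    obtain ⟨A, B, hAB, hQA, hCB, hmin⟩ := exists_min_sep G hQWf hCWf
    have hklt : (A ∩ B).card < 4 * b + 1 := by
      by_contra hge
      push Not at hge
      apply hnl
      apply linked_of_sep hQWf hCWf
      intro A' B' h1 h2 h3
      exact hge.trans (hmin A' B' h1 h2 h3)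
    have hCcard := hcardC C hC
    have hAW : A ≠ W := by
      intro h
      have h1 : C.toFinset ⊆ A ∩ B := fun v hv => Finset.mem_inter.2 ⟨h ▸ hCWf hv, hCB hv⟩
      have h2 := Finset.card_le_card h1
      omega
    have hkX := link_le hAB hQA hlink
    have hBW : B ≠ W := by
      intro h
      have h1 : X \ B = ∅ := by
        rw [Finset.sdiff_eq_empty_iff_subset, h]; exact hXW
      rw [h1, Finset.card_empty] at hkX
      omega
    rcases hsep A B hAB hAW hBW with h1 | h1
    · have h2 := star_step (X := X) (P := Q.toFinset) (C := C.toFinset) hF hFmax hAB hQA hCB hmin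
        (by
          intro v hv
          rcases Finset.mem_union.1 hv with h | h
          · exact Or.inr h
          · exact Or.inl (hQA h))
        Finset.subset_union_left
        (by
          rw [Finset.disjoint_left]
          intro v hv hv'
          exact hCX v (List.mem_toFinset.1 hv) hv')
        (by
          intro Z hZ
          rw [Finset.disjoint_left]
          intro v hv hv'
          exact hCU v (List.mem_toFinset.1 hv') (Finset.mem_biUnion.2 ⟨Z, hZ, hv⟩))
        (by omega)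
      omega
    · omega
  · -- unlinked case
    push Not at hcase
    obtain ⟨Zs, hF, hFmax⟩ := exists_max_fam G W (X ∪ ∅) m
    refine ⟨∅, Zs, by simp, by simp, hF, ?_⟩
    intro C hC hCmem
    by_contra hlen
    push Not at hlen
    have hCW : ∀ v ∈ C, v ∈ W := fun v hv => by
      have := hCmem v hv
      simp only [Finset.mem_sdiff] at this
      exact this.1.1.1
    have hCX : ∀ v ∈ C, v ∉ X := fun v hv => by
      have := hCmem v hv
      simp only [Finset.mem_sdiff] at this
      exact this.1.2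
    have hCU : ∀ v ∈ C, v ∉ Zs.biUnion id := fun v hv => by
      have := hCmem v hv
      simp only [Finset.mem_sdiff] at this
      exact this.1.1.2
    have hCWf : C.toFinset ⊆ W := fun v hv => hCW v (List.mem_toFinset.1 hv)
    have hnl : ¬ Linked G W C.toFinset X m := by
      intro hl
      have h1 := hmax C m hC hCW hl le_rfl
      have h2 : m * Q.length ≤ m * N := Nat.mul_le_mul_left m hQN
      have h3 : m * (n + 1) ≤ m * C.length := Nat.mul_le_mul_left m hlen
      have h4 : N * k0 + N ≤ N * (2 * (4 * b + 1)) := by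
        have : N * k0 + N = N * (k0 + 1) := by ring
        rw [this]
        exact Nat.mul_le_mul_left N hcase
      have h5 : m * n = N * (2 * (4 * b + 1)) := by rw [hm, hN]; ring
      have h6 : m * (n + 1) = m * n + m := by ring
      have h7 : N * m = m * N := mul_comm _ _
      omega
    obtain ⟨A, B, hAB, hXA, hCB, hmin⟩ := exists_min_sep G hXW hCWf
    have hklt : (A ∩ B).card < m := by
      by_contra hge
      push Not at hge
      apply hnl
      apply linked_of_sep hCWf hXW
      intro A' B' h1 h2 h3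
      rw [Finset.inter_comm]
      exact hge.trans (hmin B' A' h1.symm h3 h2)
    have hCcard := hcardC C hC
    have h2 := star_step (X := X) (P := X) (C := C.toFinset) hF hFmax hAB hXA hCB hmin
        (by
          intro v hv
          rcases Finset.mem_union.1 hv with h | h
          · exact Or.inr h
          · simp at h)
        Finset.subset_union_left
        (by
          rw [Finset.disjoint_left]
          intro v hv hv'
          exact hCX v (List.mem_toFinset.1 hv) hv')
        (by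
          intro Z hZ
          rw [Finset.disjoint_left]
          intro v hv hv'
          exact hCU v (List.mem_toFinset.1 hv') (Finset.mem_biUnion.2 ⟨Z, hZ, hv⟩))
        (by
          have h1 : X \ A = ∅ := by
            rw [Finset.sdiff_eq_empty_iff_subset]; exact hXA
          rw [h1, Finset.card_empty]
          omega)
    omega

end Pool.Agent.Lib.MP_b6048d_co
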