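import Mathlib
import Pool.Agent.Lib.MP_b6048d_co.Star

set_option autoImplicit false

/-!
Extending good colourings, and the recursion on the circumference.
-/

namespace Pool.Agent.Lib.MP_b6048d_co

open Finset

variable {V : Type*} [DecidableEq V]

/-- The extension theorem. -/
theorem extend {G : SimpleGraph V} {ρ c w m n b N k₁ k₂ : ℕ} (hloc : Loc G ρ c) (hc : 0 < c)
    (hb : 0 < b) (hm : m = 2 * (4 * b + 1) * b) (hN : N = n * b) (hn : 2 * m ≤ n)
    (hw : w = m + 1) (hρ : w * (2 * (2 * w) + 1) ≤ ρ) (hk₁ : 0 < k₁)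
    (H1 : ∀ Y : Finset V, NoLong G Y n → ColOn G Y k₁)
    (H2 : ∀ Y : Finset V, Y.card ≤ N → ColOn G Y k₂) :
    ∀ (μ : ℕ) (W X : Finset V) (col : V → (Bool × Fin c) ⊕ (Fin k₁ ⊕ Fin k₂)), X ⊆ W →
      W.card + (W \ X).card ≤ μ → X.card ≤ w → NoLong G W N → Good G w c X col →
      ∃ col' : V → (Bool × Fin c) ⊕ (Fin k₁ ⊕ Fin k₂), (∀ x ∈ X, col' x = col x) ∧
        PropOn G W col' := by
  classical
  have hm2 : 2 ≤ m := by
    rw [hm]
    have : 2 * 1 ≤ 2 * (4 * b + 1) * b := Nat.mul_le_mul (by omega) hb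
    omega
  have hnN : n ≤ N := by rw [hN]; exact Nat.le_mul_of_pos_right _ hb
  intro μ
  induction μ with
  | zero =>
    intro W X col hXW hμ _ _ _
    have hW : W = ∅ := by
      rw [← Finset.card_eq_zero]; omega
    subst hW
    exact ⟨col, fun _ _ => rfl, by intro x hx; simp at hx⟩
  | succ μ ih =>
    intro W X col hXW hμ hXw hNL hgood
    by_cases hWX : W = X
    · subst hWX
      exact ⟨col, fun _ _ => rfl, fun x hx y hy hxy => hgood.proper hx hy hxy⟩
    obtain ⟨v₀, hv₀W, hv₀X⟩ : ∃ v ∈ W, v ∉ X := by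
      by_contra hcon
      push Not at hcon
      exact hWX (Finset.Subset.antisymm hcon hXW)
    obtain ⟨Φ, hΦ⟩ := loc_nbhd (j := 2 * w) hloc hc X hXw hρ
    by_cases hXlt : X.card < w
    · -- add a vertex
      obtain ⟨col₁, h1, h2⟩ := painter (T := insert v₀ X) hgood
        (fun _ => (Sum.inl ⟨0, hk₁⟩ : Fin k₁ ⊕ Fin k₂)) (by
          intro u hu huX v hv hvX huv
          exfalso
          have h3 : u = v₀ := (Finset.mem_insert.1 hu).resolve_right huX
          have h4 : v = v₀ := (Finset.mem_insert.1 hv).resolve_right hvX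
          rw [h3, h4] at huv
          exact G.irrefl huv) Φ hΦ
      have hcard : (insert v₀ X).card ≤ w := (Finset.card_insert_le _ _).trans hXlt
      obtain ⟨col', h3, h4⟩ := ih W (insert v₀ X) col₁
        (Finset.insert_subset hv₀W hXW) (by
          have h5 : W \ insert v₀ X ⊂ W \ X := by
            refine ⟨Finset.sdiff_subset_sdiff subset_rfl (Finset.subset_insert _ _), ?_⟩
            intro h6
            exact (Finset.mem_sdiff.1 (h6 (Finset.mem_sdiff.2 ⟨hv₀W, hv₀X⟩))).2
              (Finset.mem_insert_self _ _)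
          have := Finset.card_lt_card h5
          omega) hcard hNL (h2 _ subset_rfl hcard)
      exact ⟨col', fun x hx => (h3 x (Finset.mem_insert_of_mem hx)).trans (h1 x hx), h4⟩
    have hXw' : X.card = w := by omega
    by_cases hsep : ∀ A B, IsSep G W A B → A ≠ W → B ≠ W →
      (X \ A).card < (A ∩ B).card ∨ (X \ B).card < (A ∩ B).card
    swap
    · -- a balanced separation
      push Not at hsep
      obtain ⟨A, B, hAB, hAW, hBW, hA, hB⟩ := hsep
      have hAW' : A ⊆ W := by rw [← hAB.union]; exact Finset.subset_union_left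
      have hBW' : B ⊆ W := by rw [← hAB.union]; exact Finset.subset_union_right
      obtain ⟨θ₂, hθ₂⟩ := H2 (A ∩ B) (by
        have h1 : (X \ A).card ≤ X.card := Finset.card_le_card Finset.sdiff_subset
        omega)
      obtain ⟨col₁, h1, h2⟩ := painter (T := X ∪ (A ∩ B)) hgood
        (fun v => (Sum.inr (θ₂ v) : Fin k₁ ⊕ Fin k₂)) (by
          intro u hu huX v hv hvX huv h
          exact hθ₂ u ((Finset.mem_union.1 hu).resolve_left huX) v
            ((Finset.mem_union.1 hv).resolve_left hvX) huv (Sum.inr.inj h)) Φ hΦ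
      have side : ∀ A B : Finset V, IsSep G W A B → A ≠ W → (A ∩ B).card ≤ (X \ A).card →
          col₁ = col₁ → (∀ S ⊆ X ∪ (A ∩ B), S.card ≤ w → Good G w c S col₁) →
          ∃ col' : V → (Bool × Fin c) ⊕ (Fin k₁ ⊕ Fin k₂),
            (∀ x ∈ (X ∩ A) ∪ (A ∩ B), col' x = col₁ x) ∧ PropOn G A col' := by
        intro A B hAB hAW hA _ h2
        have hAW' : A ⊆ W := by rw [← hAB.union]; exact Finset.subset_union_left
        have hcard : ((X ∩ A) ∪ (A ∩ B)).card ≤ w := by
          have h3 := Finset.card_union_le (X ∩ A) (A ∩ B)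
          have h4 : (X \ A).card + (X ∩ A).card = X.card := Finset.card_sdiff_add_card_inter X A
          omega
        apply ih A ((X ∩ A) ∪ (A ∩ B)) col₁
        · exact Finset.union_subset Finset.inter_subset_right Finset.inter_subset_left
        · have h3 : A.card < W.card := Finset.card_lt_card ⟨hAW', fun h =>
            hAW (Finset.Subset.antisymm hAW' h)⟩
          have h4 : A \ ((X ∩ A) ∪ (A ∩ B)) ⊆ W \ X := by
            intro v hv
            simp only [Finset.mem_sdiff, Finset.mem_union, Finset.mem_inter, not_or,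
              not_and] at hv ⊢
            exact ⟨hAW' hv.1, fun hvX => hv.2.1 hvX hv.1⟩
          have h5 := Finset.card_le_card h4
          omega
        · exact hcard
        · exact hNL.mono hAW' le_rfl
        · exact h2 _ (Finset.union_subset_union_left Finset.inter_subset_left) hcard
      obtain ⟨colA, hA1, hA2⟩ := side A B hAB hAW hA rfl h2
      obtain ⟨colB, hB1, hB2⟩ := side B A hAB.symm hBW (by rw [Finset.inter_comm]; exact hB) rfl
        (by rw [Finset.inter_comm]; exact h2)
      have hmem : ∀ v ∈ W, v ∉ A → v ∈ B := by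
        intro v hv hvA
        have h3 : v ∈ A ∪ B := by rw [hAB.union]; exact hv
        exact (Finset.mem_union.1 h3).resolve_left hvA
      refine ⟨fun v => if v ∈ A then colA v else colB v, ?_, ?_⟩
      · intro x hx
        by_cases hxA : x ∈ A
        · simp only [hxA, if_true]
          rw [hA1 x (Finset.mem_union_left _ (Finset.mem_inter.2 ⟨hx, hxA⟩)), h1 x hx]
        · simp only [hxA, if_false]
          rw [hB1 x (Finset.mem_union_left _ (Finset.mem_inter.2 ⟨hx, hmem x (hXW hx) hxA⟩)),
            h1 x hx]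
      · have hagree : ∀ v, v ∈ A → v ∈ B → colA v = colB v := by
          intro v hvA hvB
          rw [hA1 v (Finset.mem_union_right _ (Finset.mem_inter.2 ⟨hvA, hvB⟩)),
            hB1 v (Finset.mem_union_right _ (Finset.mem_inter.2 ⟨hvB, hvA⟩))]
        intro x hx y hy hxy
        by_cases hxA : x ∈ A
        · by_cases hyA : y ∈ A
          · simp only [hxA, hyA, if_true]
            exact hA2 x hxA y hyA hxy
          · simp only [hxA, hyA, if_true, if_false]
            have hyB := hmem y hy hyA
            by_cases hxB : x ∈ B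
            · rw [hagree x hxA hxB]
              exact hB2 x hxB y hyB hxy
            · exact absurd hxy (hAB.far x hxA hxB y hyB hyA)
        · have hxB := hmem x hx hxA
          by_cases hyA : y ∈ A
          · simp only [hxA, hyA, if_true, if_false]
            by_cases hyB : y ∈ B
            · rw [hagree y hyA hyB]
              exact hB2 x hxB y hyB hxy
            · exact absurd hxy.symm (hAB.far y hyA hyB x hxB hxA)
          · simp only [hxA, hyA, if_false]
            exact hB2 x hxB y (hmem y hy hyA) hxy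
    · -- the star decomposition
      obtain ⟨Q, Zs, hQW, hQN, hF, hrest⟩ := structure_thm hb hm hN hn hXW hNL hsep
      set U := Zs.biUnion id with hU
      obtain ⟨θ₁, hθ₁⟩ := H1 _ hrest
      obtain ⟨θ₂, hθ₂⟩ := H2 Q hQN
      have hXU : ∀ x ∈ X, x ∉ U := by
        intro x hx hxU
        obtain ⟨Z, hZ, hxZ⟩ := Finset.mem_biUnion.1 hxU
        exact Finset.disjoint_left.1 (hF.disj Z hZ) hxZ (Finset.mem_union_left _ hx)
      obtain ⟨col₁, h1, h2⟩ := painter (T := W \ U) hgood
        (fun v => if v ∈ Q then (Sum.inr (θ₂ v) : Fin k₁ ⊕ Fin k₂) else Sum.inl (θ₁ v)) (by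
          intro u hu huX v hv hvX huv
          by_cases huQ : u ∈ Q <;> by_cases hvQ : v ∈ Q
          · simp only [huQ, hvQ, if_true]
            intro h
            exact hθ₂ u huQ v hvQ huv (Sum.inr.inj h)
          · simp [huQ, hvQ]
          · simp [huQ, hvQ]
          · simp only [huQ, hvQ, if_false]
            intro h
            exact hθ₁ u (Finset.mem_sdiff.2 ⟨Finset.mem_sdiff.2 ⟨hu, huX⟩, huQ⟩) v
              (Finset.mem_sdiff.2 ⟨Finset.mem_sdiff.2 ⟨hv, hvX⟩, hvQ⟩) huv (Sum.inl.inj h)) Φ hΦ
      have hT : PropOn G (W \ U) col₁ := by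
        intro x hx y hy hxy
        have h3 : ({x, y} : Finset V) ⊆ W \ U := by
          intro v hv
          rcases Finset.mem_insert.1 hv with rfl | hv
          · exact hx
          · rw [Finset.mem_singleton.1 hv]; exact hy
        have h4 : ({x, y} : Finset V).card ≤ w := (Finset.card_le_two).trans (by omega)
        exact (h2 _ h3 h4).proper (by simp) (by simp) hxy
      have hnbT : ∀ Z ∈ Zs, nb G W Z ⊆ W \ U := by
        intro Z hZ v hv
        obtain ⟨hvW, hvZ, z, hz, hzv⟩ := mem_nb.1 hv
        refine Finset.mem_sdiff.2 ⟨hvW, ?_⟩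
        intro hvU
        obtain ⟨Z', hZ', hvZ'⟩ := Finset.mem_biUnion.1 hvU
        have hne : Z ≠ Z' := fun h => hvZ (h ▸ hvZ')
        exact (hF.far Z hZ Z' hZ' hne z hz v hvZ').2 hzv
      have hpiece : ∀ Z : Finset V, ∃ colZ : V → (Bool × Fin c) ⊕ (Fin k₁ ⊕ Fin k₂), Z ∈ Zs →
          (∀ x ∈ nb G W Z, colZ x = col₁ x) ∧ PropOn G (Z ∪ nb G W Z) colZ := by
        intro Z
        by_cases hZ : Z ∈ Zs
        swap
        · exact ⟨col₁, fun h => absurd h hZ⟩
        have hnbc := hF.nbs Z hZ
        have hZW := hF.sub Z hZ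
        have hZX : Disjoint Z X :=
          Finset.disjoint_of_subset_right Finset.subset_union_left (hF.disj Z hZ)
        have hnbW : nb G W Z ⊆ W := (hnbT Z hZ).trans Finset.sdiff_subset
        obtain ⟨colZ, h3, h4⟩ := ih (Z ∪ nb G W Z) (nb G W Z) col₁ Finset.subset_union_right
          (by
            have h5 := Finset.card_union_le Z (nb G W Z)
            have h6 : ((Z ∪ nb G W Z) \ nb G W Z).card ≤ Z.card := by
              apply Finset.card_le_card
              intro v hv
              simp only [Finset.mem_sdiff, Finset.mem_union] at hv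
              tauto
            have h7 : Z.card + X.card ≤ W.card := by
              rw [← Finset.card_union_of_disjoint hZX]
              exact Finset.card_le_card (Finset.union_subset hZW hXW)
            have h8 : Z.card ≤ (W \ X).card := by
              apply Finset.card_le_card
              intro v hv
              exact Finset.mem_sdiff.2 ⟨hZW hv, Finset.disjoint_left.1 hZX hv⟩
            omega) (by omega) (hNL.mono (Finset.union_subset hZW hnbW) le_rfl)
          (h2 _ (hnbT Z hZ) (by omega))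
        exact ⟨colZ, fun _ => ⟨h3, h4⟩⟩
      choose colZ hcolZ using hpiece
      have hpick : ∀ v : V, ∃ Z : Finset V, v ∈ U → Z ∈ Zs ∧ v ∈ Z := by
        intro v
        by_cases hv : v ∈ U
        · obtain ⟨Z, hZ, hvZ⟩ := Finset.mem_biUnion.1 hv
          exact ⟨Z, fun _ => ⟨hZ, hvZ⟩⟩
        · exact ⟨∅, fun h => absurd h hv⟩
      choose pk hpk using hpick
      have key : ∀ x ∈ U, ∀ y ∈ W, G.Adj x y → (fun v => if v ∈ U then colZ (pk v) v else col₁ v) x
          ≠ (fun v => if v ∈ U then colZ (pk v) v else col₁ v) y := by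
        intro x hx y hy hxy
        obtain ⟨hZ, hxZ⟩ := hpk x hx
        obtain ⟨h3, h4⟩ := hcolZ (pk x) hZ
        by_cases hyU : y ∈ U
        · simp only [hx, hyU, if_true]
          obtain ⟨hZ', hyZ⟩ := hpk y hyU
          have hsame : pk x = pk y := by
            by_contra hne
            exact (hF.far _ hZ _ hZ' hne x hxZ y hyZ).2 hxy
          rw [← hsame] at hyZ ⊢
          exact h4 x (Finset.mem_union_left _ hxZ) y (Finset.mem_union_left _ hyZ) hxy
        · simp only [hx, hyU, if_true, if_false]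
          have hynb : y ∈ nb G W (pk x) := by
            refine mem_nb.2 ⟨hy, ?_, x, hxZ, hxy⟩
            intro hyZ
            exact hyU (Finset.mem_biUnion.2 ⟨pk x, hZ, hyZ⟩)
          rw [← h3 y hynb]
          exact h4 x (Finset.mem_union_left _ hxZ) y (Finset.mem_union_right _ hynb) hxy
      refine ⟨fun v => if v ∈ U then colZ (pk v) v else col₁ v, ?_, ?_⟩
      · intro x hx
        simp only [hXU x hx, if_false]
        exact h1 x hx
      · intro x hx y hy hxy
        by_cases hxU : x ∈ U
        · exact key x hxU y hy hxy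
        · by_cases hyU : y ∈ U
          · exact (key y hyU x hx hxy.symm).symm
          · simp only [hxU, hyU, if_false]
            exact hT x (Finset.mem_sdiff.2 ⟨hx, hxU⟩) y (Finset.mem_sdiff.2 ⟨hy, hyU⟩) hxy

/-- One level of the recursion. -/
lemma level {G : SimpleGraph V} {ρ c m n b k₁ k₂ : ℕ} (hloc : Loc G ρ c) (hc : 0 < c)
    (hb : 0 < b) (hm : m = 2 * (4 * b + 1) * b) (hn : 2 * m ≤ n)
    (hρ : (m + 1) * (4 * (m + 1) + 1) ≤ ρ) (hk₁ : 0 < k₁)
    (H1 : ∀ Y : Finset V, NoLong G Y n → ColOn G Y k₁)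
    (H2 : ∀ Y : Finset V, Y.card ≤ n * b → ColOn G Y k₂) (Y : Finset V)
    (hY : NoLong G Y (n * b)) : ColOn G Y (2 * c + (k₁ + k₂)) := by
  obtain ⟨col', -, h2⟩ := extend hloc hc hb hm rfl hn rfl
    (by
      have : 2 * (2 * (m + 1)) + 1 = 4 * (m + 1) + 1 := by ring
      rw [this]; exact hρ) hk₁ H1 H2 _ Y ∅
    (fun _ => Sum.inr (Sum.inl ⟨0, hk₁⟩)) (by simp) le_rfl (by simp) hY (good_empty _ hc)
  have h3 := ColOn.of_fintype h2
  have h4 : Fintype.card ((Bool × Fin c) ⊕ (Fin k₁ ⊕ Fin k₂)) = 2 * c + (k₁ + k₂) := by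
    simp
  rw [h4] at h3
  exact h3

/-- The recursion over all levels. -/
lemma levels {G : SimpleGraph V} {ρ c m b k₂ J : ℕ} (hloc : Loc G ρ c) (hc : 0 < c)
    (hb : 0 < b) (hm : m = 2 * (4 * b + 1) * b)
    (hρ : (m + 1) * (4 * (m + 1) + 1) ≤ ρ)
    (H2 : ∀ Y : Finset V, Y.card ≤ 2 * m * b ^ J → ColOn G Y k₂) :
    ∀ j ≤ J, ∀ Y : Finset V, NoLong G Y (2 * m * b ^ j) →
      ColOn G Y (2 * c + j * (2 * c + k₂)) := by
  have hm2 : 2 ≤ m := by
    rw [hm]
    have : 2 * 1 ≤ 2 * (4 * b + 1) * b := Nat.mul_le_mul (by omega) hb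
    omega
  intro j
  induction j with
  | zero =>
    intro _ Y hY
    have h1 : 2 * m ≤ ρ := by
      refine le_trans ?_ hρ
      have : 2 * m ≤ (m + 1) * 2 := by omega
      exact this.trans (Nat.mul_le_mul_left _ (by omega))
    have h2 := colOn_of_noLong hloc h1 (by omega) hc (by simpa using hY)
    simpa using h2
  | succ j ih =>
    intro hj Y hY
    have h1 := ih (by omega)
    have h2 : 2 * m ≤ 2 * m * b ^ j := Nat.le_mul_of_pos_right _ (by positivity)
    have h3 := level hloc hc hb hm h2 hρ (k₁ := 2 * c + j * (2 * c + k₂)) (k₂ := k₂) (by omega) h1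
      (by
        intro Y' hY'
        apply H2
        refine hY'.trans ?_
        have h4 : 2 * m * b ^ j * b = 2 * m * b ^ (j + 1) := by ring
        rw [h4]
        exact Nat.mul_le_mul_left _ (Nat.pow_le_pow_right hb hj)) Y
      (by
        have h4 : 2 * m * b ^ j * b = 2 * m * b ^ (j + 1) := by ring
        rw [h4]; exact hY)
    exact h3.mono subset_rfl (by ring_nf; rfl)

end Pool.Agent.Lib.MP_b6048d_co
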