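import Mathlib
import Pool.Agent.Lib.MP_b6048d_co.Induct

set_option autoImplicit false

/-!
Choice of parameters, and the circumference theorem.
-/

namespace Pool.Agent.Lib.MP_b6048d_co

open Finset

variable {V : Type*}

/-- The circumference theorem for finite sets of vertices. -/
theorem circ_finset [DecidableEq V] {G : SimpleGraph V} {ρ c M : ℕ}
    (hρ : 1000 * (16000 + (5 * M + 3)) ^ 4 ≤ ρ) (hc : 0 < c) (hloc : Loc G ρ c) (Y : Finset V)
    (hY : NoLong G Y (ρ ^ M)) : ColOn G Y ((25 * M ^ 2 + 30 * M + 2) * c) := by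
  -- choice of b
  set P : ℕ → Prop := fun b => 1000 * b ^ 4 ≤ ρ with hP
  have hex : ∃ b, ρ < 1000 * (b + 1) ^ 4 := by
    refine ⟨ρ, ?_⟩
    calc ρ < ρ + 1 := Nat.lt_succ_self _
      _ = (ρ + 1) ^ 1 := (pow_one _).symm
      _ ≤ (ρ + 1) ^ 4 := Nat.pow_le_pow_right (by omega) (by omega)
      _ ≤ 1000 * (ρ + 1) ^ 4 := Nat.le_mul_of_pos_left _ (by omega)
  set b := Nat.find hex with hbdef
  have hb1 : ρ < 1000 * (b + 1) ^ 4 := Nat.find_spec hex
  have hB : 16000 + (5 * M + 3) ≤ b := by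
    by_contra hlt
    push Not at hlt
    have h1 : 1000 * (b + 1) ^ 4 ≤ 1000 * (16000 + (5 * M + 3)) ^ 4 :=
      Nat.mul_le_mul_left _ (Nat.pow_le_pow_left (by omega) 4)
    omega
  have hb2 : 1000 * b ^ 4 ≤ ρ := by
    by_contra hlt
    push Not at hlt
    have h1 : b - 1 < b := by omega
    apply Nat.find_min hex h1
    have h2 : b - 1 + 1 = b := by omega
    rw [h2]; exact hlt
  have hbpos : 0 < b := by omega
  set m := 2 * (4 * b + 1) * b with hm
  have hb2' : b ≤ b ^ 2 := by nlinarith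
  have hb1' : 1 ≤ b ^ 2 := Nat.one_le_pow _ _ hbpos
  have hm1 : m ≤ 10 * b ^ 2 := by
    have : m = 8 * b ^ 2 + 2 * b := by rw [hm]; ring
    omega
  have hmρ : (m + 1) * (4 * (m + 1) + 1) ≤ ρ := by
    have h1 : m + 1 ≤ 11 * b ^ 2 := by omega
    have h2 : 4 * (m + 1) + 1 ≤ 45 * b ^ 2 := by omega
    calc (m + 1) * (4 * (m + 1) + 1) ≤ (11 * b ^ 2) * (45 * b ^ 2) := Nat.mul_le_mul h1 h2
      _ = 495 * b ^ 4 := by ring
      _ ≤ 1000 * b ^ 4 := Nat.mul_le_mul_right _ (by omega)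
      _ ≤ ρ := hb2
  have hsize : 2 * m * b ^ (5 * M) < b ^ (5 * M + 3) := by
    have h1 : 2 * m < b ^ 3 := by
      have h3 : 20 * b ^ 2 < b * b ^ 2 := Nat.mul_lt_mul_of_pos_right (by omega) (by omega)
      have h4 : b ^ 3 = b * b ^ 2 := by ring
      omega
    calc 2 * m * b ^ (5 * M) < b ^ 3 * b ^ (5 * M) :=
          Nat.mul_lt_mul_of_pos_right h1 (by positivity)
      _ = b ^ (5 * M + 3) := by ring
  have hsize2 : b ^ (5 * M + 3) < 2 ^ (b * (5 * M + 3)) := by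
    rw [pow_mul]
    exact Nat.pow_lt_pow_left (Nat.lt_two_pow_self) (by omega)
  have hqs : b * (b * (5 * M + 3)) ≤ ρ := by
    refine le_trans ?_ hb2
    have h1 : 5 * M + 3 ≤ b ^ 2 := by omega
    calc b * (b * (5 * M + 3)) = b ^ 2 * (5 * M + 3) := by ring
      _ ≤ b ^ 2 * b ^ 2 := Nat.mul_le_mul_left _ h1
      _ = b ^ 4 := by ring
      _ ≤ 1000 * b ^ 4 := Nat.le_mul_of_pos_left _ (by omega)
  have H2 : ∀ Y : Finset V, Y.card ≤ 2 * m * b ^ (5 * M) → ColOn G Y ((5 * M + 3 + 1) * c) := by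
    intro Y hY
    exact kst hloc hc hqs hbpos (5 * M + 3) Y (by omega) (by omega)
  have hlev := levels hloc hc hbpos hm hmρ H2 (5 * M) le_rfl Y (by
    apply hY.mono subset_rfl
    have h1 : ρ ≤ b ^ 5 := by
      have h2 : b + 1 ≤ 2 * b := by omega
      calc ρ ≤ 1000 * (b + 1) ^ 4 := hb1.le
        _ ≤ 1000 * (2 * b) ^ 4 := Nat.mul_le_mul_left _ (Nat.pow_le_pow_left h2 4)
        _ = 16000 * b ^ 4 := by ring
        _ ≤ b * b ^ 4 := Nat.mul_le_mul_right _ (by omega)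
        _ = b ^ 5 := by ring
    calc ρ ^ M ≤ (b ^ 5) ^ M := Nat.pow_le_pow_left h1 M
      _ = b ^ (5 * M) := by rw [← pow_mul]
      _ ≤ 2 * m * b ^ (5 * M) := Nat.le_mul_of_pos_left _ (by
          have : 0 < m := by rw [hm]; positivity
          omega))
  exact hlev.mono subset_rfl (by ring_nf; rfl)

/-- The circumference theorem. -/
theorem circ_thm {G : SimpleGraph V} {ρ c M : ℕ}
    (hρ : 1000 * (16000 + (5 * M + 3)) ^ 4 ≤ ρ) (hc : 0 < c) (hloc : Loc G ρ c)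
    (hG : ∀ l, IsCyc G l → l.length ≤ ρ ^ M) : G.Colorable ((25 * M ^ 2 + 30 * M + 2) * c) := by
  classical
  have h : ∀ G' : G.Subgraph, G'.verts.Finite →
      Nonempty (G'.coe →g (⊤ : SimpleGraph (Fin ((25 * M ^ 2 + 30 * M + 2) * c)))) := by
    intro G' hG'
    obtain ⟨θ, hθ⟩ := circ_finset hρ hc hloc hG'.toFinset (fun l hl _ => hG l hl)
    refine ⟨⟨fun v => θ v.1, ?_⟩⟩
    intro u v huv
    rw [SimpleGraph.top_adj]
    exact hθ u.1 (by simp) v.1 (by simp) (G'.adj_sub huv)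
  obtain ⟨f⟩ := SimpleGraph.nonempty_hom_of_forall_finite_subgraph_hom
    (fun G' hG' => (h G' hG').some)
  exact ⟨f⟩

end Pool.Agent.Lib.MP_b6048d_co
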