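import Mathlib

set_option autoImplicit false

/-!
Paths of all lengths between the two classes of a partition of a cycle with a chord
(a lemma of Bondy, Simonovits and Verstraete).
-/

namespace Pool.Agent.Lib.MP_b6048d_co

variable {V : Type*}

/-- The list `v (a + ε k)`, `k = 0, …, i`. -/
def run (v : ℤ → V) (a ε : ℤ) (i : ℕ) : List V := (List.range (i + 1)).map (fun k : ℕ => v (a + ε * (k : ℤ)))

lemma run_length (v : ℤ → V) (a ε : ℤ) (i : ℕ) : (run v a ε i).length = i + 1 := by
  simp [run]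

lemma run_head (v : ℤ → V) (a ε : ℤ) (i : ℕ) : (run v a ε i).head? = some (v a) := by
  simp [run, List.head?_range]

lemma run_last (v : ℤ → V) (a ε : ℤ) (i : ℕ) : (run v a ε i).getLast? = some (v (a + ε * i)) := by
  simp [run, List.getLast?_range]

lemma run_mem {v : ℤ → V} {a ε : ℤ} {i : ℕ} {x : V} (h : x ∈ run v a ε i) :
    ∃ k : ℕ, k ≤ i ∧ x = v (a + ε * k) := by
  simp only [run, List.mem_map, List.mem_range] at h
  obtain ⟨k, hk, rfl⟩ := h
  exact ⟨k, by omega, rfl⟩

lemma run_chain {G : SimpleGraph V} {v : ℤ → V} (hadj : ∀ i, G.Adj (v i) (v (i + 1)))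
    (a ε : ℤ) (hε : ε = 1 ∨ ε = -1) (i : ℕ) : (run v a ε i).IsChain G.Adj := by
  unfold run
  rw [List.isChain_map]
  apply List.IsChain.imp _ (List.isChain_range (r := fun a b => b = a + 1) (i + 1) |>.2 (by
    intro m hm; rfl))
  intro k l hkl
  subst hkl
  rcases hε with rfl | rfl
  · have h1 : a + 1 * ((k + 1 : ℕ) : ℤ) = (a + 1 * (k : ℤ)) + 1 := by push_cast; ring
    rw [h1]; exact hadj _
  · have h1 : a + -1 * (k : ℤ) = (a + -1 * ((k + 1 : ℕ) : ℤ)) + 1 := by push_cast; ring
    rw [h1]; exact (hadj _).symm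

lemma run_nodup {n : ℕ} {v : ℤ → V} (hinj : ∀ i j, v i = v j → (n : ℤ) ∣ i - j)
    (a ε : ℤ) (hε : ε = 1 ∨ ε = -1) (i : ℕ) (hi : i < n) : (run v a ε i).Nodup := by
  unfold run
  refine (List.nodup_range).map_on ?_
  intro x hx y hy hxy
  rw [List.mem_range] at hx hy
  have h1 := hinj _ _ hxy
  have h2 : (n : ℤ) ∣ (x : ℤ) - y := by
    rcases hε with rfl | rfl
    · have : a + 1 * (x : ℤ) - (a + 1 * (y : ℤ)) = x - y := by ring
      rwa [this] at h1
    · have : a + -1 * (x : ℤ) - (a + -1 * (y : ℤ)) = -(x - y) := by ring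
      rw [this] at h1
      exact (dvd_neg.1 h1)
  obtain ⟨k, hk⟩ := h2
  rcases lt_trichotomy k 0 with h3 | h3 | h3
  · have h4 : (n : ℤ) * k ≤ (n : ℤ) * (-1) := mul_le_mul_of_nonneg_left (by omega) (by omega)
    omega
  · subst h3
    omega
  · have h4 : (n : ℤ) * 1 ≤ (n : ℤ) * k := mul_le_mul_of_nonneg_left (by omega) (by omega)
    omega

/-- A statement periodic with period `d` that holds on a block of length `d` holds everywhere. -/
lemma all_of_block {d : ℤ} (hd : 0 < d) {P : ℤ → Prop} (h1 : ∀ i k, P i → P (i + d * k)) {L : ℤ}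
    (h : ∀ i, L ≤ i → i < L + d → P i) : ∀ i, P i := by
  intro i
  have h2 := Int.emod_add_mul_ediv (i - L) d
  have h3 := Int.emod_nonneg (i - L) hd.ne'
  have h4 := Int.emod_lt_of_pos (i - L) hd
  have h5 := h1 (L + (i - L) % d) ((i - L) / d) (h _ (by omega) (by omega))
  have h6 : L + (i - L) % d + d * ((i - L) / d) = i := by linarith
  rwa [h6] at h5

/-- The set of lengths of paths between classes. -/
def HasPath (G : SimpleGraph V) (v : ℤ → V) {α : Type*} (f : V → α) (p : ℕ) : Prop :=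
  ∃ l : List V, l.IsChain G.Adj ∧ l.Nodup ∧ l.length = p + 1 ∧ (∀ x ∈ l, ∃ i, x = v i) ∧
    ∃ a ∈ l.head?, ∃ b ∈ l.getLast?, f a ≠ f b

lemma hasPath_arc {G : SimpleGraph V} {n : ℕ} {v : ℤ → V}
    (hinj : ∀ i j, v i = v j → (n : ℤ) ∣ i - j) (hadj : ∀ i, G.Adj (v i) (v (i + 1)))
    {α : Type*} {f : V → α} {p : ℕ} (hp : p < n) (h : ¬ HasPath G v f p) (i : ℤ) :
    f (v (i + p)) = f (v i) := by
  by_contra hne
  apply h
  refine ⟨run v i 1 p, run_chain hadj _ _ (Or.inl rfl) _, run_nodup hinj _ _ (Or.inl rfl) _ hp,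
    run_length _ _ _ _, ?_, v i, ?_, v (i + p), ?_, fun h => hne h.symm⟩
  · intro x hx
    obtain ⟨k, -, rfl⟩ := run_mem hx
    exact ⟨_, rfl⟩
  · rw [run_head]; rfl
  · rw [run_last]; simp

lemma hasPath_chord {G : SimpleGraph V} {n : ℕ} {v : ℤ → V}
    (hinj : ∀ i j, v i = v j → (n : ℤ) ∣ i - j) (hadj : ∀ i, G.Adj (v i) (v (i + 1))) {r : ℤ}
    (hchord : G.Adj (v 0) (v r))
    {α : Type*} {f : V → α} {p : ℕ} (h : ¬ HasPath G v f p) (ε₁ ε₂ : ℤ)
    (h₁ : ε₁ = 1 ∨ ε₁ = -1) (h₂ : ε₂ = 1 ∨ ε₂ = -1) (i j : ℕ) (hi : i < n) (hj : j < n)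
    (hij : i + j + 1 = p)
    (hdisj : ∀ t u : ℕ, t ≤ i → u ≤ j → 0 < (r + ε₂ * u) - ε₁ * t ∧
      (r + ε₂ * u) - ε₁ * t < n) : f (v (ε₁ * i)) = f (v (r + ε₂ * j)) := by
  by_contra hne
  apply h
  refine ⟨run v (ε₁ * i) (-ε₁) i ++ run v r ε₂ j, ?_, ?_, ?_, ?_, v (ε₁ * i), ?_,
    v (r + ε₂ * j), ?_, hne⟩
  · rw [List.isChain_append]
    refine ⟨run_chain hadj _ _ (by rcases h₁ with h | h <;> simp [h]) _,
      run_chain hadj _ _ h₂ _, ?_⟩
    intro x hx y hy
    rw [run_last] at hx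
    rw [run_head] at hy
    have hx' : v 0 = x := by
      have h3 : ε₁ * (i : ℤ) + -ε₁ * i = 0 := by ring
      rw [h3] at hx
      exact Option.some.inj hx
    have hy' : v r = y := Option.some.inj hy
    rw [← hx', ← hy']
    exact hchord
  · rw [List.nodup_append']
    refine ⟨run_nodup hinj _ _ (by rcases h₁ with h | h <;> simp [h]) _ hi,
      run_nodup hinj _ _ h₂ _ hj, ?_⟩
    intro x hx hx'
    obtain ⟨k, hk, rfl⟩ := run_mem hx
    obtain ⟨u, hu, hxu⟩ := run_mem hx'
    obtain ⟨z, hz⟩ := hinj _ _ hxu.symm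
    have h3 := hdisj (i - k) u (by omega) hu
    have h4 : (r + ε₂ * u) - ε₁ * ((i - k : ℕ) : ℤ) = n * z := by
      rw [← hz, Nat.cast_sub hk]; ring
    rw [h4] at h3
    rcases le_or_gt z 0 with h5 | h5
    · have h6 : (n : ℤ) * z ≤ 0 := mul_nonpos_of_nonneg_of_nonpos (by omega) h5
      omega
    · have h6 : (n : ℤ) * 1 ≤ n * z := mul_le_mul_of_nonneg_left (by omega) (by omega)
      omega
  · rw [List.length_append, run_length, run_length]; omega
  · intro x hx
    rcases List.mem_append.1 hx with h3 | h3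
    · obtain ⟨k, -, rfl⟩ := run_mem h3
      exact ⟨_, rfl⟩
    · obtain ⟨k, -, rfl⟩ := run_mem h3
      exact ⟨_, rfl⟩
  · rw [List.head?_append, run_head]; rfl
  · rw [List.getLast?_append, run_last]; rfl

/-- Paths of all lengths between classes in a cycle with an even chord. -/
theorem theta_paths {G : SimpleGraph V} {n r : ℕ} {v : ℤ → V} (hper : ∀ i, v (i + n) = v i)
    (hinj : ∀ i j, v i = v j → (n : ℤ) ∣ i - j) (hadj : ∀ i, G.Adj (v i) (v (i + 1)))
    (hr : 2 ≤ r) (hrn : r + 2 ≤ n) (hchord : G.Adj (v 0) (v r)) (heven : Even r)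
    {α : Type*} (f : V → α) (hf : ∃ i j, f (v i) ≠ f (v j)) {p : ℕ} (hp : 1 ≤ p) (hpn : p < n) :
    HasPath G v f p := by
  by_contra hno
  set F : ℤ → α := fun i => f (v i) with hF
  -- periods
  let H : AddSubgroup ℤ := {
    carrier := {t | ∀ i, F (i + t) = F i}
    zero_mem' := by intro i; simp
    add_mem' := by
      intro a b ha hb i
      rw [← add_assoc, hb, ha]
    neg_mem' := by
      intro a ha i
      have := ha (i + -a)
      rw [neg_add_cancel_right] at this
      exact this.symm }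
  have hHmem : ∀ t, t ∈ H ↔ ∀ i, F (i + t) = F i := fun t => Iff.rfl
  have hnH : (n : ℤ) ∈ H := by
    rw [hHmem]; intro i; simp only [hF]; rw [hper]
  have hpH : (p : ℤ) ∈ H := by
    rw [hHmem]; intro i; exact hasPath_arc hinj hadj hpn hno i
  obtain ⟨d₀, hd₀⟩ := Int.subgroup_cyclic H
  set d : ℕ := d₀.natAbs with hd
  have hdH : ∀ t, t ∈ H ↔ (d : ℤ) ∣ t := by
    intro t
    rw [hd₀, AddSubgroup.mem_closure_singleton]
    constructor
    · rintro ⟨k, rfl⟩
      rw [hd, Int.natAbs_dvd, smul_eq_mul]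
      exact dvd_mul_left _ _
    · intro h
      rw [hd, Int.natAbs_dvd] at h
      obtain ⟨k, rfl⟩ := h
      exact ⟨k, by rw [smul_eq_mul]; ring⟩
  have hdn : (d : ℤ) ∣ n := (hdH _).1 hnH
  have hdp : (d : ℤ) ∣ p := (hdH _).1 hpH
  have hdpos : 0 < d := by
    rcases Nat.eq_zero_or_pos d with h0 | h0
    · rw [h0] at hdp
      simp at hdp
      omega
    · exact h0
  have hd1 : d ≠ 1 := by
    intro h1
    obtain ⟨i, j, hij⟩ := hf
    apply hij
    have h2 : (i - j) ∈ H := by rw [hdH, h1]; simp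
    have h3 := (hHmem _).1 h2 j
    have h4 : j + (i - j) = i := by ring
    rw [h4] at h3
    exact h3
  have hd2 : 2 ≤ d := by omega
  have hdp' : d ≤ p := Nat.le_of_dvd hp (by exact_mod_cast hdp)
  have hdnp : d ≤ n - p := by
    apply Nat.le_of_dvd (by omega)
    have h1 : (d : ℤ) ∣ ((n - p : ℕ) : ℤ) := by
      rw [Nat.cast_sub hpn.le]; exact dvd_sub hdn hdp
    exact_mod_cast h1
  have hFd : ∀ i k, F (i + d * k) = F i := by
    intro i k
    exact (hHmem _).1 ((hdH _).2 (dvd_mul_right _ _)) i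
  have hFp : ∀ i, F (i + p) = F i := (hHmem _).1 hpH
  have hFp' : ∀ i, F (i - p) = F i := by
    intro i
    have := hFp (i - p)
    rw [sub_add_cancel] at this
    exact this.symm
  have chord := fun ε₁ ε₂ h₁ h₂ i j hi hj hij hd =>
    hasPath_chord hinj hadj hchord hno ε₁ ε₂ h₁ h₂ i j hi hj hij hd
  by_cases hrd : r < d
  · -- short chord on one side
    have h1 : ∀ i, F (i + (r - 1 : ℤ)) = F i := by
      have key := all_of_block (d := d) (by omega) (P := fun i => F (-i) = F (-i + (r - 1 : ℤ)))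
        (by
          intro i k h
          have e1 : -(i + d * k) = -i + d * (-k) := by ring
          have e2 : -(i + d * k) + (r - 1 : ℤ) = (-i + (r - 1 : ℤ)) + d * (-k) := by ring
          rw [e2, e1, hFd, hFd]; exact h) (L := 0) (by
          intro i hi0 hid
          obtain ⟨i', rfl⟩ := Int.eq_ofNat_of_zero_le hi0
          have h2 := chord (-1) 1 (Or.inr rfl) (Or.inl rfl) i' (p - 1 - i') (by omega) (by omega)
            (by omega) (by
              intro t u ht hu
              omega)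
          have e1 : ((-1 : ℤ)) * (i' : ℤ) = -(i' : ℤ) := by ring
          have e2 : (r : ℤ) + 1 * ((p - 1 - i' : ℕ) : ℤ) = (-(i' : ℤ) + (r - 1 : ℤ)) + p := by
            omega
          rw [e1, e2] at h2
          change F _ = F _ at h2
          rw [hFp] at h2
          exact h2)
      intro i
      have := key (-i)
      simp only [neg_neg] at this
      exact this.symm
    have h2 : (d : ℤ) ∣ (r - 1 : ℤ) := (hdH _).1 ((hHmem _).2 h1)
    have h3 := Int.le_of_dvd (by omega) h2
    omega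
  by_cases hnrd : n - r < d
  · -- short chord on the other side
    have h1 : ∀ i, F (i + (r + 1 : ℤ)) = F i := by
      have key := all_of_block (d := d) (by omega) (P := fun i => F i = F (i + (r + 1 : ℤ)))
        (by
          intro i k h
          have e2 : (i + d * k) + (r + 1 : ℤ) = (i + (r + 1 : ℤ)) + d * k := by ring
          rw [e2, hFd, hFd]; exact h) (L := 0) (by
          intro i hi0 hid
          obtain ⟨i', rfl⟩ := Int.eq_ofNat_of_zero_le hi0
          have h2 := chord 1 (-1) (Or.inl rfl) (Or.inr rfl) i' (p - 1 - i') (by omega) (by omega)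
            (by omega) (by
              intro t u ht hu
              omega)
          have e1 : (1 : ℤ) * (i' : ℤ) = (i' : ℤ) := by ring
          have e2 : (r : ℤ) + -1 * ((p - 1 - i' : ℕ) : ℤ) = ((i' : ℤ) + (r + 1 : ℤ)) - p := by
            omega
          rw [e1, e2] at h2
          change F _ = F _ at h2
          rw [hFp'] at h2
          exact h2)
      intro i
      exact (key i).symm
    have h2 : (d : ℤ) ∣ (r + 1 : ℤ) := (hdH _).1 ((hHmem _).2 h1)
    have h3 : (d : ℤ) ∣ (n - (r + 1) : ℤ) := dvd_sub hdn h2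
    have h4 := Int.le_of_dvd (by omega) h3
    omega
  -- the two reflections
  push Not at hrd hnrd
  have hA : ∀ i, F i = F ((r - 1 : ℤ) - i) := by
    refine all_of_block (d := d) (by omega) (P := fun i => F i = F ((r - 1 : ℤ) - i))
      (L := (p - (n - r) : ℕ)) ?_ ?_
    · intro i k h
      have e2 : (r - 1 : ℤ) - (i + d * k) = ((r - 1 : ℤ) - i) + d * (-k) := by ring
      rw [e2, hFd, hFd]; exact h
    · intro i hi0 hid
      obtain ⟨i', rfl⟩ := Int.eq_ofNat_of_zero_le (a := i) (by omega)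
      have h2 := chord 1 1 (Or.inl rfl) (Or.inl rfl) i' (p - 1 - i') (by omega) (by omega)
        (by omega) (by
          intro t u ht hu
          omega)
      have e1 : (1 : ℤ) * (i' : ℤ) = (i' : ℤ) := by ring
      have e2 : (r : ℤ) + 1 * ((p - 1 - i' : ℕ) : ℤ) = ((r - 1 : ℤ) - i') + p := by
        omega
      rw [e1, e2] at h2
      change F _ = F _ at h2
      rw [hFp] at h2
      exact h2
  have hB : ∀ i, F (-i) = F ((r + 1 : ℤ) + i) := by
    refine all_of_block (d := d) (by omega) (P := fun i => F (-i) = F ((r + 1 : ℤ) + i))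
      (L := (p - r : ℕ)) ?_ ?_
    · intro i k h
      have e1 : -(i + d * k) = -i + d * (-k) := by ring
      have e2 : (r + 1 : ℤ) + (i + d * k) = ((r + 1 : ℤ) + i) + d * k := by ring
      rw [e2, e1, hFd, hFd]; exact h
    · intro i hi0 hid
      obtain ⟨i', rfl⟩ := Int.eq_ofNat_of_zero_le (a := i) (by omega)
      have h2 := chord (-1) (-1) (Or.inr rfl) (Or.inr rfl) i' (p - 1 - i') (by omega) (by omega)
        (by omega) (by
          intro t u ht hu
          omega)
      have e1 : (-1 : ℤ) * (i' : ℤ) = -(i' : ℤ) := by ring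
      have e2 : (r : ℤ) + -1 * ((p - 1 - i' : ℕ) : ℤ) = ((r + 1 : ℤ) + i') - p := by
        omega
      rw [e1, e2] at h2
      change F _ = F _ at h2
      rw [hFp'] at h2
      exact h2
  have h2H : (2 : ℤ) ∈ H := by
    rw [hHmem]
    intro i
    have h1 := hA ((r - 1 : ℤ) - i)
    have h2 := hB (-((r - 1 : ℤ) - i))
    rw [neg_neg] at h2
    have e1 : (r - 1 : ℤ) - ((r - 1 : ℤ) - i) = i := by ring
    have e2 : (r + 1 : ℤ) + -((r - 1 : ℤ) - i) = i + 2 := by ring
    rw [e1] at h1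
    rw [e2] at h2
    rw [← h2, h1]
  have hd2' : (d : ℤ) ∣ 2 := (hdH _).1 h2H
  have hd2'' : d = 2 := by
    have := Int.le_of_dvd (by omega) hd2'
    omega
  have h01 : F 0 = F 1 := by
    obtain ⟨r', hr'⟩ := heven
    have h1 := hA 0
    have h2 := hFd 1 ((r' : ℤ) - 1)
    rw [hd2''] at h2
    have e1 : (r - 1 : ℤ) - 0 = 1 + ((2 : ℕ) : ℤ) * ((r' : ℤ) - 1) := by
      rw [hr']; push_cast; ring
    rw [h1, e1, h2]
  have hconst : ∀ i, F i = F 0 := by
    intro i
    have h1 := Int.emod_add_mul_ediv i 2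
    have h2 := hFd (i % 2) (i / 2)
    rw [hd2''] at h2
    have h3 : i % 2 + ((2 : ℕ) : ℤ) * (i / 2) = i := by push_cast; exact h1
    rw [h3] at h2
    rw [h2]
    rcases Int.emod_two_eq_zero_or_one i with h4 | h4
    · rw [h4]
    · rw [h4]; exact h01.symm
  obtain ⟨i, j, hij⟩ := hf
  exact hij ((hconst i).trans (hconst j).symm)

end Pool.Agent.Lib.MP_b6048d_co
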