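import Mathlib
import Pool.Agent.Lib.MP_b6048d_co.Numbers
import Pool.Agent.Lib.MP_b6048d_co.Theta

set_option autoImplicit false

/-!
Breadth first layers, and a long cycle in a layer of a layer gives cycles of all lengths.
-/

namespace Pool.Agent.Lib.MP_b6048d_co

variable {V : Type*}

/-- A breadth first search structure on a graph. -/
structure Levelling (G : SimpleGraph V) where
  /-- the level -/
  lev : V → ℕ
  /-- the parent -/
  par : V → V
  /-- the root of the component -/
  root : V → V
  lip : ∀ x y, G.Adj x y → lev x ≤ lev y + 1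
  adj_par : ∀ x, lev x ≠ 0 → G.Adj x (par x)
  lev_par : ∀ x, lev x ≠ 0 → lev (par x) + 1 = lev x
  root_adj : ∀ x y, G.Adj x y → root x = root y
  zero : ∀ x, lev x = 0 → x = root x

lemma walk_head {G : SimpleGraph V} {x z : V} (p : G.Walk x z) (h : p.length ≠ 0) :
    ∃ y, G.Adj x y ∧ ∃ q : G.Walk y z, q.length + 1 = p.length := by
  cases p with
  | nil => simp at h
  | @cons _ y _ hxy q => exact ⟨y, hxy, q, by rw [SimpleGraph.Walk.length_cons]⟩

/-- Every choice of roots gives a breadth first search structure. -/
lemma exists_levelling (G : SimpleGraph V) (root : V → V) (h1 : ∀ x, G.Reachable (root x) x)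
    (h2 : ∀ x y, G.Adj x y → root x = root y) :
    ∃ L : Levelling G, L.root = root ∧ ∀ x, L.lev x = G.dist (root x) x := by
  classical
  have hpar : ∀ x, ∃ y, G.dist (root x) x ≠ 0 → G.Adj x y ∧
      G.dist (root y) y + 1 = G.dist (root x) x := by
    intro x
    by_cases hx : G.dist (root x) x = 0
    · exact ⟨x, fun h => absurd hx h⟩
    · obtain ⟨p, hp⟩ := (h1 x).exists_walk_length_eq_dist
      have hp' : p.reverse.length = G.dist (root x) x := by
        rw [SimpleGraph.Walk.length_reverse]; exact hp
      obtain ⟨y, hxy, q, hq⟩ := walk_head p.reverse (by omega)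
      refine ⟨y, fun _ => ⟨hxy, ?_⟩⟩
      have h3 := h2 x y hxy
      rw [← h3]
      have h4 : G.dist (root x) y ≤ q.length := by
        have := SimpleGraph.dist_le q.reverse
        rwa [SimpleGraph.Walk.length_reverse] at this
      have h5 : G.dist (root x) x ≤ G.dist (root x) y + 1 := by
        have h6 : G.Reachable (root x) y := (h1 x).trans hxy.reachable
        obtain ⟨p', hp''⟩ := h6.exists_walk_length_eq_dist
        have h7 := SimpleGraph.dist_le (p'.concat hxy.symm)
        rw [SimpleGraph.Walk.length_concat, hp''] at h7
        exact h7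
      omega
  choose par hpar using hpar
  refine ⟨{ lev := fun x => G.dist (root x) x
            par := par
            root := root
            lip := ?_
            adj_par := fun x hx => (hpar x hx).1
            lev_par := fun x hx => (hpar x hx).2
            root_adj := h2
            zero := ?_ }, rfl, fun _ => rfl⟩
  · intro x y hxy
    have h3 := h2 x y hxy
    rw [← h3]
    obtain ⟨p', hp''⟩ := ((h1 x).trans hxy.reachable).exists_walk_length_eq_dist
    have h7 := SimpleGraph.dist_le (p'.concat hxy.symm)
    rw [SimpleGraph.Walk.length_concat, hp''] at h7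
    exact h7
  · intro x hx
    exact ((h1 x).dist_eq_zero_iff.1 hx).symm

lemma exists_levelling' (G : SimpleGraph V) : Nonempty (Levelling G) := by
  obtain ⟨L, -⟩ := exists_levelling G
    (fun x => Quot.out (G.connectedComponentMk x)) (fun x => by
      apply SimpleGraph.ConnectedComponent.exact
      exact Quot.out_eq _) (fun x y hxy => by
      rw [SimpleGraph.ConnectedComponent.sound hxy.reachable])
  exact ⟨L⟩

namespace Levelling

variable {G : SimpleGraph V} (L : Levelling G)

/-- The layer graph at level `i`. -/
def layer (i : ℕ) : SimpleGraph V where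
  Adj x y := G.Adj x y ∧ L.lev x = i ∧ L.lev y = i
  symm := ⟨fun _ _ h => ⟨h.1.symm, h.2.2, h.2.1⟩⟩
  loopless := ⟨fun _ h => G.irrefl h.1⟩

lemma layer_le (i : ℕ) : L.layer i ≤ G := fun _ _ h => h.1

/-- If all layers are `k`-colourable then the graph is `2 k`-colourable. -/
lemma colorable {k : ℕ} (h : ∀ i, (L.layer i).Colorable k) : G.Colorable (2 * k) := by
  have C := fun i => (h i).some
  let col : G.Coloring (Bool × Fin k) := SimpleGraph.Coloring.mk
    (fun x => ((L.lev x).bodd, C (L.lev x) x)) (by
      intro x y hxy he
      have h1 := (Prod.mk.inj he).1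
      have h2 := (Prod.mk.inj he).2
      have h3 := bodd_eq_of_le h1 (L.lip x y hxy) (L.lip y x hxy.symm)
      rw [← h3] at h2
      exact (C (L.lev x)).valid (show (L.layer (L.lev x)).Adj x y from ⟨hxy, rfl, h3.symm⟩) h2)
  have := col.colorable
  simpa using this

lemma lev_iter : ∀ (k : ℕ) (x : V), k ≤ L.lev x → L.lev (L.par^[k] x) + k = L.lev x := by
  intro k
  induction k with
  | zero => intro x _; simp
  | succ k ih =>
    intro x hx
    have h1 := ih x (by omega)
    rw [Function.iterate_succ_apply']
    have h2 := L.lev_par (L.par^[k] x) (by omega)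
    omega

lemma root_iter : ∀ (k : ℕ) (x : V), k ≤ L.lev x → L.root (L.par^[k] x) = L.root x := by
  intro k
  induction k with
  | zero => intro x _; simp
  | succ k ih =>
    intro x hx
    have h1 := ih x (by omega)
    rw [Function.iterate_succ_apply', ← h1]
    have h2 := L.lev_iter k x (by omega)
    exact (L.root_adj _ _ (L.adj_par _ (by omega))).symm

lemma iter_lev (x : V) : L.par^[L.lev x] x = L.root x := by
  have h1 := L.lev_iter (L.lev x) x le_rfl
  rw [← L.root_iter (L.lev x) x le_rfl]
  exact L.zero _ (by omega)

/-- The ear through the lower levels joining two vertices of the same level. -/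
lemma ear : ∀ (h : ℕ) (x y : V), L.lev x = L.lev y → h + 1 ≤ L.lev x →
    (∀ k ≤ h, L.par^[k] x ≠ L.par^[k] y) → L.par^[h + 1] x = L.par^[h + 1] y →
    ∃ E : List V, E.length = 2 * h + 1 ∧ (x :: (E ++ [y])).IsChain G.Adj ∧
      (x :: (E ++ [y])).Nodup ∧ ∀ z ∈ E, L.lev z < L.lev x := by
  intro h
  induction h with
  | zero =>
    intro x y hlev hx hne he
    have hxy : x ≠ y := hne 0 le_rfl
    have h1 := L.lev_par x (by omega)
    have h2 := L.adj_par x (by omega)
    have h3 := L.adj_par y (by omega)
    simp only [zero_add, Function.iterate_one] at he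
    refine ⟨[L.par x], by simp, ?_, ?_, ?_⟩
    · simp only [List.singleton_append, List.isChain_cons_cons, List.isChain_singleton, and_true]
      refine ⟨h2, ?_⟩
      rw [he]; exact h3.symm
    · simp only [List.singleton_append, List.nodup_cons, List.mem_cons, List.not_mem_nil, or_false,
        not_or, List.nodup_nil, and_true, not_false_eq_true]
      refine ⟨⟨h2.ne, hxy⟩, ?_⟩
      rw [he]; exact h3.symm.ne
    · intro z hz
      have : z = L.par x := by simpa using hz
      rw [this]; omega
  | succ h ih =>
    intro x y hlev hx hne he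
    have hxy : x ≠ y := hne 0 (by omega)
    have h1 := L.lev_par x (by omega)
    have h1' := L.lev_par y (by omega)
    have h2 := L.adj_par x (by omega)
    have h3 := L.adj_par y (by omega)
    obtain ⟨E, hE1, hE2, hE3, hE4⟩ := ih (L.par x) (L.par y) (by omega) (by omega)
      (by
        intro k hk
        rw [← Function.iterate_succ_apply, ← Function.iterate_succ_apply]
        exact hne (k + 1) (by omega))
      (by
        rw [← Function.iterate_succ_apply, ← Function.iterate_succ_apply]
        exact he)
    have hlow : ∀ z ∈ L.par x :: (E ++ [L.par y]), L.lev z < L.lev x := by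
      intro z hz
      simp only [List.mem_cons, List.mem_append, List.not_mem_nil, or_false] at hz
      rcases hz with rfl | hz | rfl
      · omega
      · have := hE4 z hz
        omega
      · omega
    refine ⟨L.par x :: (E ++ [L.par y]), ?_, ?_, ?_, hlow⟩
    · simp only [List.length_cons, List.length_append, List.length_nil]
      omega
    · rw [List.cons_append, List.isChain_cons_cons]
      refine ⟨h2, ?_⟩
      have e1 : L.par x :: (E ++ [L.par y] ++ [y]) = (L.par x :: E) ++ L.par y :: [y] := by simp
      rw [e1, List.isChain_split]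
      refine ⟨hE2, ?_⟩
      simp only [List.isChain_cons_cons, List.isChain_singleton, and_true]
      exact h3.symm
    · rw [List.nodup_cons, List.nodup_append']
      refine ⟨?_, hE3, by simp, ?_⟩
      · intro hmem
        rcases List.mem_append.1 hmem with h4 | h4
        · exact lt_irrefl _ (hlow x h4)
        · exact hxy (by simpa using h4)
      · intro z hz hz'
        have hzy : z = y := by simpa using hz'
        have := hlow z hz
        rw [hzy, hlev] at this
        exact lt_irrefl _ this

/-- The ear between two distinct vertices with the same root. -/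
lemma exists_ear {x y : V} (hlev : L.lev x = L.lev y) (hroot : L.root x = L.root y)
    (hne : x ≠ y) : ∃ (h : ℕ) (E : List V), h + 1 ≤ L.lev x ∧ E.length = 2 * h + 1 ∧
      (x :: (E ++ [y])).IsChain G.Adj ∧ (x :: (E ++ [y])).Nodup ∧ ∀ z ∈ E, L.lev z < L.lev x := by
  classical
  have hex : ∃ k, L.par^[k] x = L.par^[k] y := by
    refine ⟨L.lev x, ?_⟩
    rw [L.iter_lev x, hlev, L.iter_lev y, hroot]
  obtain ⟨h, hh⟩ : ∃ h, Nat.find hex = h + 1 := by
    refine ⟨Nat.find hex - 1, ?_⟩
    have : Nat.find hex ≠ 0 := by
      intro h0
      have := Nat.find_spec hex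
      rw [h0] at this
      exact hne this
    omega
  have h1 : L.par^[h + 1] x = L.par^[h + 1] y := by
    rw [← hh]; exact Nat.find_spec hex
  have h2 : ∀ k ≤ h, L.par^[k] x ≠ L.par^[k] y := by
    intro k hk
    exact Nat.find_min hex (by omega)
  have h3 : h + 1 ≤ L.lev x := by
    rw [← hh]
    apply Nat.find_min'
    rw [L.iter_lev x, hlev, L.iter_lev y, hroot]
  obtain ⟨E, hE⟩ := L.ear h x y hlev h3 h2 h1
  exact ⟨h, E, h3, hE⟩

end Levelling

end Pool.Agent.Lib.MP_b6048d_co
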