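import Mathlib
import Pool.Agent.Lib.MP_b6048d_co.Layers

set_option autoImplicit false

/-!
A long cycle in a layer of a layer gives cycles of all lengths.
-/

namespace Pool.Agent.Lib.MP_b6048d_co

variable {V : Type*}

/-- A cyclic list as a periodic function. -/
lemma cyc_fun {G : SimpleGraph V} {D : List V} (h : IsCyc G D) :
    ∃ v : ℤ → V, (∀ i, v (i + D.length) = v i) ∧
      (∀ i j, v i = v j → (D.length : ℤ) ∣ i - j) ∧ (∀ i, G.Adj (v i) (v (i + 1))) ∧
      (∀ (k : ℕ) (hk : k < D.length), v k = D[k]) ∧ ∀ i, v i ∈ D := by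
  have hlen := h.len
  have hn : (0 : ℤ) < D.length := by omega
  have hmod : ∀ i : ℤ, (i % D.length).toNat < D.length := by
    intro i
    have h1 := Int.emod_nonneg i hn.ne'
    have h2 := Int.emod_lt_of_pos i hn
    omega
  have hget : ∀ {a b : ℕ} (ha : a < D.length) (hb : b < D.length), a = b → D[a] = D[b] := by
    intro a b ha hb hab; subst hab; rfl
  refine ⟨fun i => D[(i % D.length).toNat]'(hmod i), ?_, ?_, ?_, ?_, ?_⟩
  · intro i
    apply hget
    rw [Int.add_emod_right]
  · intro i j hij
    have h1 := (h.nodup.getElem_inj_iff).1 hij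
    have h2 := Int.emod_nonneg i hn.ne'
    have h3 := Int.emod_nonneg j hn.ne'
    have h4 : i % D.length = j % D.length := by omega
    exact Int.ModEq.dvd (show j ≡ i [ZMOD D.length] from h4.symm)
  · intro i
    beta_reduce
    have h1 := Int.emod_nonneg i hn.ne'
    have h2 := Int.emod_lt_of_pos i hn
    by_cases h3 : (i % D.length).toNat + 1 < D.length
    · have h4 : (((i + 1) % D.length).toNat) = (i % D.length).toNat + 1 := by
        have : (i + 1) % D.length = i % D.length + 1 := by
          rw [Int.add_emod, Int.emod_eq_of_lt (a := i % D.length + 1 % D.length)]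
          · rw [Int.emod_eq_of_lt (a := 1) (by omega) (by omega)]
          · rw [Int.emod_eq_of_lt (a := 1) (by omega) (by omega)]; omega
          · rw [Int.emod_eq_of_lt (a := 1) (by omega) (by omega)]; omega
        omega
      have h5 : D[((i + 1) % D.length).toNat]'(hmod _) = D[(i % D.length).toNat + 1] :=
        hget _ _ h4
      rw [h5]
      exact (List.isChain_iff_getElem.1 h.chain) _ h3
    · have h4 : (i % D.length).toNat = D.length - 1 := by
        have := hmod i
        omega
      have h6 : (i + 1) % D.length = 0 := by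
        have h7 : i % D.length = D.length - 1 := by omega
        rw [Int.add_emod, h7, Int.emod_eq_of_lt (a := 1) (by omega) (by omega)]
        simp
      have h5 : D[((i + 1) % D.length).toNat]'(hmod _) = D[0] := hget _ _ (by rw [h6]; rfl)
      have h8 : D[(i % D.length).toNat]'(hmod _) = D[D.length - 1] := hget _ _ h4
      rw [h5, h8]
      apply h.closed
      · rw [List.head?_eq_getElem?]
        simp [List.getElem?_eq_getElem (show 0 < D.length by omega)]
      · rw [List.getLast?_eq_getElem?]
        simp [List.getElem?_eq_getElem (show D.length - 1 < D.length by omega)]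
  · intro k hk
    apply hget
    rw [Int.emod_eq_of_lt (by omega) (by omega)]
    rfl
  · intro i
    exact List.getElem_mem _

lemma chain_const {α : Type*} {G : SimpleGraph V} {f : V → α}
    (hf : ∀ x y, G.Adj x y → f x = f y) : ∀ (l : List V), l.IsChain G.Adj →
      ∀ x ∈ l, ∀ y ∈ l, f x = f y := by
  have h : ∀ (l : List V) (a : V), (a :: l).IsChain G.Adj → ∀ x ∈ l, f x = f a := by
    intro l
    induction l with
    | nil => intro a _ x hx; simp at hx
    | cons b l ih =>
      intro a hc x hx
      rw [List.isChain_cons_cons] at hc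
      have h1 := hf a b hc.1
      rcases List.mem_cons.1 hx with rfl | hx
      · exact h1.symm
      · exact (ih b hc.2 x hx).trans h1.symm
  intro l hl x hx y hy
  cases l with
  | nil => simp at hx
  | cons a l =>
    have h1 : ∀ z ∈ a :: l, f z = f a := by
      intro z hz
      rcases List.mem_cons.1 hz with rfl | hz
      · rfl
      · exact h l a hl z hz
    rw [h1 x hx, h1 y hy]

/-- The chorded cycle built from a cycle in a layer. -/
lemma exists_chorded {G : SimpleGraph V} (L : Levelling G) (j : ℕ) {C : List V}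
    (hC : IsCyc (L.layer j) C) : ∃ (D : List V) (r : ℕ) (hr : r < D.length), IsCyc G D ∧
      Even r ∧ 2 ≤ r ∧ r + 2 ≤ D.length ∧ G.Adj (D[0]'(by omega)) D[r] ∧
      C.length < D.length := by
  obtain ⟨h1, h2, h3, h4⟩ := hC
  -- decompose C
  obtain ⟨x, t, rfl⟩ : ∃ x t, C = x :: t := by
    cases C with
    | nil => simp at h1
    | cons x t => exact ⟨x, t, rfl⟩
  rcases t.eq_nil_or_concat with rfl | ⟨t', y, rfl⟩
  · simp at h1
  rw [List.concat_eq_append] at *
  have ht' : 1 ≤ t'.length := by
    simp only [List.length_cons, List.length_append, List.length_nil] at h1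
    omega
  have hyx : (L.layer j).Adj y x := by
    apply h4 x rfl y
    have e1 : x :: (t' ++ [y]) = (x :: t') ++ [y] := rfl
    rw [e1, List.getLast?_append]
    rfl
  have hlevC : ∀ z ∈ x :: (t' ++ [y]), L.lev z = j := by
    have hx : L.lev x = j := hyx.2.2
    intro z hz
    have h5 : ∀ (l : List V) (a : V), (a :: l).IsChain (L.layer j).Adj → L.lev a = j →
        ∀ z ∈ l, L.lev z = j := by
      intro l
      induction l with
      | nil => intro a _ _ z hz; simp at hz
      | cons b l ih =>
        intro a hc ha z hz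
        rw [List.isChain_cons_cons] at hc
        rcases List.mem_cons.1 hz with rfl | hz
        · exact hc.1.2.2
        · exact ih b hc.2 hc.1.2.2 z hz
    rcases List.mem_cons.1 hz with rfl | hz
    · exact hx
    · exact h5 _ x h3 hx z hz
  have hne : x ≠ y := hyx.1.ne'
  have hx := hlevC x (by simp)
  have hy := hlevC y (by simp)
  obtain ⟨h, E, he1, he2, he3, he4, he5⟩ := L.exists_ear (x := x) (y := y) (by rw [hx, hy])
    (L.root_adj _ _ hyx.1.symm) hne
  have hEC : ∀ z ∈ E, z ∉ x :: (t' ++ [y]) := by
    intro z hz hz'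
    have h5 := he5 z hz
    have h6 := hlevC z hz'
    omega
  refine ⟨x :: (E ++ y :: t'.reverse), 2 * h + 2, ?_, ⟨?_, ?_, ?_, ?_⟩, ?_, by omega, ?_, ?_, ?_⟩
  · simp only [List.length_cons, List.length_append, List.length_reverse]
    omega
  · simp only [List.length_cons, List.length_append, List.length_reverse]
    omega
  · -- nodup
    have e1 : x :: (E ++ y :: t'.reverse) = (x :: (E ++ [y])) ++ t'.reverse := by simp
    rw [e1, List.nodup_append']
    have hnd : (x :: t' ++ [y]).Nodup := h2
    refine ⟨he4, ?_, ?_⟩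
    · rw [List.nodup_reverse]
      refine hnd.sublist ?_
      exact ((List.sublist_cons_self x t')).trans (List.sublist_append_left _ _)
    · intro z hz hz'
      rw [List.mem_reverse] at hz'
      simp only [List.mem_cons, List.mem_append, List.not_mem_nil, or_false] at hz
      rcases hz with rfl | hz | rfl
      · have := (List.nodup_cons.1 h2).1
        exact this (List.mem_append_left _ hz')
      · exact hEC z hz (by simp [hz'])
      · have h5 := (List.nodup_cons.1 h2).2
        rw [List.nodup_append'] at h5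
        exact h5.2.2 hz' (by simp)
  · -- chain
    have e1 : x :: (E ++ y :: t'.reverse) = (x :: E) ++ y :: t'.reverse := rfl
    rw [e1, List.isChain_split]
    refine ⟨he3, ?_⟩
    have e2 : y :: t'.reverse = (t' ++ [y]).reverse := by simp
    rw [e2, List.isChain_reverse]
    have h5 := (List.isChain_cons.1 h3).2
    exact h5.imp fun a b hab => hab.1.symm
  · -- closed
    intro a ha b hb
    have ha' : x = a := by simpa using ha
    subst ha'
    obtain ⟨s, t'', hst⟩ : ∃ s t'', t' = s :: t'' := by
      cases t' with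
      | nil => simp at ht'
      | cons s t'' => exact ⟨s, t'', rfl⟩
    have hb' : s = b := by
      have e1 : x :: (E ++ y :: t'.reverse) = (x :: (E ++ y :: t''.reverse)) ++ [s] := by
        rw [hst]; simp
      rw [e1, List.getLast?_append] at hb
      simpa using hb
    subst hb'
    rw [hst] at h3
    rw [List.cons_append, List.isChain_cons_cons] at h3
    exact h3.1.1.symm
  · exact ⟨h + 1, by ring⟩
  · simp only [List.length_cons, List.length_append, List.length_reverse]
    omega
  · -- chord
    have h5 : (x :: (E ++ y :: t'.reverse))[2 * h + 2]'(by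
        simp only [List.length_cons, List.length_append, List.length_reverse]; omega) = y := by
      simp only [List.getElem_cons_succ]
      rw [List.getElem_append_right (by omega)]
      have e1 : 2 * h + 1 - E.length = 0 := by omega
      simp only [e1, List.getElem_cons_zero]
    rw [h5]
    exact hyx.1.symm
  · simp only [List.length_cons, List.length_append, List.length_reverse, List.length_nil]
    omega

/-- Cycles of all lengths from a long cycle in a layer of a layer. -/
theorem all_lengths {G : SimpleGraph V} (L : Levelling G) (i : ℕ) (L' : Levelling (L.layer i))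
    (j : ℕ) {C : List V} (hC : IsCyc (L'.layer j) C) (ℓ : ℕ) (h1 : 2 * i + 1 ≤ ℓ)
    (h2 : ℓ ≤ C.length) : ∃ D, IsCyc G D ∧ D.length = ℓ := by
  classical
  obtain ⟨D, r, hr, hD, heven, hr2, hrn, hchord, hCD⟩ := exists_chorded L' j hC
  obtain ⟨v, hper, hinj, hadj, hget, hmem⟩ := cyc_fun hD
  have hDlen := hD.len
  -- levels and roots
  have hlev : ∀ k, L.lev (v k) = i := fun k => (hadj k).2.1
  have hroot : ∀ x ∈ D, ∀ y ∈ D, L.root x = L.root y :=
    chain_const (fun x y hxy => L.root_adj x y hxy) D (hD.chain.imp fun a b hab => hab.1)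
  have hexk : ∃ k, ∀ a b, L.par^[k] (v a) = L.par^[k] (v b) := by
    refine ⟨i, ?_⟩
    intro a b
    have h3 := L.iter_lev (v a)
    have h4 := L.iter_lev (v b)
    rw [hlev] at h3 h4
    rw [h3, h4]
    exact hroot _ (hmem a) _ (hmem b)
  have hk0 : Nat.find hexk ≠ 0 := by
    intro h0
    have h3 := Nat.find_spec hexk 0 1
    rw [h0] at h3
    simp only [Function.iterate_zero, id] at h3
    have h4 := hinj _ _ h3
    have h5 : (D.length : ℤ) ∣ 1 := by
      have : (0 : ℤ) - 1 = -1 := by ring
      rw [this] at h4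
      exact (dvd_neg.1 h4)
    have := Int.le_of_dvd (by omega) h5
    omega
  obtain ⟨h0, hh0⟩ : ∃ h0, Nat.find hexk = h0 + 1 := ⟨Nat.find hexk - 1, by omega⟩
  have hconst : ∀ a b, L.par^[h0 + 1] (v a) = L.par^[h0 + 1] (v b) := by
    rw [← hh0]; exact Nat.find_spec hexk
  have hh0i : h0 + 1 ≤ i := by
    rw [← hh0]
    apply Nat.find_min'
    intro a b
    have h3 := L.iter_lev (v a)
    have h4 := L.iter_lev (v b)
    rw [hlev] at h3 h4
    rw [h3, h4]
    exact hroot _ (hmem a) _ (hmem b)
  have hnc : ∃ a b, (L.par^[h0]) (v a) ≠ (L.par^[h0]) (v b) := by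
    have h3 := Nat.find_min hexk (show h0 < Nat.find hexk by omega)
    push Not at h3
    exact h3
  -- the path
  obtain ⟨p, hp⟩ : ∃ p, ℓ = p + 2 * h0 + 2 := ⟨ℓ - (2 * h0 + 2), by omega⟩
  have hch : (L.layer i).Adj (v 0) (v r) := by
    have e1 := hget 0 (by omega)
    have e2 := hget r hr
    simp only [Nat.cast_zero] at e1
    rw [e1, e2]; exact hchord
  obtain ⟨l, hl1, hl2, hl3, hl4, a, ha, b, hb, hab⟩ := theta_paths hper hinj hadj hr2 hrn hch
    heven (L.par^[h0]) hnc (p := p) (by omega) (by omega)
  have haD : ∃ k, a = v k := hl4 a (List.mem_of_mem_head? ha)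
  have hbD : ∃ k, b = v k := hl4 b (List.mem_of_getLast? hb)
  obtain ⟨ka, rfl⟩ := haD
  obtain ⟨kb, rfl⟩ := hbD
  obtain ⟨E, hE1, hE2, hE3, hE4⟩ := L.ear h0 (v kb) (v ka) (by rw [hlev, hlev])
    (by rw [hlev]; exact hh0i) (by
      intro k hk he
      apply hab
      have e1 : h0 = (h0 - k) + k := by omega
      rw [e1, Function.iterate_add_apply, Function.iterate_add_apply, he]) (hconst _ _)
  obtain ⟨e, E', hEe⟩ : ∃ e E', E = e :: E' := by
    cases E with
    | nil => simp at hE1
    | cons e E' => exact ⟨e, E', rfl⟩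
  refine ⟨l ++ E, ⟨?_, ?_, ?_, ?_⟩, ?_⟩
  · rw [List.length_append]; omega
  · rw [List.nodup_append']
    refine ⟨hl2, ?_, ?_⟩
    · have h3 := (List.nodup_cons.1 hE3).2
      rw [List.nodup_append'] at h3
      exact h3.1
    · intro z hz hz'
      obtain ⟨k, rfl⟩ := hl4 z hz
      have h3 := hE4 _ hz'
      rw [hlev, hlev] at h3
      omega
  · rw [List.isChain_append]
    have h3 := List.isChain_cons.1 hE2
    refine ⟨hl1.imp fun _ _ hxy => hxy.1, ?_, ?_⟩
    · have h4 := h3.2
      rw [List.isChain_append] at h4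
      exact h4.1
    · intro x hx y hy
      have hxb : v kb = x := by
        rw [Option.mem_def] at hb hx
        rw [hb] at hx
        exact Option.some.inj hx
      rw [← hxb]
      apply h3.1
      rw [hEe] at hy ⊢
      simpa using hy
  · intro x hx y hy
    have hxa : v ka = x := by
      rw [List.head?_append] at hx
      rw [Option.mem_def] at ha hx
      rw [ha] at hx
      simpa using hx
    rw [← hxa]
    have h3 := (List.isChain_cons.1 hE2).2
    rw [List.isChain_append] at h3
    apply h3.2.2
    · rw [List.getLast?_append] at hy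
      rw [hEe] at hy ⊢
      have : (e :: E').getLast? = some ((e :: E').getLast (by simp)) :=
        List.getLast?_eq_getLast_of_ne_nil (by simp)
      rw [this] at hy ⊢
      simpa using hy
    · simp
  · rw [List.length_append]; omega

/-- Main theorem, list form. -/
theorem main_list {G : SimpleGraph V} {v₀ : V} {r ρ c M : ℕ}
    (hρ : 1000 * (16000 + (5 * M + 3)) ^ 4 ≤ ρ) (hc : 0 < c) (hrad : ∀ x, Wd G r v₀ x)
    (hloc : Loc G ρ c) (hG : ¬ G.Colorable (4 * ((25 * M ^ 2 + 30 * M + 2) * c))) (ℓ : ℕ)
    (h1 : 2 * r + 1 ≤ ℓ) (h2 : ℓ ≤ ρ ^ M) : ∃ D, IsCyc G D ∧ D.length = ℓ := by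
  set K := (25 * M ^ 2 + 30 * M + 2) * c with hK
  have hreach : ∀ x, G.Reachable v₀ x := fun x => by
    obtain ⟨p, -⟩ := hrad x
    exact p.reachable
  obtain ⟨L, -, hL⟩ := exists_levelling G (fun _ => v₀) hreach (fun _ _ _ => rfl)
  have hlev : ∀ x, L.lev x ≤ r := by
    intro x
    rw [hL]
    obtain ⟨p, hp⟩ := hrad x
    exact (SimpleGraph.dist_le p).trans hp
  have hi : ∃ i, ¬ (L.layer i).Colorable (2 * K) := by
    by_contra hcon
    push Not at hcon
    apply hG
    have := L.colorable hcon
    have e1 : 2 * (2 * K) = 4 * K := by ring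
    rwa [e1] at this
  obtain ⟨i, hi⟩ := hi
  obtain ⟨L'⟩ := exists_levelling' (L.layer i)
  have hj : ∃ j, ¬ (L'.layer j).Colorable K := by
    by_contra hcon
    push Not at hcon
    exact hi (L'.colorable hcon)
  obtain ⟨j, hj⟩ := hj
  have hle : L'.layer j ≤ G := (L'.layer_le j).trans (L.layer_le i)
  have hloc' : Loc (L'.layer j) ρ c := by
    intro v
    obtain ⟨θ, hθ⟩ := hloc v
    refine ⟨θ, ?_⟩
    have hwd : ∀ x, Wd (L'.layer j) ρ v x → Wd G ρ v x := by
      rintro x ⟨p, hp⟩
      exact ⟨p.mapLe hle, by rw [SimpleGraph.Walk.length_mapLe]; exact hp⟩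
    intro x y hxy hx hy
    exact hθ x y (hle hxy) (hwd x hx) (hwd y hy)
  have hcirc : ∃ C, IsCyc (L'.layer j) C ∧ ρ ^ M < C.length := by
    by_contra hcon
    push Not at hcon
    exact hj (circ_thm hρ hc hloc' hcon)
  obtain ⟨C, hC, hClen⟩ := hcirc
  have hir : i ≤ r := by
    obtain ⟨v, -, -, hadj, -, -⟩ := cyc_fun hC
    have h3 : L.lev (v 0) = i := (hadj 0).1.2.1
    rw [← h3]; exact hlev _
  exact all_lengths L i L' j hC ℓ (by omega) (by omega)

end Pool.Agent.Lib.MP_b6048d_co
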