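import Mathlib
import Pool.Agent.Lib.MP_b6048d_co.Nested

set_option autoImplicit false

/-!
Passing from one scale of local colourability to a larger one when some cycle lengths
are missing.
-/

namespace Pool.Agent.Lib.MP_b6048d_co

open Finset

variable {V : Type*}

/-- Elementary version: small radius and large chromatic number give all lengths. -/
theorem small_radius {G : SimpleGraph V} {v₀ : V} {r n : ℕ} (hn : 2 ≤ n)
    (hrad : ∀ x, Wd G r v₀ x) (hG : ¬ G.Colorable (4 * n)) (ℓ : ℕ)
    (h1 : 2 * r + 1 ≤ ℓ) (h2 : ℓ ≤ n) : ∃ D, IsCyc G D ∧ D.length = ℓ := by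
  classical
  have hreach : ∀ x, G.Reachable v₀ x := fun x => by
    obtain ⟨p, -⟩ := hrad x
    exact p.reachable
  obtain ⟨L, -, hL⟩ := exists_levelling G (fun _ => v₀) hreach (fun _ _ _ => rfl)
  have hlev : ∀ x, L.lev x ≤ r := by
    intro x
    rw [hL]
    obtain ⟨p, hp⟩ := hrad x
    exact (SimpleGraph.dist_le p).trans hp
  have hi : ∃ i, ¬ (L.layer i).Colorable (2 * n) := by
    by_contra hcon
    push Not at hcon
    apply hG
    have := L.colorable hcon
    have e1 : 2 * (2 * n) = 4 * n := by ring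
    rwa [e1] at this
  obtain ⟨i, hi⟩ := hi
  obtain ⟨L'⟩ := exists_levelling' (L.layer i)
  have hj : ∃ j, ¬ (L'.layer j).Colorable n := by
    by_contra hcon
    push Not at hcon
    exact hi (L'.colorable hcon)
  obtain ⟨j, hj⟩ := hj
  have hcirc : ∃ C, IsCyc (L'.layer j) C ∧ n < C.length := by
    by_contra hcon
    push Not at hcon
    apply hj
    have h : ∀ G' : (L'.layer j).Subgraph, G'.verts.Finite →
        Nonempty (G'.coe →g (⊤ : SimpleGraph (Fin n))) := by
      intro G' hG'
      obtain ⟨θ, hθ⟩ := colOn_of_noLong_self (G := L'.layer j) (Y := hG'.toFinset) hn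
        (fun l hl _ => hcon l hl)
      refine ⟨⟨fun v => θ v.1, ?_⟩⟩
      intro u v huv
      rw [SimpleGraph.top_adj]
      exact hθ u.1 (by simp) v.1 (by simp) (G'.adj_sub huv)
    obtain ⟨f⟩ := SimpleGraph.nonempty_hom_of_forall_finite_subgraph_hom
      (fun G' hG' => (h G' hG').some)
    exact ⟨f⟩
  obtain ⟨C, hC, hClen⟩ := hcirc
  have hir : i ≤ r := by
    obtain ⟨v, -, -, hadj, -, -⟩ := cyc_fun hC
    have h3 : L.lev (v 0) = i := (hadj 0).1.2.1
    rw [← h3]; exact hlev _
  exact all_lengths L i L' j hC ℓ (by omega) (by omega)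

/-- `ℓ` is not a cycle length. -/
def Missing (G : SimpleGraph V) (ℓ : ℕ) : Prop := ∀ D, IsCyc G D → D.length ≠ ℓ

/-- The ball as a graph. -/
def ballG (G : SimpleGraph V) (s : ℕ) (v : V) : SimpleGraph {x | Wd G s v x} :=
  G.induce {x | Wd G s v x}

lemma ballG_radius (G : SimpleGraph V) (s : ℕ) (v : V) :
    ∀ x, Wd (ballG G s v) s ⟨v, Wd.refl s v⟩ x := by
  rintro ⟨x, p, hp⟩
  have hsup : ∀ y ∈ p.support, y ∈ {x | Wd G s v x} := by
    classical
    intro y hy
    exact ⟨p.takeUntil y hy, (p.length_takeUntil_le_length hy).trans hp⟩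
  refine ⟨p.induce _ hsup, ?_⟩
  have h1 := congrArg SimpleGraph.Walk.length (SimpleGraph.Walk.map_induce p hsup)
  rw [SimpleGraph.Walk.length_map] at h1
  exact h1.le.trans hp

lemma IsCyc.map {W : Type*} {G : SimpleGraph V} {G' : SimpleGraph W} {f : V → W}
    (hf : Function.Injective f) (hadj : ∀ x y, G.Adj x y → G'.Adj (f x) (f y)) {D : List V}
    (h : IsCyc G D) : IsCyc G' (D.map f) := by
  obtain ⟨h1, h2, h3, h4⟩ := h
  refine ⟨by simpa using h1, h2.map hf, ?_, ?_⟩
  · rw [List.isChain_map]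
    exact h3.imp fun a b hab => hadj a b hab
  · intro a ha b hb
    rw [List.head?_map, Option.mem_def, Option.map_eq_some_iff] at ha
    rw [List.getLast?_map, Option.mem_def, Option.map_eq_some_iff] at hb
    obtain ⟨a', ha', rfl⟩ := ha
    obtain ⟨b', hb', rfl⟩ := hb
    exact hadj _ _ (h4 a' ha' b' hb')

lemma Missing.of_map {W : Type*} {G : SimpleGraph V} {G' : SimpleGraph W} {f : V → W}
    (hf : Function.Injective f) (hadj : ∀ x y, G.Adj x y → G'.Adj (f x) (f y)) {ℓ : ℕ}
    (h : Missing G' ℓ) : Missing G ℓ := by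
  intro D hD
  have := h _ (hD.map hf hadj)
  rwa [List.length_map] at this

lemma Loc.of_ball {G : SimpleGraph V} {s k : ℕ} (hk : 0 < k)
    (h : ∀ v, (ballG G s v).Colorable k) : Loc G s k := by
  classical
  intro v
  obtain ⟨C⟩ := h v
  refine ⟨fun x => if hx : Wd G s v x then C ⟨x, hx⟩ else ⟨0, hk⟩, ?_⟩
  intro x y hxy hx hy
  simp only [hx, hy, dif_pos]
  exact C.valid (show (ballG G s v).Adj ⟨x, hx⟩ ⟨y, hy⟩ from hxy)

lemma Loc.ball {G : SimpleGraph V} {ρ c s : ℕ} (h : Loc G ρ c) (v : V) :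
    Loc (ballG G s v) ρ c := by
  rintro ⟨u, hu⟩
  obtain ⟨θ, hθ⟩ := h u
  have hwd : ∀ x : {x | Wd G s v x}, Wd (ballG G s v) ρ ⟨u, hu⟩ x → Wd G ρ u x.1 := by
    rintro x ⟨p, hp⟩
    let φ : (ballG G s v) →g G := ⟨fun x => x.1, fun h => h⟩
    exact ⟨p.map φ, by rw [SimpleGraph.Walk.length_map]; exact hp⟩
  refine ⟨fun x => θ x.1, ?_⟩
  intro x y hxy hx hy
  exact hθ x.1 y.1 hxy (hwd x hx) (hwd y hy)

/-- The scale step. -/
lemma scale_step {G : SimpleGraph V} {s s' c M ℓ : ℕ} (hc : 0 < c)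
    (hs' : 1000 * (16000 + (5 * M + 3)) ^ 4 ≤ s') (h1 : 2 * s + 1 ≤ ℓ) (h2 : ℓ ≤ s' ^ M)
    (hmiss : Missing G ℓ) (hloc : Loc G s' c) :
    Loc G s (4 * ((25 * M ^ 2 + 30 * M + 2) * c)) := by
  apply Loc.of_ball
  · positivity
  · intro v
    by_contra hcol
    obtain ⟨D, hD, hDl⟩ := main_list hs' hc (ballG_radius G s v) (hloc.ball v) hcol ℓ h1 h2
    have h3 : Missing (ballG G s v) ℓ :=
      Missing.of_map (f := fun x => x.1) Subtype.val_injective (fun x y hxy => hxy) hmiss
    exact h3 D hD hDl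

/-- The base step. -/
lemma base_step {G : SimpleGraph V} {s ℓ : ℕ} (h1 : 2 * s + 1 ≤ ℓ) (h2 : 2 ≤ ℓ)
    (hmiss : Missing G ℓ) : Loc G s (4 * ℓ) := by
  apply Loc.of_ball
  · positivity
  · intro v
    by_contra hcol
    obtain ⟨D, hD, hDl⟩ := small_radius h2 (ballG_radius G s v) hcol ℓ h1 le_rfl
    have h3 : Missing (ballG G s v) ℓ :=
      Missing.of_map (f := fun x => x.1) Subtype.val_injective (fun x y hxy => hxy) hmiss
    exact h3 D hD hDl

/-- Balls of radius `t` are bipartite when there are no odd cycles of length at most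
`2 t + 1`. -/
lemma loc_two {G : SimpleGraph V} {t : ℕ}
    (h : ∀ D, IsCyc G D → Odd D.length → 2 * t + 1 < D.length) : Loc G t 2 := by
  classical
  intro v
  obtain ⟨L, hLr, hL⟩ := exists_levelling G
    (fun x => if G.Reachable v x then v else Quot.out (G.connectedComponentMk x)) (by
      intro x
      split_ifs with hx
      · exact hx
      · apply SimpleGraph.ConnectedComponent.exact
        exact Quot.out_eq _) (by
      intro x y hxy
      by_cases hx : G.Reachable v x
      · have hy : G.Reachable v y := hx.trans hxy.reachable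
        simp only [hx, hy, if_true]
      · have hy : ¬ G.Reachable v y := fun hy => hx (hy.trans hxy.symm.reachable)
        simp only [hx, hy, if_false]
        rw [SimpleGraph.ConnectedComponent.sound hxy.reachable])
  refine ⟨fun x => if (L.lev x).bodd then 1 else 0, ?_⟩
  intro x y hxy hx hy he
  have hlevt : ∀ z, Wd G t v z → L.lev z ≤ t := by
    rintro z ⟨p, hp⟩
    rw [hL]
    simp only [p.reachable, if_true]
    exact (SimpleGraph.dist_le p).trans hp
  have hb : (L.lev x).bodd = (L.lev y).bodd := by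
    cases h1 : (L.lev x).bodd <;> cases h2 : (L.lev y).bodd <;> simp [h1, h2] at he ⊢
  have hlev : L.lev x = L.lev y := bodd_eq_of_le hb (L.lip x y hxy) (L.lip y x hxy.symm)
  obtain ⟨k, E, hk, hE1, hE2, hE3, -⟩ := L.exists_ear hlev (L.root_adj x y hxy) hxy.ne
  have hcyc : IsCyc G (x :: (E ++ [y])) := by
    refine ⟨by simp; omega, hE3, hE2, ?_⟩
    intro a ha b hb
    have ha' : x = a := by simpa using ha
    have hb' : y = b := by
      have e1 : x :: (E ++ [y]) = (x :: E) ++ [y] := rfl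
      rw [e1, List.getLast?_append] at hb
      simpa using hb
    rw [← ha', ← hb']
    exact hxy.symm
  have hlen : (x :: (E ++ [y])).length = 2 * k + 3 := by
    simp only [List.length_cons, List.length_append, List.length_nil]
    omega
  have h1 := h _ hcyc (by rw [hlen]; exact ⟨k + 1, by ring⟩)
  have h2 := hlevt x hx
  omega

end Pool.Agent.Lib.MP_b6048d_co
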