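import Mathlib

set_option autoImplicit false

/-!
Logarithmic densities of sets containing long intervals.
-/

namespace Pool.Agent.Lib.MP_b6048d_co

open Filter Finset

lemma sum_range_inv (n : ℕ) :
    ∑ m ∈ Finset.range (n + 1), (1 : ℝ) / (m : ℝ) = ((harmonic n : ℚ) : ℝ) := by
  rw [Finset.sum_range_succ', harmonic]
  push_cast
  simp

lemma log_density (S : Set ℕ)
    (h : ∀ A : ℕ, 2 ≤ A → ∀ R : ℕ, ∃ r, R ≤ r ∧ ∀ ℓ, 2 * r + 1 ≤ ℓ → ℓ ≤ r ^ A → ℓ ∈ S) :
    Filter.limsup
      (fun N : ℕ => (1 / Real.log (N : ℝ)) * ∑ m ∈ Finset.range N,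
        S.indicator (fun k : ℕ => (1 : ℝ) / (k : ℝ)) m) Filter.atTop = 1 := by
  set u : ℕ → ℝ := fun N : ℕ => (1 / Real.log (N : ℝ)) * ∑ m ∈ Finset.range N,
        S.indicator (fun k : ℕ => (1 : ℝ) / (k : ℝ)) m with hu
  have hind : ∀ m : ℕ, S.indicator (fun k : ℕ => (1 : ℝ) / (k : ℝ)) m ≤ 1 / (m : ℝ) := by
    intro m
    apply Set.indicator_le_self'
    intro _ _
    positivity
  have hind0 : ∀ m : ℕ, 0 ≤ S.indicator (fun k : ℕ => (1 : ℝ) / (k : ℝ)) m := by
    intro m
    apply Set.indicator_nonneg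
    intro _ _
    positivity
  have hupper : ∀ᶠ N : ℕ in atTop, u N ≤ 1 / Real.log (N : ℝ) + 1 := by
    filter_upwards [Filter.eventually_ge_atTop 3] with N hN
    have hlog : 0 < Real.log (N : ℝ) := Real.log_pos (by
      have : (3 : ℝ) ≤ N := by exact_mod_cast hN
      linarith)
    obtain ⟨n, rfl⟩ : ∃ n, N = n + 1 := ⟨N - 1, by omega⟩
    have h1 : ∑ m ∈ Finset.range (n + 1), S.indicator (fun k : ℕ => (1 : ℝ) / (k : ℝ)) m ≤
        1 + Real.log ((n + 1 : ℕ) : ℝ) := by
      calc ∑ m ∈ Finset.range (n + 1), S.indicator (fun k : ℕ => (1 : ℝ) / (k : ℝ)) m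
          ≤ ∑ m ∈ Finset.range (n + 1), (1 : ℝ) / (m : ℝ) := Finset.sum_le_sum fun m _ => hind m
        _ = ((harmonic n : ℚ) : ℝ) := sum_range_inv n
        _ ≤ 1 + Real.log (n : ℝ) := harmonic_le_one_add_log n
        _ ≤ 1 + Real.log ((n + 1 : ℕ) : ℝ) := by
            have : Real.log (n : ℝ) ≤ Real.log ((n + 1 : ℕ) : ℝ) :=
              Real.log_le_log (by
                have : 0 < n := by omega
                exact_mod_cast this) (by push_cast; linarith)
            linarith
    calc u (n + 1) ≤ (1 / Real.log ((n + 1 : ℕ) : ℝ)) * (1 + Real.log ((n + 1 : ℕ) : ℝ)) := by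
          simp only [hu]
          exact mul_le_mul_of_nonneg_left h1 (by positivity)
      _ = 1 / Real.log ((n + 1 : ℕ) : ℝ) + 1 := by
          field_simp
  have htend : Tendsto (fun N : ℕ => 1 / Real.log (N : ℝ) + 1) atTop (nhds 1) := by
    have h1 : Tendsto (fun N : ℕ => Real.log (N : ℝ)) atTop atTop :=
      Real.tendsto_log_atTop.comp tendsto_natCast_atTop_atTop
    have h2 := h1.inv_tendsto_atTop
    have h3 := h2.add_const 1
    rw [zero_add] at h3
    refine h3.congr ?_
    intro N
    simp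
  have hnonneg : ∀ᶠ N : ℕ in atTop, 0 ≤ u N := by
    filter_upwards [Filter.eventually_ge_atTop 3] with N hN
    have hlog : 0 < Real.log (N : ℝ) := Real.log_pos (by
      have : (3 : ℝ) ≤ N := by exact_mod_cast hN
      linarith)
    simp only [hu]
    exact mul_nonneg (by positivity) (Finset.sum_nonneg fun m _ => hind0 m)
  have hbdd : IsBoundedUnder (· ≤ ·) atTop u :=
    htend.isBoundedUnder_le.mono_le hupper
  have hcob : IsCoboundedUnder (· ≤ ·) atTop u :=
    (Filter.isBoundedUnder_of_eventually_ge hnonneg).isCoboundedUnder_le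
  apply le_antisymm
  · calc limsup u atTop ≤ limsup (fun N : ℕ => 1 / Real.log (N : ℝ) + 1) atTop :=
          limsup_le_limsup hupper hcob htend.isBoundedUnder_le
      _ = 1 := htend.limsup_eq
  · apply le_of_forall_lt
    intro a ha
    -- choose A
    obtain ⟨A₀, hA₀⟩ := exists_nat_gt (2 / (1 - a))
    set A := max A₀ 2 with hA
    have hA2 : 2 ≤ A := le_max_right _ _
    have hApos : (0 : ℝ) < A := by
      have : (2 : ℝ) ≤ A := by exact_mod_cast hA2
      linarith
    have hAa : a < 1 - 2 / (A : ℝ) := by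
      have h1 : (2 / (1 - a)) < A := lt_of_lt_of_le hA₀ (by
        have : A₀ ≤ A := le_max_left _ _
        exact_mod_cast this)
      have h2 : 0 < 1 - a := by linarith
      rw [div_lt_iff₀ h2] at h1
      have h3 : 2 / (A : ℝ) < 1 - a := by
        rw [div_lt_iff₀ hApos]; linarith
      linarith
    refine lt_of_lt_of_le hAa (le_limsup_of_frequently_le ?_ hbdd)
    rw [Filter.frequently_atTop]
    intro N₀
    obtain ⟨r, hr, hrS⟩ := h A hA2 (max N₀ 16)
    have hr16 : 16 ≤ r := (le_max_right _ _).trans hr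
    have hrN : N₀ ≤ r := (le_max_left _ _).trans hr
    have hrA : r ≤ r ^ A := Nat.le_self_pow (by omega) r
    refine ⟨r ^ A + 1, by omega, ?_⟩
    have hrr : (16 : ℝ) ≤ r := by exact_mod_cast hr16
    have hlogr : Real.log 16 ≤ Real.log r := Real.log_le_log (by norm_num) hrr
    have hlog2 : Real.log 16 = 4 * Real.log 2 := by
      rw [show (16 : ℝ) = 2 ^ (4 : ℕ) by norm_num, Real.log_pow]; norm_num
    have hl2 := Real.log_two_gt_d9
    have h2r : 2 * r + 1 ≤ r ^ A := by
      calc 2 * r + 1 ≤ 16 * r := by omega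
        _ ≤ r * r := Nat.mul_le_mul_right _ hr16
        _ = r ^ 2 := by ring
        _ ≤ r ^ A := Nat.pow_le_pow_right (by omega) hA2
    -- lower bound for the sum
    have hsum : Real.log ((r ^ A + 1 : ℕ) : ℝ) - (1 + Real.log (2 * r : ℝ)) ≤
        ∑ m ∈ Finset.range (r ^ A + 1), S.indicator (fun k : ℕ => (1 : ℝ) / (k : ℝ)) m := by
      have e1 : ∑ m ∈ Finset.range (r ^ A + 1), ((1 : ℝ) / (m : ℝ) -
          if m ∈ Finset.range (2 * r + 1) then (1 : ℝ) / (m : ℝ) else 0) ≤
          ∑ m ∈ Finset.range (r ^ A + 1), S.indicator (fun k : ℕ => (1 : ℝ) / (k : ℝ)) m := by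
        apply Finset.sum_le_sum
        intro m hm
        by_cases hm2 : m ∈ Finset.range (2 * r + 1)
        · simp only [hm2, if_true, sub_self]
          exact hind0 m
        · simp only [hm2, if_false, sub_zero]
          rw [Finset.mem_range] at hm hm2
          rw [Set.indicator_of_mem (hrS m (by omega) (by omega))]
      have e2 : ∑ m ∈ Finset.range (r ^ A + 1), (if m ∈ Finset.range (2 * r + 1)
          then (1 : ℝ) / (m : ℝ) else 0) = ∑ m ∈ Finset.range (2 * r + 1), (1 : ℝ) / (m : ℝ) := by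
        rw [Finset.sum_ite_mem]
        congr 1
        rw [Finset.inter_eq_right]
        intro x hx
        rw [Finset.mem_range] at hx ⊢
        omega
      rw [Finset.sum_sub_distrib, e2, sum_range_inv, sum_range_inv] at e1
      have e3 : Real.log ((r ^ A + 1 : ℕ) : ℝ) ≤ ((harmonic (r ^ A) : ℚ) : ℝ) := by
        have := log_add_one_le_harmonic (r ^ A)
        push_cast at this ⊢
        exact this
      have e4 : ((harmonic (2 * r) : ℚ) : ℝ) ≤ 1 + Real.log (2 * r : ℝ) := by
        have := harmonic_le_one_add_log (2 * r)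
        push_cast at this
        exact this
      linarith
    have hlogA : Real.log ((r ^ A + 1 : ℕ) : ℝ) ≤ A * Real.log r + Real.log 2 := by
      have h1 : ((r ^ A + 1 : ℕ) : ℝ) ≤ (r : ℝ) ^ A * 2 := by
        have : r ^ A + 1 ≤ r ^ A * 2 := by
          have : 1 ≤ r ^ A := Nat.one_le_pow _ _ (by omega)
          omega
        exact_mod_cast this
      calc Real.log ((r ^ A + 1 : ℕ) : ℝ) ≤ Real.log ((r : ℝ) ^ A * 2) :=
            Real.log_le_log (by positivity) h1
        _ = A * Real.log r + Real.log 2 := by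
            rw [Real.log_mul (by positivity) (by norm_num), Real.log_pow]
    have hlogA' : (A : ℝ) * Real.log r ≤ Real.log ((r ^ A + 1 : ℕ) : ℝ) := by
      rw [← Real.log_pow]
      apply Real.log_le_log (by positivity)
      push_cast; linarith
    have hlogpos : 0 < Real.log ((r ^ A + 1 : ℕ) : ℝ) := by
      have : 0 < (A : ℝ) * Real.log r := by
        apply mul_pos hApos; linarith
      linarith
    have hlog2r : Real.log (2 * r : ℝ) = Real.log 2 + Real.log r :=
      Real.log_mul (by norm_num) (by positivity)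
    simp only [hu]
    rw [one_div, inv_mul_eq_div, le_div_iff₀ hlogpos]
    refine le_trans ?_ hsum
    rw [hlog2r]
    set X := Real.log ((r ^ A + 1 : ℕ) : ℝ) with hX
    have hl : 1 + Real.log 2 + Real.log r ≤ 2 / (A : ℝ) * X := by
      have h1 : 2 / (A : ℝ) * (A * Real.log r) ≤ 2 / (A : ℝ) * X :=
        mul_le_mul_of_nonneg_left hlogA' (by positivity)
      have h2 : 2 / (A : ℝ) * (A * Real.log r) = 2 * Real.log r := by
        field_simp
      linarith
    linarith

end Pool.Agent.Lib.MP_b6048d_co
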