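import Mathlib
import Pool.Agent.Lib.MP_b6048d_co.Balls
import Pool.Agent.Lib.MP_b6048d_co.Delta

set_option autoImplicit false

/-!
Local chromatic numbers grow slowly when cycle lengths are missing at all scales.
-/

namespace Pool.Agent.Lib.MP_b6048d_co

open Filter

/-- In every interval `[2 s + 1, s ^ A]` with `s ≥ R` some cycle length is missing. -/
def Miss {V : Type*} (G : SimpleGraph V) (A R : ℕ) : Prop :=
  ∀ s, R ≤ s → ∃ ℓ, 2 * s + 1 ≤ ℓ ∧ ℓ ≤ s ^ A ∧ Missing G ℓ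

/-- The choice of the exponent. -/
lemma exists_M (A : ℕ) (hA : 1 ≤ A) (σ : ℝ) (hσ : 2 < σ) : ∃ M : ℕ, 2 * A ≤ M ∧
    (4 * (25 * (M : ℝ) ^ 2 + 30 * M + 2)) * (3 * ((A : ℝ) / M)) ^ σ ≤ 1 := by
  have hApos : (0 : ℝ) < A := by exact_mod_cast hA
  have h1 : Tendsto (fun M : ℕ => (228 * (3 * (A : ℝ)) ^ σ) * (M : ℝ) ^ (-(σ - 2))) atTop
      (nhds ((228 * (3 * (A : ℝ)) ^ σ) * 0)) := by
    apply Tendsto.const_mul
    exact (tendsto_rpow_neg_atTop (by linarith)).comp tendsto_natCast_atTop_atTop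
  rw [mul_zero] at h1
  have h2 := (h1.eventually_lt_const (show (0 : ℝ) < 1 by norm_num)).and
    (Filter.eventually_ge_atTop (2 * A))
  obtain ⟨M, hM1, hM2⟩ := h2.exists
  refine ⟨M, hM2, ?_⟩
  have hM1' : 1 ≤ M := by omega
  have hMpos : (0 : ℝ) < M := by exact_mod_cast hM1'
  have hM1r : (1 : ℝ) ≤ M := by exact_mod_cast hM1'
  have h3 : 4 * (25 * (M : ℝ) ^ 2 + 30 * M + 2) ≤ 228 * (M : ℝ) ^ 2 := by nlinarith
  have h4 : (3 * ((A : ℝ) / M)) ^ σ = (3 * (A : ℝ)) ^ σ * (M : ℝ) ^ (-σ) := by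
    rw [show 3 * ((A : ℝ) / M) = (3 * (A : ℝ)) / M by ring,
      Real.div_rpow (by positivity) hMpos.le, Real.rpow_neg hMpos.le, div_eq_mul_inv]
  have h5 : (M : ℝ) ^ 2 * (M : ℝ) ^ (-σ) = (M : ℝ) ^ (-(σ - 2)) := by
    rw [← Real.rpow_natCast, ← Real.rpow_add hMpos]
    congr 1
    push_cast; ring
  calc (4 * (25 * (M : ℝ) ^ 2 + 30 * M + 2)) * (3 * ((A : ℝ) / M)) ^ σ
      ≤ (228 * (M : ℝ) ^ 2) * (3 * ((A : ℝ) / M)) ^ σ :=
        mul_le_mul_of_nonneg_right h3 (by positivity)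
    _ = (228 * (3 * (A : ℝ)) ^ σ) * ((M : ℝ) ^ 2 * (M : ℝ) ^ (-σ)) := by rw [h4]; ring
    _ = (228 * (3 * (A : ℝ)) ^ σ) * (M : ℝ) ^ (-(σ - 2)) := by rw [h5]
    _ ≤ 1 := hM1.le

lemma Loc.mono {V : Type*} {G : SimpleGraph V} {s s' k k' : ℕ} (h : Loc G s k) (hs : s' ≤ s)
    (hk : k ≤ k') : Loc G s' k' := by
  intro v
  obtain ⟨θ, hθ⟩ := h v
  refine ⟨fun x => Fin.castLE hk (θ x), ?_⟩
  intro x y hxy hx hy he
  exact hθ x y hxy (hx.mono hs) (hy.mono hs) (Fin.castLE_injective hk he)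

/-- The growth theorem: constants depend only on the missing cycle lengths. -/
theorem growth {V₀ : Type*} {G₀ : SimpleGraph V₀} {A R : ℕ} (hA : 1 ≤ A) (hmiss : Miss G₀ A R)
    (σ : ℝ) (hσ : 2 < σ) : ∃ C : ℝ, 0 < C ∧ ∀ {V : Type} (G : SimpleGraph V)
      (_ : ∀ ℓ, Missing G₀ ℓ → Missing G ℓ) (t c : ℕ), 1 ≤ t → 1 ≤ c → (t = 1 ∨ Loc G t c) →
      ∀ s : ℕ, 1 ≤ s → ∃ k : ℕ, 0 < k ∧
        (k : ℝ) ≤ C * c * (1 + Real.log s / Real.log (t + 1)) ^ σ ∧ Loc G s k := by
  obtain ⟨M, hMA, hM⟩ := exists_M A hA σ hσ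
  have hM1 : 1 ≤ M := by omega
  have hMpos : (0 : ℝ) < M := by exact_mod_cast hM1
  have hApos : (0 : ℝ) < A := by exact_mod_cast hA
  obtain ⟨P, hP⟩ : ∃ P : ℕ, P = 1000 * (16000 + (5 * M + 3)) ^ 4 := ⟨_, rfl⟩
  have hP16 : 16 ≤ P := by
    have h1 : 1 ≤ (16000 + (5 * M + 3)) ^ 4 := Nat.one_le_pow _ _ (by omega)
    rw [hP]
    omega
  set θ : ℝ := (A : ℝ) / M with hθ
  have hθpos : 0 < θ := by positivity
  have hθhalf : θ ≤ 1 / 2 := by
    rw [hθ, div_le_iff₀ hMpos]
    have : (2 * A : ℝ) ≤ M := by exact_mod_cast hMA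
    linarith
  -- the threshold
  have htend : Tendsto (fun s : ℕ => (s : ℝ) ^ θ) atTop atTop :=
    (tendsto_rpow_atTop hθpos).comp tendsto_natCast_atTop_atTop
  obtain ⟨s₀, hs₀⟩ := Filter.eventually_atTop.1
    ((htend.eventually_ge_atTop (P : ℝ)).and (Filter.eventually_ge_atTop (max R 16)))
  obtain ⟨ℓ₀, hℓ₀1, -, hℓ₀3⟩ := hmiss (max s₀ R) (le_max_right _ _)
  set B : ℕ := 4 * (25 * M ^ 2 + 30 * M + 2) with hB
  refine ⟨4 * ℓ₀ + 2 * B + 1, by positivity, ?_⟩
  intro V G hG t c ht hc hloc s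
  have hcr : (1 : ℝ) ≤ c := by exact_mod_cast hc
  have hCc : (4 * ℓ₀ + 2 * B + 1 : ℝ) ≤ (4 * ℓ₀ + 2 * B + 1) * c :=
    le_mul_of_one_le_right (by positivity) hcr
  have hL : 0 < Real.log ((t : ℝ) + 1) := Real.log_pos (by
    have : (1 : ℝ) ≤ t := by exact_mod_cast ht
    linarith)
  set L := Real.log ((t : ℝ) + 1) with hLdef
  have hσ0 : 0 ≤ σ := by linarith
  have hone : ∀ s : ℕ, 1 ≤ s → (1 : ℝ) ≤ (1 + Real.log s / L) ^ σ := by
    intro s hs
    apply Real.one_le_rpow _ hσ0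
    have : 0 ≤ Real.log (s : ℝ) := Real.log_nonneg (by exact_mod_cast hs)
    have : 0 ≤ Real.log (s : ℝ) / L := by positivity
    linarith
  induction s using Nat.strong_induction_on with
  | _ s ih =>
  intro hs
  by_cases hss : s < s₀
  · refine ⟨4 * ℓ₀, by
      have : 2 * max s₀ R + 1 ≤ ℓ₀ := hℓ₀1
      omega, ?_, ?_⟩
    · have h1 := hone s hs
      have h2 : (0 : ℝ) ≤ (4 * ℓ₀ + 2 * B + 1) * c := by positivity
      have h3 : (0 : ℝ) ≤ 2 * B + 1 := by positivity
      push_cast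
      nlinarith [mul_le_mul_of_nonneg_left h1 h2]
    · apply base_step (G := G) (s := s) (ℓ := ℓ₀)
      · have : s₀ ≤ max s₀ R := le_max_left _ _
        omega
      · have : s₀ ≤ max s₀ R := le_max_left _ _
        omega
      · exact hG _ hℓ₀3
  · push Not at hss
    obtain ⟨hsP, hsR⟩ := hs₀ s hss
    have hsR' : R ≤ s := (le_max_left _ _).trans hsR
    have hs16 : 16 ≤ s := (le_max_right _ _).trans hsR
    have hspos : (0 : ℝ) < s := by
      have : 0 < s := by omega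
      exact_mod_cast this
    set s' : ℕ := ⌈(s : ℝ) ^ θ⌉₊ with hs'
    have hs'1 : (s : ℝ) ^ θ ≤ s' := Nat.le_ceil _
    have hs'2 : (s' : ℝ) < (s : ℝ) ^ θ + 1 := Nat.ceil_lt_add_one (by positivity)
    have hPs' : P ≤ s' := by
      have : (P : ℝ) ≤ s' := hsP.trans hs'1
      exact_mod_cast this
    have hs'lt : s' < s := by
      have h1 : (s : ℝ) ^ θ ≤ (s : ℝ) ^ (1 / 2 : ℝ) := by
        apply Real.rpow_le_rpow_of_exponent_le _ hθhalf
        have : (16 : ℝ) ≤ s := by exact_mod_cast hs16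
        linarith
      have h2 : (s : ℝ) ^ (1 / 2 : ℝ) ≤ s / 4 := by
        rw [← Real.sqrt_eq_rpow, Real.sqrt_le_left (by positivity)]
        have : (16 : ℝ) ≤ s := by exact_mod_cast hs16
        nlinarith
      have h3 : (16 : ℝ) ≤ s := by exact_mod_cast hs16
      have h4 : (s' : ℝ) < s := by linarith
      exact_mod_cast h4
    obtain ⟨ℓ, hℓ1, hℓ2, hℓ3⟩ := hmiss s hsR'
    have hℓ4 : ℓ ≤ s' ^ M := by
      refine hℓ2.trans ?_
      have h1 : ((s ^ A : ℕ) : ℝ) ≤ ((s' ^ M : ℕ) : ℝ) := by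
        push_cast
        calc (s : ℝ) ^ A = ((s : ℝ) ^ θ) ^ M := by
              rw [← Real.rpow_natCast, ← Real.rpow_natCast, ← Real.rpow_mul hspos.le]
              congr 1
              rw [hθ]; field_simp
          _ ≤ (s' : ℝ) ^ M := pow_le_pow_left₀ (by positivity) hs'1 M
      exact_mod_cast h1
    by_cases hst : s' ≤ t ∧ Loc G t c
    · have h1 : Loc G s' c := hst.2.mono hst.1 le_rfl
      have h2 := scale_step (s := s) (by omega) (hP ▸ hPs') hℓ1 hℓ4 (hG _ hℓ3) h1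
      refine ⟨_, ?_, ?_, h2⟩
      · positivity
      · have h1 := hone s hs
        have h2 : (0 : ℝ) ≤ (4 * ℓ₀ + 2 * B + 1) * c := by positivity
        have h3 : (0 : ℝ) ≤ (4 * ℓ₀ + B + 1) * c := by positivity
        have h4 : ((4 * ((25 * M ^ 2 + 30 * M + 2) * c) : ℕ) : ℝ) = (B : ℝ) * c := by
          rw [hB]; push_cast; ring
        rw [h4]
        nlinarith [mul_le_mul_of_nonneg_left h1 h2]
    · have hst' : t + 1 ≤ s' := by
        by_contra hlt
        push Not at hlt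
        rcases hloc with h1 | h1
        · omega
        · exact hst ⟨by omega, h1⟩
      obtain ⟨k', hk'0, hk', hlock'⟩ := ih s' hs'lt (by omega)
      have h2 := scale_step (s := s) hk'0 (hP ▸ hPs') hℓ1 hℓ4 (hG _ hℓ3) hlock'
      refine ⟨_, ?_, ?_, h2⟩
      · positivity
      · have e1 : ((4 * ((25 * M ^ 2 + 30 * M + 2) * k') : ℕ) : ℝ) = (B : ℝ) * k' := by
          rw [hB]; push_cast; ring
        rw [e1]
        have hs'pos : (0 : ℝ) < s' := by
          have : 0 < s' := by omega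
          exact_mod_cast this
        have hlogs : 0 ≤ Real.log (s : ℝ) := Real.log_nonneg (by exact_mod_cast hs)
        have hx1 : 1 ≤ Real.log (s' : ℝ) / L := by
          rw [le_div_iff₀ hL, one_mul, hLdef]
          apply Real.log_le_log (by positivity)
          exact_mod_cast hst'
        have hlog' : Real.log (s' : ℝ) ≤ (3 / 2) * (θ * Real.log s) := by
          have h3 : (s' : ℝ) ≤ ((s : ℝ) ^ θ) * 2 := by
            have : (1 : ℝ) ≤ (s : ℝ) ^ θ := by
              have : (16 : ℝ) ≤ P := by exact_mod_cast hP16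
              linarith
            linarith
          have h4 : Real.log (s' : ℝ) ≤ θ * Real.log s + Real.log 2 := by
            calc Real.log (s' : ℝ) ≤ Real.log (((s : ℝ) ^ θ) * 2) :=
                  Real.log_le_log hs'pos h3
              _ = θ * Real.log s + Real.log 2 := by
                  rw [Real.log_mul (by positivity) (by norm_num), Real.log_rpow hspos]
          have h5 : Real.log 16 ≤ θ * Real.log s := by
            rw [← Real.log_rpow hspos]
            apply Real.log_le_log (by norm_num)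
            have : (16 : ℝ) ≤ P := by exact_mod_cast hP16
            linarith
          have hlog2 : Real.log 16 = 4 * Real.log 2 := by
            rw [show (16 : ℝ) = 2 ^ (4 : ℕ) by norm_num, Real.log_pow]; norm_num
          have hl2 := Real.log_two_gt_d9
          linarith
        set x := Real.log (s : ℝ) / L with hx
        have hx0 : 0 ≤ x := by positivity
        have hx' : 1 + Real.log (s' : ℝ) / L ≤ (3 * θ) * x := by
          have h3 : Real.log (s' : ℝ) / L ≤ (3 / 2) * (θ * x) := by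
            rw [hx, div_le_iff₀ hL]
            have : 3 / 2 * (θ * (Real.log (s : ℝ) / L)) * L = (3 / 2) * (θ * Real.log s) := by
              field_simp
            rw [this]; exact hlog'
          linarith
        have hpow : (1 + Real.log (s' : ℝ) / L) ^ σ ≤ (3 * θ) ^ σ * x ^ σ := by
          rw [← Real.mul_rpow (by positivity) hx0]
          exact Real.rpow_le_rpow (by linarith) hx' hσ0
        have hxσ : x ^ σ ≤ (1 + x) ^ σ := Real.rpow_le_rpow hx0 (by linarith) hσ0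
        have hBr : (B : ℝ) = 4 * (25 * (M : ℝ) ^ 2 + 30 * M + 2) := by
          rw [hB]; push_cast; ring
        have hBθ : (B : ℝ) * (3 * θ) ^ σ ≤ 1 := by rw [hBr]; exact hM
        have hC : (0 : ℝ) ≤ (4 * ℓ₀ + 2 * B + 1) * c := by positivity
        calc (B : ℝ) * k' ≤ (B : ℝ) * ((4 * ℓ₀ + 2 * B + 1) * c *
              (1 + Real.log (s' : ℝ) / L) ^ σ) := mul_le_mul_of_nonneg_left hk' (by positivity)
          _ ≤ (B : ℝ) * ((4 * ℓ₀ + 2 * B + 1) * c * ((3 * θ) ^ σ * x ^ σ)) := by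
              apply mul_le_mul_of_nonneg_left _ (by positivity)
              exact mul_le_mul_of_nonneg_left hpow hC
          _ = (4 * ℓ₀ + 2 * B + 1) * c * (((B : ℝ) * (3 * θ) ^ σ) * x ^ σ) := by ring
          _ ≤ (4 * ℓ₀ + 2 * B + 1) * c * (1 * x ^ σ) := by
              apply mul_le_mul_of_nonneg_left _ hC
              exact mul_le_mul_of_nonneg_right hBθ (by positivity)
          _ ≤ (4 * ℓ₀ + 2 * B + 1) * c * (1 + x) ^ σ := by
              rw [one_mul]
              exact mul_le_mul_of_nonneg_left hxσ hC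

end Pool.Agent.Lib.MP_b6048d_co
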